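import Mathlib

set_option autoImplicit false
set_option linter.unusedSimpArgs false
set_option linter.unusedSectionVars false

open Equiv Equiv.Perm

namespace Pool.Agent.Lib.MP_7f581e_nt.AutAlt

variable {α : Type*}

/-- `x` is the 3-cycle `a → b → c → a`. -/
def Tri (x : Perm α) (a b c : α) : Prop :=
  a ≠ b ∧ b ≠ c ∧ c ≠ a ∧ x a = b ∧ x b = c ∧ x c = a ∧ ∀ p, p ≠ a → p ≠ b → p ≠ c → x p = p

lemma Tri.rot {x : Perm α} {a b c : α} (h : Tri x a b c) : Tri x b c a := by
  obtain ⟨h1, h2, h3, h4, h5, h6, h7⟩ := h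
  exact ⟨h2, h3, h1, h5, h6, h4, fun p p1 p2 p3 => h7 p p3 p1 p2⟩

lemma Tri.inv {x : Perm α} {a b c : α} (h : Tri x a b c) : Tri x⁻¹ a c b := by
  obtain ⟨h1, h2, h3, h4, h5, h6, h7⟩ := h
  refine ⟨h3.symm, h2.symm, h1.symm, ?_, ?_, ?_, ?_⟩
  · rw [Perm.inv_eq_iff_eq, h6]
  · rw [Perm.inv_eq_iff_eq, h5]
  · rw [Perm.inv_eq_iff_eq, h4]
  · intro p p1 p2 p3
    rw [Perm.inv_eq_iff_eq, h7 p p1 p3 p2]

lemma Tri.ext {x y : Perm α} {a b c : α} (h : Tri x a b c) (h' : Tri y a b c) : x = y := by
  obtain ⟨h1, h2, h3, h4, h5, h6, h7⟩ := h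
  obtain ⟨k1, k2, k3, k4, k5, k6, k7⟩ := h'
  ext p
  by_cases e1 : p = a
  · rw [e1, h4, k4]
  by_cases e2 : p = b
  · rw [e2, h5, k5]
  by_cases e3 : p = c
  · rw [e3, h6, k6]
  rw [h7 p e1 e2 e3, k7 p e1 e2 e3]

lemma Tri.cube {x : Perm α} {a b c : α} (h : Tri x a b c) (p : α) : x (x (x p)) = p := by
  obtain ⟨h1, h2, h3, h4, h5, h6, h7⟩ := h
  by_cases e1 : p = a
  · rw [e1, h4, h5, h6]
  by_cases e2 : p = b
  · rw [e2, h5, h6, h4]
  by_cases e3 : p = c
  · rw [e3, h6, h4, h5]
  rw [h7 p e1 e2 e3, h7 p e1 e2 e3, h7 p e1 e2 e3]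

lemma Tri.pow_three {x : Perm α} {a b c : α} (h : Tri x a b c) : x ^ 3 = 1 := by
  ext p
  simp [pow_succ, h.cube p]

lemma Tri.ne_one {x : Perm α} {a b c : α} (h : Tri x a b c) : x ≠ 1 := by
  intro hx
  obtain ⟨h1, h2, h3, h4, h5, h6, h7⟩ := h
  rw [hx] at h4
  exact h1 h4

section

variable [DecidableEq α]

/-- the 3-cycle `a → b → c → a` -/
def cyc (a b c : α) : Perm α := swap a b * swap b c

lemma tri_cyc {a b c : α} (h1 : a ≠ b) (h2 : b ≠ c) (h3 : c ≠ a) : Tri (cyc a b c) a b c := by
  refine ⟨h1, h2, h3, ?_, ?_, ?_, ?_⟩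
  · simp [cyc, swap_apply_of_ne_of_ne h1 h3.symm]
  · simp [cyc, swap_apply_of_ne_of_ne h3 h2.symm]
  · simp [cyc]
  · intro p p1 p2 p3
    simp [cyc, swap_apply_of_ne_of_ne p2 p3, swap_apply_of_ne_of_ne p1 p2]

lemma Tri.conj {x : Perm α} {a b c : α} (h : Tri x a b c) (σ : Perm α) :
    Tri (σ * x * σ⁻¹) (σ a) (σ b) (σ c) := by
  obtain ⟨h1, h2, h3, h4, h5, h6, h7⟩ := h
  refine ⟨fun e => h1 (σ.injective e), fun e => h2 (σ.injective e), fun e => h3 (σ.injective e),
    by simp [h4], by simp [h5], by simp [h6], ?_⟩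
  intro p p1 p2 p3
  have : x (σ⁻¹ p) = σ⁻¹ p := by
    apply h7
    · intro e; apply p1; rw [← e]; simp
    · intro e; apply p2; rw [← e]; simp
    · intro e; apply p3; rw [← e]; simp
  rw [Perm.mul_apply, Perm.mul_apply, this]
  simp

variable [Fintype α]

lemma tri_of_isThreeCycle {x : Perm α} (h : IsThreeCycle x) {a : α} (ha : x a ≠ a) :
    Tri x a (x a) (x (x a)) := by
  have ha' : a ∈ x.support := mem_support.2 ha
  have h1 := h.support_eq_iff_mem_support.2 ha'
  have h2 := h.nodup_iff_mem_support.2 ha'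
  have h3 : (x ^ 3) a = a := by rw [← h.orderOf, pow_orderOf_eq_one]; rfl
  have h3' : x (x (x a)) = a := by simpa [pow_succ] using h3
  simp only [List.nodup_cons, List.mem_cons, List.not_mem_nil, or_false, not_or, not_false_eq_true,
    List.nodup_nil, and_true] at h2
  refine ⟨h2.1.1, h2.2, fun e => h2.1.2 e.symm, rfl, rfl, h3', ?_⟩
  intro p p1 p2 p3
  by_contra hp
  have : p ∈ x.support := mem_support.2 hp
  rw [h1] at this
  simp only [Finset.mem_insert, Finset.mem_singleton] at this
  rcases this with e | e | e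
  · exact p1 e
  · exact p2 e
  · exact p3 e

lemma Tri.isThreeCycle {x : Perm α} {a b c : α} (h : Tri x a b c) : IsThreeCycle x := by
  rw [← card_support_eq_three_iff]
  have : x.support = {a, b, c} := by
    obtain ⟨h1, h2, h3, h4, h5, h6, h7⟩ := h
    ext p
    simp only [mem_support, Finset.mem_insert, Finset.mem_singleton]
    constructor
    · intro hp
      by_contra hcon
      push Not at hcon
      exact hp (h7 p hcon.1 hcon.2.1 hcon.2.2)
    · rintro (rfl | rfl | rfl)
      · rw [h4]; exact h1.symm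
      · rw [h5]; exact h2.symm
      · rw [h6]; exact h3.symm
  rw [this]
  obtain ⟨h1, h2, h3, -⟩ := h
  rw [Finset.card_eq_three]
  exact ⟨a, b, c, h1, h3.symm, h2, rfl⟩

end

/-- products of two 3-cycles have order 1, 2, 3 or 5 -/
lemma tri_mul_pow_aux {x y : Perm α} {a b c e f : α} (hx : Tri x a b c) (hy : Tri y a e f) :
    (x * y) ^ 30 = 1 := by
  have key : (x * y) ^ 2 = 1 ∨ (x * y) ^ 3 = 1 ∨ (x * y) ^ 5 = 1 := by
    obtain ⟨h1, h2, h3, h4, h5, h6, h7⟩ := hx
    obtain ⟨k1, k2, k3, k4, k5, k6, k7⟩ := hy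
    by_cases e1 : e = b
    · subst e1
      by_cases e2 : f = c
      · subst e2
        right; left
        ext p
        simp only [pow_succ, pow_zero, one_mul, Perm.mul_apply, Perm.one_apply]
        by_cases p1 : p = a
        · subst p1; simp [h4, h5, h6, k4, k5, k6]
        by_cases p2 : p = e
        · subst p2; simp [h4, h5, h6, k4, k5, k6]
        by_cases p3 : p = f
        · subst p3; simp [h4, h5, h6, k4, k5, k6]
        simp [h7 p p1 p2 p3, k7 p p1 p2 p3]
      · left
        have xf : x f = f := h7 f k3 k2.symm e2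
        have yc : y c = c := k7 c h3 h2.symm (Ne.symm e2)
        ext p
        simp only [pow_succ, pow_zero, one_mul, Perm.mul_apply, Perm.one_apply]
        by_cases p1 : p = a
        · subst p1; simp [h4, h5, h6, k4, k5, k6, xf, yc]
        by_cases p2 : p = e
        · subst p2; simp [h4, h5, h6, k4, k5, k6, xf, yc]
        by_cases p3 : p = f
        · subst p3; simp [h4, h5, h6, k4, k5, k6, xf, yc]
        by_cases p4 : p = c
        · subst p4; simp [h4, h5, h6, k4, k5, k6, xf, yc]
        simp [h7 p p1 p2 p4, k7 p p1 p2 p3]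
    · by_cases e2 : e = c
      · subst e2
        by_cases e3 : f = b
        · subst e3
          left
          ext p
          simp only [pow_succ, pow_zero, one_mul, Perm.mul_apply, Perm.one_apply]
          by_cases p1 : p = a
          · subst p1; simp [h4, h5, h6, k4, k5, k6]
          by_cases p2 : p = e
          · subst p2; simp [h4, h5, h6, k4, k5, k6]
          by_cases p3 : p = f
          · subst p3; simp [h4, h5, h6, k4, k5, k6]
          simp [h7 p p1 p3 p2, k7 p p1 p2 p3]
        · right; left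
          have xf : x f = f := h7 f k3 e3 k2.symm
          have yb : y b = b := k7 b h1.symm (Ne.symm e1) (Ne.symm e3)
          ext p
          simp only [pow_succ, pow_zero, one_mul, Perm.mul_apply, Perm.one_apply]
          by_cases p1 : p = a
          · subst p1; simp [h4, h5, h6, k4, k5, k6, xf, yb]
          by_cases p2 : p = e
          · subst p2; simp [h4, h5, h6, k4, k5, k6, xf, yb]
          by_cases p3 : p = f
          · subst p3; simp [h4, h5, h6, k4, k5, k6, xf, yb]
          by_cases p4 : p = b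
          · subst p4; simp [h4, h5, h6, k4, k5, k6, xf, yb]
          simp [h7 p p1 p4 p2, k7 p p1 p2 p3]
      · have xe : x e = e := h7 e k1.symm e1 e2
        by_cases e3 : f = b
        · subst e3
          right; left
          have yc : y c = c := k7 c h3 (Ne.symm e2) h2.symm
          ext p
          simp only [pow_succ, pow_zero, one_mul, Perm.mul_apply, Perm.one_apply]
          by_cases p1 : p = a
          · subst p1; simp [h4, h5, h6, k4, k5, k6, xe, yc]
          by_cases p2 : p = e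
          · subst p2; simp [h4, h5, h6, k4, k5, k6, xe, yc]
          by_cases p3 : p = f
          · subst p3; simp [h4, h5, h6, k4, k5, k6, xe, yc]
          by_cases p4 : p = c
          · subst p4; simp [h4, h5, h6, k4, k5, k6, xe, yc]
          simp [h7 p p1 p3 p4, k7 p p1 p2 p3]
        · have yb : y b = b := k7 b h1.symm (Ne.symm e1) (Ne.symm e3)
          by_cases e4 : f = c
          · subst e4
            left
            ext p
            simp only [pow_succ, pow_zero, one_mul, Perm.mul_apply, Perm.one_apply]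
            by_cases p1 : p = a
            · subst p1; simp [h4, h5, h6, k4, k5, k6, xe, yb]
            by_cases p2 : p = e
            · subst p2; simp [h4, h5, h6, k4, k5, k6, xe, yb]
            by_cases p3 : p = f
            · subst p3; simp [h4, h5, h6, k4, k5, k6, xe, yb]
            by_cases p4 : p = b
            · subst p4; simp [h4, h5, h6, k4, k5, k6, xe, yb]
            simp [h7 p p1 p4 p3, k7 p p1 p2 p3]
          · right; right
            have xf : x f = f := h7 f k3 e3 e4
            have yc : y c = c := k7 c h3 (Ne.symm e2) (Ne.symm e4)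
            ext p
            simp only [pow_succ, pow_zero, one_mul, Perm.mul_apply, Perm.one_apply]
            by_cases p1 : p = a
            · subst p1; simp [h4, h5, h6, k4, k5, k6, xe, xf, yb, yc]
            by_cases p2 : p = e
            · subst p2; simp [h4, h5, h6, k4, k5, k6, xe, xf, yb, yc]
            by_cases p3 : p = f
            · subst p3; simp [h4, h5, h6, k4, k5, k6, xe, xf, yb, yc]
            by_cases p4 : p = b
            · subst p4; simp [h4, h5, h6, k4, k5, k6, xe, xf, yb, yc]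
            by_cases p5 : p = c
            · subst p5; simp [h4, h5, h6, k4, k5, k6, xe, xf, yb, yc]
            simp [h7 p p1 p4 p5, k7 p p1 p2 p3]
  rcases key with h | h | h
  · rw [show (30 : ℕ) = 2 * 15 by norm_num, pow_mul, h, one_pow]
  · rw [show (30 : ℕ) = 3 * 10 by norm_num, pow_mul, h, one_pow]
  · rw [show (30 : ℕ) = 5 * 6 by norm_num, pow_mul, h, one_pow]

lemma tri_mul_pow {x y : Perm α} {a b c d e f : α} (hx : Tri x a b c) (hy : Tri y d e f) :
    (x * y) ^ 30 = 1 := by
  by_cases h1 : a = d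
  · subst h1; exact tri_mul_pow_aux hx hy
  by_cases h2 : a = e
  · subst h2; exact tri_mul_pow_aux hx hy.rot
  by_cases h3 : a = f
  · subst h3; exact tri_mul_pow_aux hx hy.rot.rot
  by_cases h4 : b = d
  · subst h4; exact tri_mul_pow_aux hx.rot hy
  by_cases h5 : b = e
  · subst h5; exact tri_mul_pow_aux hx.rot hy.rot
  by_cases h6 : b = f
  · subst h6; exact tri_mul_pow_aux hx.rot hy.rot.rot
  by_cases h7 : c = d
  · subst h7; exact tri_mul_pow_aux hx.rot.rot hy
  by_cases h8 : c = e
  · subst h8; exact tri_mul_pow_aux hx.rot.rot hy.rot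
  by_cases h9 : c = f
  · subst h9; exact tri_mul_pow_aux hx.rot.rot hy.rot.rot
  -- disjoint
  have hdis : Disjoint x y := by
    intro p
    by_cases p1 : p = a
    · right; subst p1; exact hy.2.2.2.2.2.2 _ h1 h2 h3
    by_cases p2 : p = b
    · right; subst p2; exact hy.2.2.2.2.2.2 _ h4 h5 h6
    by_cases p3 : p = c
    · right; subst p3; exact hy.2.2.2.2.2.2 _ h7 h8 h9
    left
    exact hx.2.2.2.2.2.2 _ p1 p2 p3
  rw [hdis.commute.mul_pow, show (30 : ℕ) = 3 * 10 by norm_num, pow_mul, pow_mul, hx.pow_three,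
    hy.pow_three]
  simp

lemma Tri.at {x : Perm α} {a b c : α} (h : Tri x a b c) {p : α} (hp : x p ≠ p) :
    Tri x p (x p) (x (x p)) := by
  by_cases e1 : p = a
  · subst e1
    have h4 := h.2.2.2.1
    have h5 := h.2.2.2.2.1
    rw [h4, h5]; exact h
  by_cases e2 : p = b
  · subst e2
    have h4 := h.2.2.2.2.1
    have h5 := h.2.2.2.2.2.1
    rw [h4, h5]; exact h.rot
  by_cases e3 : p = c
  · subst e3
    have h4 := h.2.2.2.2.2.1
    have h5 := h.2.2.2.1
    rw [h4, h5]; exact h.rot.rot
  exact absurd (h.2.2.2.2.2.2 p e1 e2 e3) hp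

lemma tri_edge_aux {x y : Perm α} {a b c d e f : α} (hx : Tri x a b c) (hy : Tri y d e f)
    (h2 : (x * y) ^ 2 = 1) (hf : x f = f) :
    ∃ p q r s, r ≠ s ∧ Tri x p q r ∧ Tri y p q s := by
  have hxyx : ∀ p, x (y (x (y p))) = p := by
    intro p
    have := congrArg (fun z : Perm α => z p) h2
    simpa [pow_succ] using this
  have h3 := hxyx e
  rw [hy.2.2.2.2.1, hf, hy.2.2.2.2.2.1] at h3
  have h4 : x d ≠ d := by rw [h3]; exact hy.1.symm
  have h5 := hx.at h4
  rw [h3] at h5
  refine ⟨d, e, x e, f, ?_, h5, hy⟩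
  intro h6
  rw [← hf] at h6
  exact hy.2.1 (x.injective h6)

/-- a common directed edge -/
lemma tri_edge {x y : Perm α} {a b c d e f : α} (hx : Tri x a b c) (hy : Tri y d e f)
    (h2 : (x * y) ^ 2 = 1) (h1 : x * y ≠ 1) :
    ∃ p q r s, r ≠ s ∧ Tri x p q r ∧ Tri y p q s := by
  by_cases e1 : x f = f
  · exact tri_edge_aux hx hy h2 e1
  by_cases e2 : x d = d
  · exact tri_edge_aux hx hy.rot h2 e2
  by_cases e3 : x e = e
  · exact tri_edge_aux hx hy.rot.rot h2 e3
  exfalso
  have h5 := hx.at e2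
  have he : e = x d ∨ e = x (x d) := by
    by_contra hcon
    push Not at hcon
    exact e3 (h5.2.2.2.2.2.2 e hy.1.symm hcon.1 hcon.2)
  have hf : f = x d ∨ f = x (x d) := by
    by_contra hcon
    push Not at hcon
    exact e1 (h5.2.2.2.2.2.2 f hy.2.2.1 hcon.1 hcon.2)
  have hef := hy.2.1
  rcases he with he | he
  · rcases hf with hf | hf
    · exact hef (he.trans hf.symm)
    · rw [← hf, ← he] at h5
      have := h5.ext hy
      subst this
      apply hx.ne_one
      have h3 := hx.pow_three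
      calc x = x * x ^ 3 := by rw [h3, mul_one]
        _ = (x * x) ^ 2 := by simp only [pow_succ, pow_zero, one_mul, mul_assoc]
        _ = 1 := h2
  · rcases hf with hf | hf
    · rw [← hf] at h5
      rw [← hf] at he
      rw [← he] at h5
      have := h5.ext hy.inv
      apply h1
      rw [this]
      simp
    · exact hef (he.trans hf.symm)

lemma Tri.cases {x : Perm α} {p q r : α} (h : Tri x p q r) {a : α} (ha : x a ≠ a) :
    a = p ∨ a = q ∨ a = r := by
  by_contra hcon
  push Not at hcon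
  exact ha (h.2.2.2.2.2.2 a hcon.1 hcon.2.1 hcon.2.2)

/-- three pairwise adjacent 3-cycles have a common directed edge -/
lemma tri_clique {x y z : Perm α} {p q r s : α} (hx : Tri x p q r) (hy : Tri y p q s) (hrs : r ≠ s)
    {a b c d : α} (hz : Tri z a b c) (hxz : Tri x a b d) {a' b' c' d' : α} (hz' : Tri z a' b' c')
    (hyz : Tri y a' b' d') : z p = q := by
  have xa : x a = b := hxz.2.2.2.1
  have ya : y a' = b' := hyz.2.2.2.1
  have za : z a = b := hz.2.2.2.1
  have za' : z a' = b' := hz'.2.2.2.1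
  have ab : a ≠ b := hxz.1
  have ab' : a' ≠ b' := hyz.1
  have c1 := hx.cases (a := a) (by rw [xa]; exact ab.symm)
  have c2 := hy.cases (a := a') (by rw [ya]; exact ab'.symm)
  obtain ⟨h1, h2, h3, h4, h5, h6, -⟩ := hx
  obtain ⟨k1, k2, k3, k4, k5, k6, -⟩ := hy
  rcases c1 with rfl | rfl | rfl
  · rw [za, ← xa, h4]
  · -- z q = r
    have zq : z a = r := by rw [za, ← xa, h5]
    rcases c2 with rfl | rfl | rfl
    · rw [za', ← ya, k4]
    · exfalso
      have : z a' = s := by rw [za', ← ya, k5]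
      exact hrs (zq.symm.trans this)
    · exfalso
      have zs : z a' = p := by rw [za', ← ya, k6]
      have hz1 := hz.at (p := a) (by rw [zq]; exact h2.symm)
      rw [zq] at hz1
      have := hz1.cases (a := a') (by rw [zs]; exact k3.symm)
      rcases this with e | e | e
      · exact k2 e.symm
      · exact hrs e.symm
      · have h8 := hz1.2.2.2.2.2.1
        rw [← e, zs] at h8
        exact h1 h8
  · have zr : z a = p := by rw [za, ← xa, h6]
    rcases c2 with rfl | rfl | rfl
    · rw [za', ← ya, k4]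
    · have zq : z a' = s := by rw [za', ← ya, k5]
      have hz1 := hz.at (p := a) (by rw [zr]; exact h3.symm)
      rw [zr] at hz1
      have := hz1.cases (a := a') (by rw [zq]; exact k2.symm)
      rcases this with e | e | e
      · exact absurd e h2
      · exact absurd e.symm k1
      · exact e.symm
    · exfalso
      have zs : z a' = p := by rw [za', ← ya, k6]
      exact hrs (z.injective (zr.trans zs.symm))

/-- the forbidden product for elements of order 3 with at least two cycles and 7 points -/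
lemma big_aux [DecidableEq α] {x : Perm α} (hx : ∀ p, x (x (x p)) = p) {a b c : α} (ha : x a ≠ a)
    (hb : x b ≠ b) (hba : b ≠ a) (hba1 : b ≠ x a) (hba2 : b ≠ x (x a)) (hca : c ≠ a) (hca1 : c ≠ x a)
    (hca2 : c ≠ x (x a)) (hcb : c ≠ b) (hcb1 : c ≠ x b) (hcb2 : c ≠ x (x b)) :
    (x * ((swap (x (x a)) b * swap (x (x b)) c) * x * (swap (x (x a)) b * swap (x (x b)) c)⁻¹)) ^ 30
      ≠ 1 := by
  have hinj : ∀ p q, x p = x q → p = q := fun p q h => x.injective h
  -- orbits
  have a12 : a ≠ x a := ha.symm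
  have a23 : x a ≠ x (x a) := fun e => ha (hinj _ _ e).symm
  have a13 : a ≠ x (x a) := by
    intro e
    apply ha
    have := congrArg x e
    rwa [hx] at this
  have b12 : b ≠ x b := hb.symm
  have b23 : x b ≠ x (x b) := fun e => hb (hinj _ _ e).symm
  have b13 : b ≠ x (x b) := by
    intro e
    apply hb
    have := congrArg x e
    rwa [hx] at this
  have key : ∀ p q, q ≠ p → q ≠ x p → q ≠ x (x p) →
      x q ≠ p ∧ x q ≠ x p ∧ x q ≠ x (x p) ∧ x (x q) ≠ p ∧ x (x q) ≠ x p ∧ x (x q) ≠ x (x p) := by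
    intro p q h1 h2 h3
    refine ⟨?_, fun e => h1 (hinj _ _ e), fun e => h2 (hinj _ _ e), ?_, ?_,
      fun e => h1 (hinj _ _ (hinj _ _ e))⟩
    · intro e
      apply h3
      rw [← e, hx]
    · intro e
      apply h2
      rw [← e, hx]
    · intro e
      apply h3
      have := hinj _ _ e
      rw [← this, hx]
  obtain ⟨ba1, ba2, ba3, ba4, ba5, ba6⟩ := key a b hba hba1 hba2
  obtain ⟨ca1, ca2, ca3, ca4, ca5, ca6⟩ := key a c hca hca1 hca2
  obtain ⟨cb1, cb2, cb3, cb4, cb5, cb6⟩ := key b c hcb hcb1 hcb2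
  generalize hτ : swap (x (x a)) b * swap (x (x b)) c = τ
  have t1 : τ a = a := by
    rw [← hτ, Perm.mul_apply, swap_apply_of_ne_of_ne (Ne.symm ba4) (Ne.symm hca),
      swap_apply_of_ne_of_ne a13 (Ne.symm hba)]
  have t2 : τ (x a) = x a := by
    rw [← hτ, Perm.mul_apply, swap_apply_of_ne_of_ne (Ne.symm ba5) (Ne.symm hca1),
      swap_apply_of_ne_of_ne a23 (Ne.symm hba1)]
  have t3 : τ (x (x a)) = b := by
    rw [← hτ, Perm.mul_apply, swap_apply_of_ne_of_ne (Ne.symm ba6) (Ne.symm hca2),
      swap_apply_left]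
  have t4 : τ b = x (x a) := by
    rw [← hτ, Perm.mul_apply, swap_apply_of_ne_of_ne b13 (Ne.symm hcb),
      swap_apply_right]
  have t5 : τ (x b) = x b := by
    rw [← hτ, Perm.mul_apply, swap_apply_of_ne_of_ne b23 (Ne.symm hcb1),
      swap_apply_of_ne_of_ne ba3 hb]
  have t6 : τ (x (x b)) = c := by
    rw [← hτ, Perm.mul_apply, swap_apply_left,
      swap_apply_of_ne_of_ne hca2 hcb]
  have t7 : τ c = x (x b) := by
    rw [← hτ, Perm.mul_apply, swap_apply_right,
      swap_apply_of_ne_of_ne ba6 (Ne.symm b13)]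
  generalize hy : τ * x * τ⁻¹ = y
  have hyτ : ∀ p, y (τ p) = τ (x p) := by
    intro p
    rw [← hy]
    simp
  have y1 : y a = x a := by
    have := hyτ a; rwa [t1, t2] at this
  have y2 : y (x a) = b := by
    have := hyτ (x a); rwa [t2, t3] at this
  have y4 : y b = a := by
    have := hyτ (x (x a)); rwa [t3, hx, t1] at this
  have y3 : y (x (x a)) = x b := by
    have := hyτ b; rwa [t4, t5] at this
  have y5 : y (x b) = c := by
    have := hyτ (x b); rwa [t5, t6] at this
  have y7 : y c = x (x a) := by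
    have := hyτ (x (x b)); rwa [t6, hx, t4] at this
  have y6 : y (x (x b)) = τ (x c) := by
    have := hyτ c; rwa [t7] at this
  have z1 : (x * y) a = x (x a) := by rw [Perm.mul_apply, y1]
  have z3 : (x * y) (x (x a)) = x (x b) := by rw [Perm.mul_apply, y3]
  have z4 : (x * y) b = x a := by rw [Perm.mul_apply, y4]
  have z2 : (x * y) (x a) = x b := by rw [Perm.mul_apply, y2]
  have z7 : (x * y) c = a := by rw [Perm.mul_apply, y7, hx]
  intro h30
  by_cases hc : x c = c
  · have z6 : (x * y) (x (x b)) = b := by rw [Perm.mul_apply, y6, hc, t7, hx]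
    have z5 : (x * y) (x b) = c := by rw [Perm.mul_apply, y5, hc]
    have h7 : ((x * y) ^ 7) a = a := by
      simp only [pow_succ, pow_zero, one_mul, Perm.mul_apply (_ * _) (x * y), z1, z3, z6, z4, z2, z5, z7]
    have h28 : ((x * y) ^ 28) a = a := by
      rw [show 28 = 7 * 4 by norm_num, pow_mul]
      exact pow_apply_eq_self_of_apply_eq_self h7 4
    have h30' : ((x * y) ^ 30) a = x (x b) := by
      rw [show 30 = 2 + 28 by norm_num, pow_add, Perm.mul_apply, h28, pow_two, Perm.mul_apply, z1, z3]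
    rw [h30] at h30'
    exact ba4 h30'.symm
  · have c12 : c ≠ x c := fun e => hc e.symm
    have c23 : x c ≠ x (x c) := fun e => hc (hinj _ _ e).symm
    have c13 : c ≠ x (x c) := by
      intro e
      apply hc
      have := congrArg x e
      rwa [hx] at this
    have t8 : τ (x c) = x c := by
      rw [← hτ, Perm.mul_apply, swap_apply_of_ne_of_ne cb3 hc,
        swap_apply_of_ne_of_ne ca3 cb1]
    have t9 : τ (x (x c)) = x (x c) := by
      rw [← hτ, Perm.mul_apply, swap_apply_of_ne_of_ne cb6 (Ne.symm c13),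
        swap_apply_of_ne_of_ne ca6 cb4]
    have z6 : (x * y) (x (x b)) = x (x c) := by rw [Perm.mul_apply, y6, t8]
    have y9 : y (x (x c)) = x (x b) := by
      have := hyτ (x (x c)); rwa [t9, hx, t7] at this
    have z9 : (x * y) (x (x c)) = b := by rw [Perm.mul_apply, y9, hx]
    have z5 : (x * y) (x b) = x c := by rw [Perm.mul_apply, y5]
    have y8 : y (x c) = x (x c) := by
      have := hyτ (x c); rwa [t8, t9] at this
    have z8 : (x * y) (x c) = c := by rw [Perm.mul_apply, y8, hx]
    have h9 : ((x * y) ^ 9) a = a := by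
      simp only [pow_succ, pow_zero, one_mul, Perm.mul_apply (_ * _) (x * y), z1, z3, z6, z9, z4, z2,
        z5, z8, z7]
    have h27 : ((x * y) ^ 27) a = a := by
      rw [show 27 = 9 * 3 by norm_num, pow_mul]
      exact pow_apply_eq_self_of_apply_eq_self h9 3
    have h30' : ((x * y) ^ 30) a = x (x c) := by
      rw [show 30 = 3 + 27 by norm_num, pow_add, Perm.mul_apply, h27]
      simp only [pow_succ, pow_zero, one_mul, Perm.mul_apply (_ * _) (x * y), z1, z3, z6]
    rw [h30] at h30'
    exact ca4 h30'.symm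


section

variable [Fintype α] [DecidableEq α]

/-- elements of order 3 that are not 3-cycles -/
lemma big {x : Perm α} (h3 : x ^ 3 = 1) (h1 : x ≠ 1) (h : ¬ IsThreeCycle x)
    (hcard : 7 ≤ Fintype.card α ∨ Fintype.card α ≤ 5) :
    ∃ g ∈ alternatingGroup α, (x * (g * x * g⁻¹)) ^ 30 ≠ 1 := by
  have hx : ∀ p, x (x (x p)) = p := by
    intro p
    have := congrArg (fun z : Perm α => z p) h3
    simpa [pow_succ] using this
  have hinj : ∀ p q, x p = x q → p = q := fun p q h => x.injective h
  obtain ⟨a, ha⟩ : ∃ a, x a ≠ a := by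
    by_contra hcon
    push Not at hcon
    exact h1 (Equiv.ext hcon)
  have a23 : x a ≠ x (x a) := fun e => ha (hinj _ _ e).symm
  have a13 : a ≠ x (x a) := by
    intro e
    apply ha
    have := congrArg x e
    rwa [hx] at this
  obtain ⟨b, hb, hba, hba1, hba2⟩ : ∃ b, x b ≠ b ∧ b ≠ a ∧ b ≠ x a ∧ b ≠ x (x a) := by
    by_contra hcon
    push Not at hcon
    apply h
    apply Tri.isThreeCycle (a := a) (b := x a) (c := x (x a))
    refine ⟨ha.symm, a23, a13.symm, rfl, rfl, hx a, ?_⟩
    intro p p1 p2 p3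
    by_contra hp
    exact p3 (hcon p hp p1 p2)
  have b23 : x b ≠ x (x b) := fun e => hb (hinj _ _ e).symm
  have b13 : b ≠ x (x b) := by
    intro e
    apply hb
    have := congrArg x e
    rwa [hx] at this
  have hb1 : x b ≠ a := by
    intro e; apply hba2; rw [← e, hx]
  have hb2 : x (x b) ≠ a := by
    intro e; apply hba1; rw [← e, hx]
  have hb3 : x (x b) ≠ x a := by
    intro e
    exact hb1 (hinj _ _ e)
  set S : Finset α := {a, x a, x (x a), b, x b, x (x b)} with hS
  have hScard : S.card = 6 := by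
    rw [hS, Finset.card_insert_of_notMem, Finset.card_insert_of_notMem,
      Finset.card_insert_of_notMem, Finset.card_insert_of_notMem, Finset.card_insert_of_notMem,
      Finset.card_singleton]
    · simpa using b23
    · simp only [Finset.mem_insert, Finset.mem_singleton, not_or]
      exact ⟨hb.symm, b13⟩
    · simp only [Finset.mem_insert, Finset.mem_singleton, not_or]
      exact ⟨hba2.symm, fun e => hba1 (hinj _ _ e).symm, fun e => hba (hinj _ _ (hinj _ _ e)).symm⟩
    · simp only [Finset.mem_insert, Finset.mem_singleton, not_or]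
      exact ⟨a23, hba1.symm, fun e => hba (hinj _ _ e).symm, hb3.symm⟩
    · simp only [Finset.mem_insert, Finset.mem_singleton, not_or]
      exact ⟨ha.symm, a13, hba.symm, hb1.symm, hb2.symm⟩
  have hcard7 : 7 ≤ Fintype.card α := by
    rcases hcard with h | h
    · exact h
    · have := Finset.card_le_univ S
      omega
  obtain ⟨c, hc⟩ : ∃ c, c ∉ S := by
    by_contra hcon
    push Not at hcon
    have := Finset.card_le_card (fun p _ => hcon p : (Finset.univ : Finset α) ⊆ S)
    rw [Finset.card_univ] at this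
    omega
  simp only [hS, Finset.mem_insert, Finset.mem_singleton, not_or] at hc
  obtain ⟨c1, c2, c3, c4, c5, c6⟩ := hc
  refine ⟨swap (x (x a)) b * swap (x (x b)) c, ?_, big_aux hx ha hb hba hba1 hba2 c1 c2 c3 c4 c5 c6⟩
  rw [mem_alternatingGroup, Perm.sign_mul, sign_swap hba2.symm, sign_swap (Ne.symm c6)]
  rfl

variable (φ : alternatingGroup α ≃* alternatingGroup α)

lemma aut_threeCycle (hcard : 7 ≤ Fintype.card α ∨ Fintype.card α ≤ 5) {x : alternatingGroup α}
    (hx : IsThreeCycle (x : Perm α)) : IsThreeCycle (φ x : Perm α) := by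
  have hx3 : x ^ 3 = 1 := by
    apply Subtype.ext
    have := hx.orderOf
    rw [Subgroup.coe_pow, ← this, pow_orderOf_eq_one]
    rfl
  by_contra hcon
  obtain ⟨g, hg, h30⟩ := big (x := (φ x : Perm α)) (by
    rw [← Subgroup.coe_pow, ← map_pow, hx3, map_one]; rfl) (by
    intro h1
    have : φ x = 1 := Subtype.ext h1
    rw [map_eq_one_iff φ φ.injective] at this
    rw [this] at hx
    exact hx.ne_one rfl) hcon hcard
  apply h30
  obtain ⟨g', hg'⟩ := φ.surjective ⟨g, hg⟩
  have e1 : (x * (g' * x * g'⁻¹)) ^ 30 = 1 := by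
    obtain ⟨a, ha⟩ : ∃ a, (x : Perm α) a ≠ a := by
      by_contra hcon
      push Not at hcon
      exact hx.ne_one (Equiv.ext hcon)
    have t1 := tri_of_isThreeCycle hx ha
    have t2 := t1.conj (g' : Perm α)
    apply Subtype.ext
    have := tri_mul_pow t1 t2
    simpa using this
  have e2 := congrArg (fun z => ((φ z : alternatingGroup α) : Perm α)) e1
  simp only [map_pow, map_mul, map_inv, map_one, hg', Subgroup.coe_pow, Subgroup.coe_mul,
    Subgroup.coe_inv, Subgroup.coe_one] at e2
  exact e2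

/-- closure of the cycles `p → q → i → p` -/
lemma mem_of_base {p q : α} (hpq : p ≠ q) (H : Subgroup (Perm α))
    (hH : ∀ i, i ≠ p → i ≠ q → cyc p q i ∈ H) {x : Perm α} {a b c : α} (hx : Tri x a b c) : x ∈ H := by
  have T : ∀ i, i ≠ p → i ≠ q → Tri (cyc p q i) p q i := fun i h1 h2 => tri_cyc hpq h2.symm h1
  -- (4)
  have H4 : ∀ {y : Perm α} {a : α}, Tri y p q a → y ∈ H := by
    intro y a hy
    have := hy.ext (T a hy.2.2.1 hy.2.1.symm)
    rw [this]
    exact hH a hy.2.2.1 hy.2.1.symm
  have H5 : ∀ {y : Perm α} {a : α}, Tri y q p a → y ∈ H := by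
    intro y a hy
    have h1 : Tri y⁻¹ p q a := hy.inv.rot.rot
    have := H4 h1
    exact (Subgroup.inv_mem_iff H).1 this
  have H2 : ∀ {y : Perm α} {a b : α}, a ≠ q → b ≠ q → Tri y p a b → y ∈ H := by
    intro y a b haq hbq hy
    have hap : a ≠ p := hy.1.symm
    have hbp : b ≠ p := hy.2.2.1
    have hab : a ≠ b := hy.2.1
    have hA := (T a hap haq).inv
    have hB := T b hbp hbq
    have : y = cyc p q b * (cyc p q a)⁻¹ := by
      refine hy.ext ?_
      obtain ⟨-, -, -, A1, A2, A3, A4⟩ := hA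
      obtain ⟨-, -, -, B1, B2, B3, B4⟩ := hB
      refine ⟨hy.1, hy.2.1, hy.2.2.1, ?_, ?_, ?_, ?_⟩
      · rw [Perm.mul_apply, A1, B4 a hap haq hab]
      · rw [Perm.mul_apply, A2, B2]
      · rw [Perm.mul_apply, A4 b hbp hab.symm hbq, B3]
      · intro r r1 r2 r3
        by_cases r4 : r = q
        · rw [r4, Perm.mul_apply, A3, B1]
        · rw [Perm.mul_apply, A4 r r1 r2 r4, B4 r r1 r4 r3]
    rw [this]
    exact H.mul_mem (hH b hbp hbq) (H.inv_mem (hH a hap haq))
  have H3 : ∀ {y : Perm α} {a b : α}, a ≠ p → b ≠ p → Tri y q a b → y ∈ H := by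
    intro y a b hap hbp hy
    have haq : a ≠ q := hy.1.symm
    have hbq : b ≠ q := hy.2.2.1
    have hab : a ≠ b := hy.2.1
    have hA := T a hap haq
    have hB := (T b hbp hbq).inv
    have : y = (cyc p q b)⁻¹ * cyc p q a := by
      refine hy.ext ?_
      obtain ⟨-, -, -, A1, A2, A3, A4⟩ := hA
      obtain ⟨-, -, -, B1, B2, B3, B4⟩ := hB
      refine ⟨hy.1, hy.2.1, hy.2.2.1, ?_, ?_, ?_, ?_⟩
      · rw [Perm.mul_apply, A2, B4 a hap hab haq]
      · rw [Perm.mul_apply, A3, B1]
      · rw [Perm.mul_apply, A4 b hbp hbq hab.symm, B2]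
      · intro r r1 r2 r3
        by_cases r4 : r = p
        · rw [r4, Perm.mul_apply, A1, B3]
        · rw [Perm.mul_apply, A4 r r4 r1 r2, B4 r r4 r3 r1]
    rw [this]
    exact H.mul_mem (H.inv_mem (hH b hbp hbq)) (hH a hap haq)
  have H1 : ∀ {y : Perm α} {a b c : α}, a ≠ p → a ≠ q → b ≠ p → b ≠ q → c ≠ p → c ≠ q →
      Tri y a b c → y ∈ H := by
    intro y a b c hap haq hbp hbq hcp hcq hy
    obtain ⟨hab, hbc, hca, -⟩ := id hy
    have hA := T a hap haq
    have hA' := (T a hap haq).inv
    have hB := (T b hbp hbq).inv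
    have hC := T c hcp hcq
    have : y = (cyc p q a)⁻¹ * cyc p q c * (cyc p q b)⁻¹ * cyc p q a := by
      refine hy.ext ?_
      obtain ⟨-, -, -, A1, A2, A3, A4⟩ := hA
      obtain ⟨-, -, -, D1, D2, D3, D4⟩ := hA'
      obtain ⟨-, -, -, B1, B2, B3, B4⟩ := hB
      obtain ⟨-, -, -, C1, C2, C3, C4⟩ := hC
      refine ⟨hab, hbc, hca, ?_, ?_, ?_, ?_⟩
      · rw [Perm.mul_apply, Perm.mul_apply, Perm.mul_apply, A3, B1, C4 b hbp hbq hbc,
          D4 b hbp hab.symm hbq]
      · rw [Perm.mul_apply, Perm.mul_apply, Perm.mul_apply, A4 b hbp hbq hab.symm, B2, C2,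
          D4 c hcp hca hcq]
      · rw [Perm.mul_apply, Perm.mul_apply, Perm.mul_apply, A4 c hcp hcq hca,
          B4 c hcp hbc.symm hcq, C3, D1]
      · intro r r1 r2 r3
        rw [Perm.mul_apply, Perm.mul_apply, Perm.mul_apply]
        by_cases r4 : r = p
        · rw [r4, A1, B3, C1, D3]
        by_cases r5 : r = q
        · rw [r5, A2, B4 a hap hab haq, C4 a hap haq hca.symm, D2]
        rw [A4 r r4 r5 r1, B4 r r4 r2 r5, C4 r r4 r5 r3, D4 r r4 r1 r5]
    rw [this]
    exact H.mul_mem (H.mul_mem (H.mul_mem (H.inv_mem (hH a hap haq)) (hH c hcp hcq))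
      (H.inv_mem (hH b hbp hbq))) (hH a hap haq)
  by_cases ap : a = p
  · subst ap
    by_cases bq : b = q
    · subst bq; exact H4 hx
    by_cases cq : c = q
    · subst cq; exact H5 hx.rot.rot
    exact H2 bq cq hx
  by_cases aq : a = q
  · subst aq
    by_cases bp : b = p
    · subst bp; exact H5 hx
    by_cases cp : c = p
    · subst cp; exact H4 hx.rot.rot
    exact H3 bp cp hx
  by_cases bp : b = p
  · subst bp
    by_cases cq : c = q
    · subst cq; exact H4 hx.rot
    exact H2 cq aq hx.rot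
  by_cases bq : b = q
  · subst bq
    by_cases cp : c = p
    · subst cp; exact H5 hx.rot
    exact H3 cp ap hx.rot
  by_cases cp : c = p
  · subst cp; exact H2 aq bq hx.rot.rot
  by_cases cq : c = q
  · subst cq; exact H3 ap bp hx.rot.rot
  exact H1 ap aq bp bq cp cq hx

lemma cyc_mem_alt {a b c : α} (h1 : a ≠ b) (h2 : b ≠ c) (h3 : c ≠ a) :
    cyc a b c ∈ alternatingGroup α :=
  ((tri_cyc h1 h2 h3).isThreeCycle).mem_alternatingGroup

/-- every automorphism of the alternating group (degree at least 5 and not 6) is the conjugation by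
a permutation -/
theorem aut_alt (h5 : 5 ≤ Fintype.card α) (h6 : Fintype.card α ≠ 6) :
    ∃ σ : Perm α, ∀ x : alternatingGroup α, (φ x : Perm α) = σ * x * σ⁻¹ := by
  have hcard : 7 ≤ Fintype.card α ∨ Fintype.card α ≤ 5 := by omega
  obtain ⟨p, q, hpq⟩ : ∃ p q : α, p ≠ q := Fintype.exists_pair_of_one_lt_card (by omega)
  obtain ⟨i0, hi0⟩ : ∃ i, i ∉ ({p, q} : Finset α) := by
    by_contra hcon
    push Not at hcon
    have := Finset.card_le_card (fun p _ => hcon p : (Finset.univ : Finset α) ⊆ {p, q})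
    rw [Finset.card_univ] at this
    have := this.trans Finset.card_le_two
    omega
  obtain ⟨i1, hi1⟩ : ∃ i, i ∉ ({p, q, i0} : Finset α) := by
    by_contra hcon
    push Not at hcon
    have := Finset.card_le_card (fun p _ => hcon p : (Finset.univ : Finset α) ⊆ {p, q, i0})
    rw [Finset.card_univ] at this
    have := this.trans Finset.card_le_three
    omega
  simp only [Finset.mem_insert, Finset.mem_singleton, not_or] at hi0 hi1
  let I := {i : α // i ≠ p ∧ i ≠ q}
  let X : I → alternatingGroup α := fun i => ⟨cyc p q i, cyc_mem_alt hpq i.2.2.symm i.2.1⟩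
  let Y : I → Perm α := fun i => (φ (X i) : Perm α)
  have hXT : ∀ i : I, Tri (X i : Perm α) p q i := fun i => tri_cyc hpq i.2.2.symm i.2.1
  have hY3 : ∀ i, IsThreeCycle (Y i) := fun i => aut_threeCycle φ hcard (hXT i).isThreeCycle
  have hYT : ∀ i, ∃ a b c, Tri (Y i) a b c := by
    intro i
    obtain ⟨a, ha⟩ : ∃ a, Y i a ≠ a := by
      by_contra hcon
      push Not at hcon
      exact (hY3 i).ne_one (Equiv.ext hcon)
    exact ⟨a, _, _, tri_of_isThreeCycle (hY3 i) ha⟩
  have hX2 : ∀ i j : I, i ≠ j → (X i * X j) ^ 2 = 1 ∧ X i * X j ≠ 1 := by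
    intro i j hij
    obtain ⟨-, -, -, A1, A2, A3, A4⟩ := hXT i
    obtain ⟨-, -, -, B1, B2, B3, B4⟩ := hXT j
    have hij' : (i : α) ≠ j := fun e => hij (Subtype.ext e)
    have hi := i.2
    have hj := j.2
    have xj := A4 j hj.1 hj.2 hij'.symm
    have yi := B4 i hi.1 hi.2 hij'
    constructor
    · apply Subtype.ext
      apply Equiv.ext
      intro r
      simp only [Subgroup.coe_pow, Subgroup.coe_mul, Subgroup.coe_one, Perm.one_apply, pow_two,
        Perm.mul_apply]
      by_cases r1 : r = p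
      · rw [r1, B1, A2, yi, A3]
      by_cases r2 : r = q
      · rw [r2, B2, xj, B3, A1]
      by_cases r3 : r = i
      · rw [r3, yi, A3, B1, A2]
      by_cases r4 : r = j
      · rw [r4, B3, A1, B2, xj]
      rw [B4 r r1 r2 r4, A4 r r1 r2 r3, B4 r r1 r2 r4, A4 r r1 r2 r3]
    · intro h
      have := congrArg (fun z : alternatingGroup α => (z : Perm α) p) h
      simp only [Subgroup.coe_mul, Subgroup.coe_one, Perm.one_apply, Perm.mul_apply] at this
      rw [B1, A2] at this
      exact hi.1 this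
  have hY2 : ∀ i j : I, i ≠ j → (Y i * Y j) ^ 2 = 1 ∧ Y i * Y j ≠ 1 := by
    intro i j hij
    obtain ⟨h1, h2⟩ := hX2 i j hij
    constructor
    · have := congrArg (fun z => ((φ z : alternatingGroup α) : Perm α)) h1
      simpa using this
    · intro h
      apply h2
      have h3 : φ (X i * X j) = 1 := by
        rw [map_mul]
        exact Subtype.ext h
      rwa [map_eq_one_iff φ φ.injective] at h3
  let j0 : I := ⟨i0, hi0⟩
  let j1 : I := ⟨i1, hi1.1, hi1.2.1⟩
  have hj01 : j0 ≠ j1 := fun e => hi1.2.2 (congrArg Subtype.val e).symm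
  have hedge : ∀ i j : I, i ≠ j → ∃ a b r s, r ≠ s ∧ Tri (Y i) a b r ∧ Tri (Y j) a b s := by
    intro i j hij
    obtain ⟨a, b, c, h1⟩ := hYT i
    obtain ⟨a', b', c', h2⟩ := hYT j
    exact tri_edge h1 h2 (hY2 i j hij).1 (hY2 i j hij).2
  obtain ⟨a, b, r, s, hrs, hT0, hT1⟩ := hedge j0 j1 hj01
  have hab : a ≠ b := hT0.1
  have hall : ∀ k : I, Y k a = b := by
    intro k
    by_cases k0 : k = j0
    · rw [k0]; exact hT0.2.2.2.1
    by_cases k1 : k = j1
    · rw [k1]; exact hT1.2.2.2.1
    obtain ⟨a1, b1, c1, d1, -, e1, e2⟩ := hedge k j0 k0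
    obtain ⟨a2, b2, c2, d2, -, e3, e4⟩ := hedge k j1 k1
    exact tri_clique hT0 hT1 hrs e1 e2 e3 e4
  have hTall : ∀ k : I, Tri (Y k) a b (Y k b) := by
    intro k
    obtain ⟨a1, b1, c1, h⟩ := hYT k
    have := h.at (p := a) (by rw [hall k]; exact hab.symm)
    rwa [hall k] at this
  let f : α → α := fun i => if h : i ≠ p ∧ i ≠ q then Y ⟨i, h⟩ b else if i = p then a else b
  have fp : f p = a := by simp [f]
  have fq : f q = b := by simp [f, hpq.symm]
  have fi : ∀ k : I, f k = Y k b := by
    intro k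
    have : (k : α) ≠ p ∧ (k : α) ≠ q := k.2
    simp only [f]
    rw [dif_pos this]
  have finj : Function.Injective f := by
    have hcase : ∀ i, i = p ∨ i = q ∨ ∃ k : I, (k : α) = i := by
      intro i
      by_cases h1 : i = p
      · exact Or.inl h1
      by_cases h2 : i = q
      · exact Or.inr (Or.inl h2)
      exact Or.inr (Or.inr ⟨⟨i, h1, h2⟩, rfl⟩)
    intro i j hij
    rcases hcase i with hi | hi | ⟨k, hi⟩ <;> rcases hcase j with hj | hj | ⟨l, hj⟩
    · rw [hi, hj]
    · rw [hi, hj, fp, fq] at hij; exact absurd hij hab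
    · rw [hi, ← hj, fp, fi] at hij; exact absurd hij.symm (hTall l).2.2.1
    · rw [hi, hj, fp, fq] at hij; exact absurd hij.symm hab
    · rw [hi, hj]
    · rw [hi, ← hj, fq, fi] at hij; exact absurd hij (hTall l).2.1
    · rw [hj, ← hi, fp, fi] at hij; exact absurd hij (hTall k).2.2.1
    · rw [hj, ← hi, fq, fi] at hij; exact absurd hij.symm (hTall k).2.1
    · rw [← hi, ← hj, fi, fi] at hij
      have h1 := hTall k
      rw [hij] at h1
      have h2 := h1.ext (hTall l)
      have h3 : X k = X l := φ.injective (Subtype.ext h2)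
      have h4 : (k : α) = l := by
        have h5 := (hXT k).2.2.2.2.1
        rw [h3, (hXT l).2.2.2.2.1] at h5
        exact h5.symm
      rw [← hi, ← hj, h4]
  let σ : Perm α := Equiv.ofBijective f (Finite.injective_iff_bijective.1 finj)
  have σp : σ p = a := fp
  have σq : σ q = b := fq
  have σi : ∀ k : I, σ k = Y k b := fi
  have hconj : ∀ k : I, (φ (X k) : Perm α) = σ * X k * σ⁻¹ := by
    intro k
    have h1 := (hXT k).conj σ
    rw [σp, σq, σi] at h1
    exact (hTall k).ext h1
  refine ⟨σ, ?_⟩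
  let f1 : alternatingGroup α →* Perm α := (alternatingGroup α).subtype.comp φ.toMonoidHom
  let f2 : alternatingGroup α →* Perm α :=
    (MulAut.conj σ).toMonoidHom.comp (alternatingGroup α).subtype
  let H : Subgroup (Perm α) := (f1.eqLocus f2).map (alternatingGroup α).subtype
  have hHX : ∀ i, i ≠ p → i ≠ q → cyc p q i ∈ H := by
    intro i h1 h2
    refine ⟨X ⟨i, h1, h2⟩, ?_, rfl⟩
    exact hconj ⟨i, h1, h2⟩
  have hH3 : ∀ x : Perm α, IsThreeCycle x → x ∈ H := by
    intro x hx
    obtain ⟨c, hc⟩ : ∃ a, x a ≠ a := by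
      by_contra hcon
      push Not at hcon
      exact hx.ne_one (Equiv.ext hcon)
    exact mem_of_base hpq H hHX (tri_of_isThreeCycle hx hc)
  intro x
  have hxH : (x : Perm α) ∈ H := by
    have h1 : (x : Perm α) ∈ Subgroup.closure {σ : Perm α | IsThreeCycle σ} := by
      rw [closure_three_cycles_eq_alternating]
      exact x.2
    exact (Subgroup.closure_le H).2 hH3 h1
  obtain ⟨x', hx', hxx⟩ := hxH
  have : x' = x := Subtype.ext hxx
  rw [this] at hx'
  exact hx'

end


section AutPi

variable {A : Type*} [Group A] {κ : Type*} [DecidableEq κ]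

omit [DecidableEq κ] in
lemma comm_center (hc : Subgroup.center A = ⊥) {a : A} (h : ∀ g, g * a = a * g) : a = 1 := by
  have : a ∈ Subgroup.center A := Subgroup.mem_center_iff.2 h
  rw [hc] at this
  exact Subgroup.mem_bot.1 this

lemma single_mem [IsSimpleGroup A] (hc : Subgroup.center A = ⊥) {N : Subgroup (κ → A)} (hN : N.Normal)
    {x : κ → A} (hx : x ∈ N) {j : κ} (hj : x j ≠ 1) (g : A) : Pi.mulSingle j g ∈ N := by
  obtain ⟨h, hh⟩ : ∃ h, h * x j ≠ x j * h := by
    by_contra hcon
    push Not at hcon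
    exact hj (comm_center hc hcon)
  let K : Subgroup A := N.comap (MonoidHom.mulSingle (fun _ : κ => A) j)
  have hK : K.Normal := hN.comap _
  have hmem : x j * h * (x j)⁻¹ * h⁻¹ ∈ K := by
    change Pi.mulSingle j (x j * h * (x j)⁻¹ * h⁻¹) ∈ N
    have e : (Pi.mulSingle j (x j * h * (x j)⁻¹ * h⁻¹) : κ → A) =
        x * (Pi.mulSingle j h * x⁻¹ * (Pi.mulSingle j h)⁻¹) := by
      funext i
      by_cases hi : i = j
      · subst hi
        simp [mul_assoc]
      · simp [hi]
    rw [e]
    exact N.mul_mem hx (hN.conj_mem _ (N.inv_mem hx) _)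
  have hne : K ≠ ⊥ := by
    intro hbot
    rw [hbot, Subgroup.mem_bot] at hmem
    apply hh
    have h1 : x j * h * (x j)⁻¹ = h := by
      rw [← mul_inv_eq_one]; exact hmem
    have h2 : x j * h = h * x j := by
      rw [← mul_inv_eq_iff_eq_mul]; exact h1
    exact h2.symm
  have htop : K = ⊤ := (hK.eq_bot_or_eq_top).resolve_left hne
  have : g ∈ K := by rw [htop]; trivial
  exact this

lemma single_range_normal (j : κ) : (MonoidHom.mulSingle (fun _ : κ => A) j).range.Normal := by
  constructor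
  rintro _ ⟨g, rfl⟩ x
  refine ⟨x j * g * (x j)⁻¹, ?_⟩
  funext i
  by_cases hi : i = j
  · subst hi
    simp
  · simp [hi]

lemma single_inj [Nontrivial A] {i j : κ} (h : (MonoidHom.mulSingle (fun _ : κ => A) i).range ≤
    (MonoidHom.mulSingle (fun _ : κ => A) j).range) : i = j := by
  by_contra hij
  obtain ⟨g, hg⟩ := exists_ne (1 : A)
  obtain ⟨g', hg'⟩ := h ⟨g, rfl⟩
  have := congrFun hg' i
  simp [hij] at this
  exact hg this.symm

lemma exists_target [IsSimpleGroup A] (hc : Subgroup.center A = ⊥) (ψ : (κ → A) ≃* (κ → A)) (j : κ) :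
    ∃ i, (MonoidHom.mulSingle (fun _ : κ => A) i).range ≤
      (MonoidHom.mulSingle (fun _ : κ => A) j).range.map ψ.toMonoidHom := by
  obtain ⟨g, hg⟩ := exists_ne (1 : A)
  have h1 : ψ (Pi.mulSingle j g) ≠ 1 := by
    intro h
    rw [map_eq_one_iff ψ ψ.injective] at h
    have := congrFun h j
    simp at this
    exact hg this
  obtain ⟨i, hi⟩ : ∃ i, ψ (Pi.mulSingle j g) i ≠ 1 := by
    by_contra hcon
    push Not at hcon
    exact h1 (funext hcon)
  have hN := (single_range_normal (A := A) j).map ψ.toMonoidHom ψ.surjective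
  refine ⟨i, ?_⟩
  rintro _ ⟨g', rfl⟩
  exact single_mem hc hN (x := ψ (Pi.mulSingle j g)) ⟨Pi.mulSingle j g, ⟨g, rfl⟩, rfl⟩ hi g'

lemma exists_target_eq [IsSimpleGroup A] (hc : Subgroup.center A = ⊥) (ψ : (κ → A) ≃* (κ → A))
    (j : κ) : ∃ i, (MonoidHom.mulSingle (fun _ : κ => A) i).range =
      (MonoidHom.mulSingle (fun _ : κ => A) j).range.map ψ.toMonoidHom := by
  obtain ⟨i, hi⟩ := exists_target hc ψ j
  obtain ⟨j', hj'⟩ := exists_target hc ψ.symm i
  refine ⟨i, le_antisymm hi ?_⟩
  have h1 : (MonoidHom.mulSingle (fun _ : κ => A) j').range ≤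
      (MonoidHom.mulSingle (fun _ : κ => A) j).range := by
    intro x hx
    obtain ⟨y, hy, hxy⟩ := hj' hx
    obtain ⟨z, hz, hzy⟩ := hi hy
    have : x = z := by
      rw [← hxy, ← hzy]
      exact ψ.symm_apply_apply z
    rw [this]
    exact hz
  have h2 := single_inj h1
  subst h2
  rintro _ ⟨x, hx, rfl⟩
  obtain ⟨y, hy, hxy⟩ := hj' hx
  have : ψ x = y := by
    rw [← hxy]
    exact ψ.apply_symm_apply y
  change ψ x ∈ _
  rw [this]
  exact hy

/-- automorphisms of powers of a nonabelian simple group -/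
theorem aut_pi [Finite κ] [IsSimpleGroup A] (hc : Subgroup.center A = ⊥)
    (ψ : (κ → A) ≃* (κ → A)) :
    ∃ (π : Perm κ) (φ : κ → (A ≃* A)), ∀ x j, ψ x (π j) = φ j (x j) := by
  choose f hf using exists_target_eq hc ψ
  have finj : Function.Injective f := by
    intro i j hij
    have h1 : (MonoidHom.mulSingle (fun _ : κ => A) i).range.map ψ.toMonoidHom =
        (MonoidHom.mulSingle (fun _ : κ => A) j).range.map ψ.toMonoidHom := by
      rw [← hf i, ← hf j, hij]
    have h2 := Subgroup.map_injective (f := ψ.toMonoidHom) ψ.injective h1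
    exact single_inj h2.le
  let π : Perm κ := Equiv.ofBijective f (Finite.injective_iff_bijective.1 finj)
  have hπ : ∀ j, π j = f j := fun j => rfl
  -- images of single elements
  have him : ∀ j g, ψ (Pi.mulSingle j g) = Pi.mulSingle (π j) (ψ (Pi.mulSingle j g) (π j)) := by
    intro j g
    have h1 : ψ (Pi.mulSingle j g) ∈ (MonoidHom.mulSingle (fun _ : κ => A) (f j)).range := by
      rw [hf j]
      exact ⟨_, ⟨g, rfl⟩, rfl⟩
    obtain ⟨g', hg'⟩ := h1
    have h2 : ψ (Pi.mulSingle j g) (f j) = g' := by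
      rw [← hg']
      simp
    rw [hπ, h2]
    exact hg'.symm
  let φ0 : κ → (A →* A) := fun j =>
    (Pi.evalMonoidHom (fun _ : κ => A) (π j)).comp
      (ψ.toMonoidHom.comp (MonoidHom.mulSingle (fun _ : κ => A) j))
  have hφ0 : ∀ j g, φ0 j g = ψ (Pi.mulSingle j g) (π j) := fun j g => rfl
  have hbij : ∀ j, Function.Bijective (φ0 j) := by
    intro j
    constructor
    · intro g g' h
      rw [hφ0, hφ0] at h
      have h1 : ψ (Pi.mulSingle j g) = ψ (Pi.mulSingle j g') := by
        rw [him j g, him j g', h]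
      have h2 := congrFun (ψ.injective h1) j
      simpa using h2
    · intro g
      have h1 : Pi.mulSingle (π j) g ∈
          (MonoidHom.mulSingle (fun _ : κ => A) j).range.map ψ.toMonoidHom := by
        rw [← hf j]
        exact ⟨g, rfl⟩
      obtain ⟨_, ⟨g', rfl⟩, h2⟩ := h1
      refine ⟨g', ?_⟩
      rw [hφ0]
      have h3 := congrFun h2 (π j)
      simpa using h3
  refine ⟨π, fun j => MulEquiv.ofBijective (φ0 j) (hbij j), ?_⟩
  intro x j
  change ψ x (π j) = φ0 j (x j)
  -- the rest commutes with the j-th factor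
  have hx : x = Pi.mulSingle j (x j) * Function.update x j 1 := by
    funext i
    by_cases hi : i = j
    · subst hi; simp
    · simp [hi]
  have hrest : ψ (Function.update x j 1) (π j) = 1 := by
    apply comm_center hc
    intro g
    obtain ⟨g', hg'⟩ := (hbij j).2 g
    have h1 : Pi.mulSingle j g' * Function.update x j 1 = Function.update x j 1 * Pi.mulSingle j g' := by
      funext i
      by_cases hi : i = j
      · subst hi; simp
      · simp [hi]
    have h2 := congrFun (congrArg ψ h1) (π j)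
    rw [map_mul, map_mul, Pi.mul_apply, Pi.mul_apply, ← hφ0, hg'] at h2
    exact h2
  conv_lhs => rw [hx]
  rw [map_mul, Pi.mul_apply, hrest, mul_one, hφ0]

end AutPi

section AutPow

variable [Fintype α] [DecidableEq α] {κ : Type*}

/-- permutations commuting with the alternating group -/
lemma perm_comm_eq_one (h4 : 4 ≤ Fintype.card α) {τ : Perm α}
    (h : ∀ x : alternatingGroup α, τ * x = x * τ) : τ = 1 := by
  by_contra hne
  obtain ⟨a, ha⟩ : ∃ a, τ a ≠ a := by
    by_contra hcon
    push Not at hcon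
    exact hne (Equiv.ext hcon)
  obtain ⟨c, hc⟩ : ∃ i, i ∉ ({a, τ a} : Finset α) := by
    by_contra hcon
    push Not at hcon
    have := Finset.card_le_card (fun p _ => hcon p : (Finset.univ : Finset α) ⊆ {a, τ a})
    rw [Finset.card_univ] at this
    have := this.trans Finset.card_le_two
    omega
  obtain ⟨d, hd⟩ : ∃ i, i ∉ ({a, τ a, c} : Finset α) := by
    by_contra hcon
    push Not at hcon
    have := Finset.card_le_card (fun p _ => hcon p : (Finset.univ : Finset α) ⊆ {a, τ a, c})
    rw [Finset.card_univ] at this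
    have := this.trans Finset.card_le_three
    omega
  simp only [Finset.mem_insert, Finset.mem_singleton, not_or] at hc hd
  have hT := tri_cyc (α := α) (a := τ a) (b := c) (c := d) (Ne.symm hc.2) (Ne.symm hd.2.2) hd.2.1
  have h1 := h ⟨cyc (τ a) c d, cyc_mem_alt (Ne.symm hc.2) (Ne.symm hd.2.2) hd.2.1⟩
  have h2 := congrArg (fun z : Perm α => z a) h1
  simp only [Perm.mul_apply] at h2
  rw [hT.2.2.2.1, hT.2.2.2.2.2.2 a (Ne.symm ha) (Ne.symm hc.1) (Ne.symm hd.1)] at h2
  exact hc.2 h2.symm

/-- every automorphism of a power of an alternating group is given by a block permutation -/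
theorem aut_pow [Finite κ] (h5 : 5 ≤ Fintype.card α) (h6 : Fintype.card α ≠ 6)
    (ψ : (κ → alternatingGroup α) ≃* (κ → alternatingGroup α)) :
    ∃ (π : Perm κ) (t : κ → Perm α), ∀ x j, (ψ x (π j) : Perm α) = t j * x j * (t j)⁻¹ := by
  classical
  have h5' : 5 ≤ Nat.card α := by rwa [Nat.card_eq_fintype_card]
  have hs : IsSimpleGroup (alternatingGroup α) := alternatingGroup.isSimpleGroup h5'
  obtain ⟨π, φ, hφ⟩ := aut_pi (alternatingGroup.center_eq_bot (by omega)) ψ
  choose t ht using fun j => aut_alt (φ j) h5 h6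
  exact ⟨π, t, fun x j => by rw [hφ, ht]⟩

theorem aut_pow_unique (h5 : 5 ≤ Fintype.card α)
    {ψ : (κ → alternatingGroup α) → (κ → alternatingGroup α)} {π π' : Perm κ} {t t' : κ → Perm α}
    (h : ∀ x j, (ψ x (π j) : Perm α) = t j * x j * (t j)⁻¹)
    (h' : ∀ x j, (ψ x (π' j) : Perm α) = t' j * x j * (t' j)⁻¹) : π = π' ∧ t = t' := by
  classical
  have h5' : 5 ≤ Nat.card α := by rwa [Nat.card_eq_fintype_card]
  have hs : IsSimpleGroup (alternatingGroup α) := alternatingGroup.isSimpleGroup h5'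
  have hπ : π = π' := by
    ext j
    by_contra hj
    obtain ⟨g, hg⟩ := exists_ne (1 : alternatingGroup α)
    -- x supported at j
    obtain ⟨i, hi⟩ := π'.surjective (π j)
    have hij : i ≠ j := by rintro rfl; exact hj hi.symm
    have e1 := h (Pi.mulSingle j g) j
    have e2 := h' (Pi.mulSingle j g) i
    rw [hi, e1] at e2
    rw [Pi.mulSingle_eq_same, Pi.mulSingle_eq_of_ne hij] at e2
    apply hg
    apply Subtype.ext
    have e3 : t j * (g : Perm α) * (t j)⁻¹ = 1 := by
      rw [e2]; simp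
    have e4 : (g : Perm α) = (t j)⁻¹ * (t j * (g : Perm α) * (t j)⁻¹) * t j := by group
    rw [e4, e3]; simp
  subst hπ
  refine ⟨rfl, ?_⟩
  funext j
  have key : (t' j)⁻¹ * t j = 1 := by
    apply perm_comm_eq_one (by omega)
    intro x
    have e1 := h (Pi.mulSingle j x) j
    have e2 := h' (Pi.mulSingle j x) j
    rw [e1, Pi.mulSingle_eq_same] at e2
    calc (t' j)⁻¹ * t j * (x : Perm α) = (t' j)⁻¹ * (t j * x * (t j)⁻¹) * t j := by group
      _ = (t' j)⁻¹ * (t' j * x * (t' j)⁻¹) * t j := by rw [e2]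
      _ = _ := by group
  exact (inv_mul_eq_one.1 key).symm

end AutPow

section Data

/-- A group extension of `Q = E / N` with kernel `N` isomorphic to a power of an alternating group is
described by block permutations. (The last two items say that conjugation by `e` on `N` is the
conjugation by the block permutation and that elements of `N` act by themselves.) -/
theorem exists_perm_data' {n : ℕ} {κ : Type*} [Finite κ] (hn : 5 ≤ n) (h6 : n ≠ 6) {E : Type*}
    [Group E] (N : Subgroup E) [N.Normal] (φ : N ≃* (κ → alternatingGroup (Fin n))) :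
    ∃ (act : (E ⧸ N) →* Equiv.Perm κ) (T : E → κ → Equiv.Perm (Fin n)) (ε : (E ⧸ N) → κ → ℤˣ),
    (∀ e e' j, T (e * e') j = T e (act (e' : E ⧸ N) j) * T e' j) ∧
    (∀ e j, Equiv.Perm.sign (T e j) = ε (e : E ⧸ N) j) ∧
    (∀ (g : E ⧸ N) (τ : κ → Equiv.Perm (Fin n)), (∀ j, Equiv.Perm.sign (τ j) = ε g j) →
      ∃! e : E, (e : E ⧸ N) = g ∧ T e = τ) ∧
    (∀ (e : E) (m : N) j, (φ (MulAut.conjNormal e m) (act (e : E ⧸ N) j) : Perm (Fin n)) =
      T e j * φ m j * (T e j)⁻¹) ∧
    (∀ (m : N) j, T m j = φ m j) := by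
  have h5c : 5 ≤ Fintype.card (Fin n) := by simpa using hn
  have h6c : Fintype.card (Fin n) ≠ 6 := by simpa using h6
  let ψ : E → ((κ → alternatingGroup (Fin n)) ≃* (κ → alternatingGroup (Fin n))) := fun e =>
    (φ.symm.trans (MulAut.conjNormal e : MulAut N)).trans φ
  have hψ : ∀ e x, ψ e x = φ (MulAut.conjNormal e (φ.symm x)) := fun e x => rfl
  choose π t ht using fun e => aut_pow h5c h6c (ψ e)
  have hψmul : ∀ e e' x, ψ (e * e') x = ψ e (ψ e' x) := by
    intro e e' x
    rw [hψ, hψ, hψ, MulEquiv.symm_apply_apply, map_mul]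
    rfl
  have hmul : ∀ e e', π (e * e') = π e * π e' ∧ t (e * e') = fun j => t e (π e' j) * t e' j := by
    intro e e'
    refine aut_pow_unique h5c (ψ := ψ (e * e')) (ht (e * e')) ?_
    intro x j
    rw [hψmul, Perm.mul_apply, ht e, ht e']
    group
  have hN : ∀ m : N, π m = 1 ∧ t m = fun j => (φ m j : Perm (Fin n)) := by
    intro m
    refine aut_pow_unique h5c (ψ := ψ m) (ht m) ?_
    intro x j
    have h1 : ψ m x = φ m * x * (φ m)⁻¹ := by
      rw [hψ]
      have : MulAut.conjNormal (m : E) (φ.symm x) = m * φ.symm x * m⁻¹ := by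
        apply Subtype.ext
        rw [MulAut.conjNormal_apply]
        simp
      rw [this, map_mul, map_mul, map_inv, MulEquiv.apply_symm_apply]
    rw [h1]
    simp
  let πhom : E →* Perm κ := MonoidHom.mk' π (fun e e' => (hmul e e').1)
  have hker : ∀ m ∈ N, πhom m = 1 := fun m hm => (hN ⟨m, hm⟩).1
  let act : (E ⧸ N) →* Perm κ := QuotientGroup.lift N πhom hker
  have hact : ∀ e : E, act (e : E ⧸ N) = π e := fun e => rfl
  have htmul : ∀ e e' j, t (e * e') j = t e (π e' j) * t e' j := fun e e' j =>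
    congrFun (hmul e e').2 j
  have htN : ∀ (e : E) (m : N) j, t (e * m) j = t e j * φ m j := by
    intro e m j
    rw [htmul, (hN m).1, (hN m).2]
    rfl
  have hsplit : ∀ (e e0 : E), (e : E ⧸ N) = (e0 : E ⧸ N) → ∃ m : N, e = e0 * m := by
    intro e e0 h
    have h1 : e0⁻¹ * e ∈ N := QuotientGroup.eq.1 h.symm
    exact ⟨⟨_, h1⟩, by simp⟩
  have hsign : ∀ (e e0 : E), (e : E ⧸ N) = (e0 : E ⧸ N) → ∀ j,
      Equiv.Perm.sign (t e j) = Equiv.Perm.sign (t e0 j) := by
    intro e e0 h j
    obtain ⟨m, rfl⟩ := hsplit e e0 h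
    rw [htN, Equiv.Perm.sign_mul, mem_alternatingGroup.1 (φ m j).2, mul_one]
  refine ⟨act, t, fun g j => Equiv.Perm.sign (t (Quotient.out g) j), fun e e' j => htmul e e' j,
    fun e j => hsign e _ (Quotient.out_eq' (e : E ⧸ N)).symm j, ?_, ?_,
    fun m j => congrFun (hN m).2 j⟩
  · intro g τ hτ
    set e0 : E := Quotient.out g with he0
    have hg : (e0 : E ⧸ N) = g := Quotient.out_eq' g
    let y : κ → alternatingGroup (Fin n) := fun j => ⟨(t e0 j)⁻¹ * τ j, by
      rw [mem_alternatingGroup, Equiv.Perm.sign_mul, Equiv.Perm.sign_inv, hτ j]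
      exact Int.units_mul_self _⟩
    refine ⟨e0 * (φ.symm y : N), ⟨?_, ?_⟩, ?_⟩
    · rw [← hg]
      exact QuotientGroup.mk_mul_of_mem _ (φ.symm y).2
    · funext j
      rw [htN, MulEquiv.apply_symm_apply]
      simp [y]
    · rintro e' ⟨h1, h2⟩
      obtain ⟨m, rfl⟩ := hsplit e' e0 (h1.trans hg.symm)
      have h3 : φ m = y := by
        funext j
        apply Subtype.ext
        have := congrFun h2 j
        rw [htN] at this
        change (φ m j : Perm (Fin n)) = (t e0 j)⁻¹ * τ j
        rw [← this]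
        simp
      rw [← h3, MulEquiv.symm_apply_apply]
  · intro e m j
    rw [hact]
    have := ht e (φ m) j
    rw [hψ, MulEquiv.symm_apply_apply] at this
    exact this

/-- The form requested by helper8. -/
theorem exists_perm_data {n k : ℕ} (hn : 5 ≤ n) (h6 : n ≠ 6) {E : Type} [Group E] [Finite E]
    (N : Subgroup E) [N.Normal] (φ : N ≃* (Fin k → alternatingGroup (Fin n))) :
    ∃ (act : (E ⧸ N) →* Equiv.Perm (Fin k)) (T : E → Fin k → Equiv.Perm (Fin n))
      (ε : (E ⧸ N) → Fin k → ℤˣ),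
    (∀ e e' j, T (e * e') j = T e (act (e' : E ⧸ N) j) * T e' j) ∧
    (∀ e j, Equiv.Perm.sign (T e j) = ε (e : E ⧸ N) j) ∧
    (∀ (g : E ⧸ N) (τ : Fin k → Equiv.Perm (Fin n)), (∀ j, Equiv.Perm.sign (τ j) = ε g j) →
      ∃! e : E, (e : E ⧸ N) = g ∧ T e = τ) := by
  obtain ⟨act, T, ε, h1, h2, h3, -, -⟩ := exists_perm_data' hn h6 N φ
  exact ⟨act, T, ε, h1, h2, h3⟩

end Data

end Pool.Agent.Lib.MP_7f581e_nt.AutAlt
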