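import Pool.Agent.Lib.MP_7f581e_nt.Six3

namespace MP7f

open Polynomial Equiv

/-- The polynomial of degree four. -/
noncomputable def F4 {R : Type*} [CommRing R] (v : R) : R[X] :=
  X ^ 4 + X ^ 2 + C (1 + v) * X + C v

theorem map_F4 {R S : Type*} [CommRing R] [CommRing S] (g : R →+* S) (v : R) :
    (F4 v).map g = F4 (g v) := by
  simp [F4]

theorem F4_monic {R : Type*} [CommRing R] [Nontrivial R] (v : R) :
    (F4 v).Monic ∧ (F4 v).natDegree = 4 := by
  constructor
  · unfold F4; monicity!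
  · unfold F4; compute_degree!

/-- The constant part of the pencil. -/
noncomputable def P4 : R1 := X ^ 4 + X ^ 2 + X

theorem P4_monic : P4.Monic := by unfold P4; monicity!

theorem P4_deg : P4.natDegree = 4 := by unfold P4; compute_degree!

theorem P4_one : P4.eval 1 = 1 := by
  unfold P4
  simp only [eval_add, eval_pow, eval_X, one_pow]
  decide

theorem fgen_P4 : fgen P4 = F4 RatFunc.X := by
  unfold fgen P4 F4
  simp only [Polynomial.map_add, Polynomial.map_pow, map_X, map_add, map_one]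
  ring

theorem F4_separable {F : Type*} [Field F] [CharP F 2] (v : F) (hv1 : 1 + v ≠ 0) :
    (F4 v).Separable := by
  have hder : derivative (F4 v) = C (1 + v) := by
    unfold F4
    simp only [derivative_add, derivative_X_pow, derivative_mul, derivative_C, derivative_X]
    have c4 : ((4 : ℕ) : F) = 0 := (CharP.cast_eq_zero_iff F 2 4).mpr (by norm_num)
    have c2 : ((2 : ℕ) : F) = 0 := (CharP.cast_eq_zero_iff F 2 2).mpr (by norm_num)
    rw [c4, c2]
    simp
  unfold Polynomial.Separable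
  rw [hder]
  exact (isCoprime_one_right (x := F4 v)).of_isCoprime_of_dvd_right
    ((isUnit_C.mpr (isUnit_iff_ne_zero.mpr hv1)).dvd)

section

variable {Ω : Type*} [Field Ω] [CharZero Ω] {v : Ω} {y : Fin 4 → Ω}

theorem root4 (h : F4 v = ∏ i, (X - C (y i))) (i : Fin 4) :
    y i ^ 4 + y i ^ 2 + (1 + v) * y i + v = 0 := by
  have h1 := congrArg (eval (y i)) h
  rw [eval_prod, Finset.prod_eq_zero (Finset.mem_univ i) (by simp)] at h1
  simpa [F4] using h1

theorem coeff4 (v : Ω) : (F4 v).coeff (4 - 0) = 1 ∧ (F4 v).coeff (4 - 1) = 0 ∧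
    (F4 v).coeff (4 - 2) = 1 ∧ (F4 v).coeff (4 - 3) = 1 + v ∧ (F4 v).coeff (4 - 4) = v := by
  unfold F4
  refine ⟨?_, ?_, ?_, ?_, ?_⟩ <;>
    simp [coeff_X, coeff_one]

theorem ps4 (h : F4 v = ∏ i, (X - C (y i))) :
    ps y 1 = 0 ∧ ps y 2 = -2 ∧ ps y 3 = -3 * (1 + v) ∧ ps y 4 = 2 - 4 * v ∧
      ps y 6 = -2 + 6 * v + 3 * (1 + v) ^ 2 := by
  obtain ⟨c0, c1, c2, c3, c4⟩ := coeff4 v
  have n1 := newton y 1 (by omega)
  have n2 := newton y 2 (by omega)
  have n3 := newton y 3 (by omega)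
  have n4 := newton y 4 (by omega)
  rw [← h] at n1 n2 n3 n4
  simp only [Finset.sum_range_succ, Finset.sum_range_zero, c0, c1, c2, c3, c4]
    at n1 n2 n3 n4
  norm_num at n1 n2 n3 n4
  have p1 : ps y 1 = 0 := by linear_combination n1
  have p2 : ps y 2 = -2 := by linear_combination n2
  have p3 : ps y 3 = -3 * (1 + v) := by linear_combination n3 - p1
  have p4 : ps y 4 = 2 - 4 * v := by linear_combination n4 - p2 - (1 + v) * p1
  have r6 : ps y 6 = -(ps y 4 + (1 + v) * ps y 3 + v * ps y 2) := by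
    unfold ps
    rw [Finset.mul_sum, Finset.mul_sum, ← Finset.sum_add_distrib, ← Finset.sum_add_distrib,
      ← Finset.sum_neg_distrib]
    refine Finset.sum_congr rfl fun i _ => ?_
    linear_combination y i ^ 2 * root4 h i
  have p6 : ps y 6 = -2 + 6 * v + 3 * (1 + v) ^ 2 := by rw [r6, p4, p3, p2]; ring
  exact ⟨p1, p2, p3, p4, p6⟩

theorem prod4 (O : Subring Ω) (h : F4 v = ∏ i, (X - C (y i))) (hτ : 1 + v ≠ 0)
    (hvO : v ∈ O) (hyO : ∀ i, y i ∈ O) :
    ∃ r ∈ O, vV y ^ 2 = 37 * (1 + v) ^ 4 + (4 - 16 * v) * (1 + v) ^ 2 + 8 * r := by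
  have h1 : ∏ i, (derivative (F4 v)).eval (y i) = vV y ^ 2 := by
    have h2 : ∀ i, (derivative (F4 v)).eval (y i) =
        ∏ j ∈ Finset.univ.erase i, (y i - y j) := by
      intro i; rw [h, eval_derivative_prod]
    rw [Finset.prod_congr rfl (fun i _ => h2 i), prod_sub_ne]
    have h3 : ∑ i : Fin 4, (Finset.Ioi i).card = 6 := by decide
    rw [h3]
    ring
  have h2O : (2 : Ω) ∈ O := by exact_mod_cast natCast_mem O 2
  have hder : ∀ i, (derivative (F4 v)).eval (y i) =
      (1 + v) + 2 * (2 * y i ^ 3 + y i) := by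
    intro i
    unfold F4
    simp only [derivative_add, derivative_X_pow, derivative_mul, derivative_C, derivative_X,
      eval_add, eval_mul, eval_pow, eval_X, eval_C, eval_zero, eval_one]
    push_cast
    ring
  obtain ⟨_, _, _, r, hr, h4⟩ := prod_expand O Finset.univ
    (fun _ : Fin 4 => 1 + v) (fun i => 2 * y i ^ 3 + y i)
    (fun _ => hτ) (fun _ => O.add_mem O.one_mem hvO)
    (fun i => O.add_mem (O.mul_mem h2O (O.pow_mem (hyO i) 3)) (hyO i))
  obtain ⟨p1, p2, p3, p4, p6⟩ := ps4 h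
  have s1 : ∑ i, (2 * y i ^ 3 + y i) / (1 + v) = -6 := by
    rw [← Finset.sum_div]
    have : ∑ i, (2 * y i ^ 3 + y i) = 2 * ps y 3 + ps y 1 := by
      simp only [ps, Finset.sum_add_distrib, ← Finset.mul_sum, pow_one]
    rw [this, p3, p1]
    field_simp
    ring
  have s2 : ∑ i, ((2 * y i ^ 3 + y i) / (1 + v)) ^ 2 =
      (-2 + 8 * v + 12 * (1 + v) ^ 2) / (1 + v) ^ 2 := by
    have e1 : ∀ i, ((2 * y i ^ 3 + y i) / (1 + v)) ^ 2 =
        (4 * y i ^ 6 + 4 * y i ^ 4 + y i ^ 2) / (1 + v) ^ 2 := by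
      intro i; rw [div_pow]; congr 1; ring
    rw [Finset.sum_congr rfl (fun i _ => e1 i), ← Finset.sum_div]
    have : ∑ i, (4 * y i ^ 6 + 4 * y i ^ 4 + y i ^ 2) =
        4 * ps y 6 + 4 * ps y 4 + ps y 2 := by
      simp only [ps, Finset.sum_add_distrib, ← Finset.mul_sum]
    rw [this, p6, p4, p2]
    congr 1
    ring
  refine ⟨r, hr, ?_⟩
  rw [← h1, Finset.prod_congr rfl (fun i _ => hder i), h4, s1, s2]
  have h6 : ∏ _i : Fin 4, (1 + v) = (1 + v) ^ 4 := by simp
  rw [h6]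
  field_simp
  ring

end

theorem disc4 (y : Fin 4 → Om)
    (hy : (F4 X : A0[X]).map (algebraMap A0 Om) = ∏ i, (X - C (y i))) :
    ∃ d r : A0, algebraMap A0 Om d = vV y ^ 2 ∧
      1 ^ 2 * d = ((1 + X) ^ 2) ^ 2 + 4 * ((1 + X) ^ 4 + (1 + X) ^ 2) + 8 * r := by
  set ι := algebraMap A0 Om with hι
  obtain ⟨p, hp1, -⟩ := transfer (R := Om) (S := Om) _ (symm_vP (n := 4)) (F4 (X : A0))
  obtain ⟨b, hb1, -⟩ := transfer (R := Om) (S := Om) _ (symm_vB (n := 4)) (F4 (X : A0))
  have P1 : ι p = vP y := by rw [hp1 ι y hy, eval_vP]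
  have B1 : ι b = vB y := by rw [hb1 ι y hy, eval_vB]
  have hd : ι (4 * b + p ^ 2) = vV y ^ 2 := by
    rw [map_add, map_mul, map_pow, map_ofNat, B1, P1, four_vB]; ring
  set O : Subring Om := (integralClosure A0 Om).toSubring with hO
  have hOmem : ∀ x : Om, x ∈ O ↔ IsIntegral A0 x := fun x => Iff.rfl
  have hyF : (F4 (ι X) : Om[X]) = ∏ i, (X - C (y i)) := by
    rw [← hy, map_F4]
  have hyO : ∀ i, y i ∈ O := by
    intro i
    rw [hOmem]
    refine ⟨F4 X, (F4_monic _).1, ?_⟩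
    rw [← eval_map, hy, eval_prod, Finset.prod_eq_zero (Finset.mem_univ i) (by simp)]
  have hvO : ι X ∈ O := isIntegral_algebraMap
  have hτ : 1 + ι X ≠ 0 := by
    rw [← map_one ι, ← map_add, Ne, map_eq_zero_iff ι algMap_inj]
    intro h
    have := congrArg (fun p : A0 => p.coeff 1) h
    simp [coeff_one] at this
  obtain ⟨r0, hr0, hmain⟩ := prod4 O hyF hτ hvO hyO
  rw [← hd] at hmain
  have hmain' : ι ((4 * b + p ^ 2) - 37 * (1 + X) ^ 4 - (4 - 16 * X) * (1 + X) ^ 2) =
      8 * r0 := by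
    simp only [map_sub, map_mul, map_pow, map_add, map_one, map_ofNat] at hmain ⊢
    linear_combination hmain
  obtain ⟨r1, hr1⟩ := exists_eighth _ r0 hr0 hmain'
  refine ⟨4 * b + p ^ 2, r1 + 4 * (1 + X) ^ 4 - 2 * X * (1 + X) ^ 2, hd, ?_⟩
  linear_combination hr1

theorem exists_sign4 {L : Type*} [Field L] [Algebra K2 L] {f : K2[X]} (hf : f = F4 RatFunc.X)
    (y : Fin 4 → L) (hinj : Function.Injective y)
    (hy : f.map (algebraMap K2 L) = ∏ i, (X - C (y i))) :
    ∃ w : K2, vP y ≠ 0 ∧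
      (vE y / vP y + algebraMap K2 L w) ^ 2 + (vE y / vP y + algebraMap K2 L w) =
        algebraMap K2 L (1 + 1 / (1 + RatFunc.X)) := by
  have : CharP L 2 := charP_of_injective_algebraMap (algebraMap K2 L).injective 2
  have hmon := F4_monic (algebraMap A0 Om X)
  rw [← map_F4] at hmon
  obtain ⟨yt, hyt⟩ := exists_prod_fin _ hmon.1 hmon.2
  obtain ⟨d, r, hd, hcong⟩ := disc4 yt hyt
  set φ : A0 →+* L := (algebraMap K2 L).comp phiK with hφ
  have hφy : (F4 X : A0[X]).map φ = ∏ i, (X - C (y i)) := by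
    rw [hφ, ← Polynomial.map_map, map_F4, phiK_X, ← hf, hy]
  have hφker : ∀ a, φ a = 0 → (2 : A0) ∣ a := by
    intro a ha
    apply phiK_ker
    have : (algebraMap K2 L) (phiK a) = 0 := ha
    exact (map_eq_zero_iff _ (algebraMap K2 L).injective).mp this
  have h4 : ∀ a : A0, 4 * a = 0 → a = 0 := by
    intro a ha
    rcases mul_eq_zero.mp ha with h | h
    · exact absurd h (by norm_num)
    · exact h
  obtain ⟨η, hε, hP, hs⟩ := exists_sign_elt (F4 X) (algebraMap A0 Om)
    algMap_inj φ hφker h4 yt hyt y hφy hinj d _ _ _ r hd hcong (by simp)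
  refine ⟨phiK η / phiK ((1 + X) ^ 2) + 1 / (1 + RatFunc.X), hP, ?_⟩
  have e1 : algebraMap K2 L (phiK η / phiK ((1 + X) ^ 2)) = φ η / φ ((1 + X) ^ 2) := by
    rw [map_div₀]; rfl
  have e2 : ∀ a, φ a = algebraMap K2 L (phiK a) := fun a => rfl
  have h1 := one_add_X_ne
  have two0 : (2 : L) = 0 := CharTwo.two_eq_zero
  have two1 : (2 : K2) = 0 := CharTwo.two_eq_zero
  have key : phiK ((1 + X) ^ 4 + (1 + X) ^ 2) / phiK ((1 + X) ^ 2) ^ 2 +
      ((1 / (1 + RatFunc.X)) ^ 2 + 1 / (1 + RatFunc.X)) = 1 + 1 / (1 + RatFunc.X) := by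
    simp only [map_mul, map_add, map_pow, map_one, phiK_X]
    field_simp
    linear_combination two1
  obtain ⟨u, hu⟩ : ∃ u, u = algebraMap K2 L (1 / (1 + RatFunc.X)) := ⟨_, rfl⟩
  have hk : algebraMap K2 L (1 + 1 / (1 + RatFunc.X)) =
      φ ((1 + X) ^ 4 + (1 + X) ^ 2) / φ ((1 + X) ^ 2) ^ 2 + (u ^ 2 + u) := by
    rw [← key, map_add (algebraMap K2 L), map_add (algebraMap K2 L), map_pow (algebraMap K2 L),
      ← hu, map_div₀, map_pow (algebraMap K2 L)]
    rfl
  rw [hk, ← hs, map_add (algebraMap K2 L), e1, ← hu]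
  linear_combination (vE y / vP y + φ η / φ ((1 + X) ^ 2)) * u * two0

theorem main4 : ∃ (L : Type) (_ : Field L) (_ : Algebra K2 L), FiniteDimensional K2 L ∧
      IsGalois K2 L ∧ Nonempty ((L ≃ₐ[K2] L) ≃* alternatingGroup (Fin 4)) := by
  have hsep : (fgen P4).Separable := by
    rw [fgen_P4]; exact F4_separable _ one_add_X_ne
  have hmd : (fgen P4).Monic ∧ (fgen P4).natDegree = 4 := by
    rw [fgen_P4]; exact F4_monic _
  haveI : IsGalois K2 (fgen P4).SplittingField := IsGalois.of_separable_splitting_field hsep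
  refine realise (fgen P4) hmd.1 hsep hmd.2 ?_ (1 + 1 / (1 + RatFunc.X)) ?_ ?_
  · intro e hy
    have hprim := gprimitive P4_monic P4_one P4_deg (by norm_num) e
    have hroot : ∀ i, aeval ((e.symm i : (fgen P4).rootSet (fgen P4).SplittingField) :
        (fgen P4).SplittingField) (fgen P4) = 0 :=
      fun i => aeval_eq_zero_of_mem_rootSet (e.symm i).2
    obtain ⟨σ, h1, h2⟩ := gexists_aut (L := (fgen P4).SplittingField) P4_monic
      (by rw [P4_deg]; norm_num) P4_one (hroot 0) (hroot 1) (hroot 2)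
      (fun h => absurd (yinj e h) (by decide)) (fun h => absurd (yinj e h) (by decide))
    have g0 : rho e σ 0 = 0 := rho_eq_of e h1
    have g1 : rho e σ 1 = 2 := rho_eq_of e h2
    have hmem : rho e σ ∈ (rho e).range := ⟨σ, rfl⟩
    have hcase : (rho e σ).IsSwap ∨ (rho e σ).IsThreeCycle := by
      rw [← Perm.card_support_eq_two, ← card_support_eq_three_iff]
      revert g0 g1
      generalize rho e σ = g
      revert g
      decide
    rcases hcase with h | h
    · rw [Perm.subgroup_eq_top_of_isPreprimitive_of_isSwap_mem hprim _ h hmem]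
      exact le_top
    · exact Perm.alternatingGroup_le_of_isPreprimitive_of_isThreeCycle_mem hprim h hmem
  · exact Or.inr ⟨1, Or.inr rfl, rfl⟩
  · intro y hinj hy
    exact exists_sign4 fgen_P4 y hinj hy

end MP7f
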