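import Pool.Agent.Lib.MP_7f581e_nt.Main
import Pool.Agent.Lib.MP_7f581e_nt.Four

namespace MP7f

open Polynomial Equiv

theorem main_trivial {G : Type*} [Group G] [Subsingleton G] :
    ∃ (L : Type) (_ : Field L) (_ : Algebra K2 L), FiniteDimensional K2 L ∧
      IsGalois K2 L ∧ Nonempty ((L ≃ₐ[K2] L) ≃* G) := by
  refine ⟨K2, inferInstance, inferInstance, inferInstance, inferInstance, ⟨?_⟩⟩
  haveI : Subsingleton (K2 ≃ₐ[K2] K2) := ⟨fun a b => by
    ext x
    exact (a.commutes x).trans (b.commutes x).symm⟩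
  letI : Unique (K2 ≃ₐ[K2] K2) := ⟨⟨1⟩, fun a => Subsingleton.elim _ _⟩
  letI : Unique G := ⟨⟨1⟩, fun a => Subsingleton.elim _ _⟩
  exact MulEquiv.ofUnique

theorem main_even (n : ℕ) (hn : Even n) :
    ∃ (L : Type) (_ : Field L) (_ : Algebra K2 L), FiniteDimensional K2 L ∧
      IsGalois K2 L ∧ Nonempty ((L ≃ₐ[K2] L) ≃* alternatingGroup (Fin n)) := by
  obtain ⟨m, rfl⟩ := hn
  rcases Nat.lt_or_ge m 4 with h | h
  · have h4 : m = 0 ∨ m = 1 ∨ m = 2 ∨ m = 3 := by omega
    rcases h4 with rfl | rfl | rfl | rfl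
    · haveI : Subsingleton (alternatingGroup (Fin (0 + 0))) := ⟨by decide⟩
      exact main_trivial
    · haveI : Subsingleton (alternatingGroup (Fin (1 + 1))) := ⟨by decide⟩
      exact main_trivial
    · exact main4
    · exact main6
  · have h2 : m + m = 2 * m := by ring
    rw [h2]
    exact main h

end MP7f
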