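import Pool.Agent.Lib.MP_7f581e_nt.Rho

namespace MP7f

open Polynomial Equiv

section general

theorem assemble {F L : Type*} [Field F] [Field L] (ψ : F →+* L) (H : Type*) [Group H] [Finite H]
    [MulSemiringAction H L] [FaithfulSMul H L] (h1 : ∀ (h : H) (k : F), h • ψ k = ψ k)
    (h2 : ∀ b : L, (∀ h : H, h • b = b) → ∃ k, ψ k = b) {n : ℕ}
    (e : H ≃* alternatingGroup (Fin n)) :
    ∃ _ : Algebra F L, FiniteDimensional F L ∧ IsGalois F L ∧
      Nonempty ((L ≃ₐ[F] L) ≃* alternatingGroup (Fin n)) := by
  refine ⟨ψ.toAlgebra, ?_⟩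
  letI : Algebra F L := ψ.toAlgebra
  haveI : SMulCommClass H F L := ⟨fun h k x => by
    rw [Algebra.smul_def, Algebra.smul_def, smul_mul']
    congr 1
    exact h1 h k⟩
  haveI : IsGaloisGroup H F L :=
    { faithful := inferInstance
      commutes := inferInstance
      isInvariant := ⟨h2⟩ }
  refine ⟨IsGaloisGroup.finiteDimensional H F L, IsGaloisGroup.isGalois H F L, ⟨?_⟩⟩
  exact (IsGaloisGroup.mulEquivAlgEquiv H F L).symm.trans e

theorem ringHom_ext_K2 {L : Type*} [Field L] (f g : K2 →+* L) (h : f RatFunc.X = g RatFunc.X) :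
    f = g := by
  apply IsLocalization.ringHom_ext (nonZeroDivisors R1)
  apply Polynomial.ringHom_ext
  · intro a
    exact DFunLike.congr_fun
      (Subsingleton.elim ((f.comp (algebraMap R1 K2)).comp (C : ZMod 2 →+* R1))
        ((g.comp (algebraMap R1 K2)).comp (C : ZMod 2 →+* R1))) a
  · simpa only [RingHom.comp_apply, RatFunc.algebraMap_X] using h

end general

section sign
variable {L : Type*} [Field L] [Algebra K2 L] {f : K2[X]} {n : ℕ}

theorem sign_even (e : f.rootSet L ≃ Fin n) (w : K2) (σ : L ≃ₐ[K2] L)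
    (h : Perm.sign (rho e σ) = 1) :
    σ (vE (fun i => ((e.symm i : f.rootSet L) : L)) /
      vP (fun i => ((e.symm i : f.rootSet L) : L)) + algebraMap K2 L w) =
    vE (fun i => ((e.symm i : f.rootSet L) : L)) /
      vP (fun i => ((e.symm i : f.rootSet L) : L)) + algebraMap K2 L w := by
  have hc : ((σ : L →+* L) ∘ fun i => ((e.symm i : f.rootSet L) : L)) =
      (fun i => ((e.symm i : f.rootSet L) : L)) ∘ rho e σ := by
    funext i
    exact (rho_spec e σ i).symm
  have h1 := map_vE (σ : L →+* L) (fun i => ((e.symm i : f.rootSet L) : L))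
  have h2 := map_vP (σ : L →+* L) (fun i => ((e.symm i : f.rootSet L) : L))
  rw [hc, vE_comp_even _ _ h] at h1
  rw [hc, vP_comp] at h2
  simp only [RingHom.coe_coe] at h1 h2
  rw [map_add, map_div₀, h1, h2, AlgEquiv.commutes]

theorem sign_odd (e : f.rootSet L ≃ Fin n) (w : K2) (σ : L ≃ₐ[K2] L)
    (hP : vP (fun i => ((e.symm i : f.rootSet L) : L)) ≠ 0)
    (h : Perm.sign (rho e σ) = -1) :
    σ (vE (fun i => ((e.symm i : f.rootSet L) : L)) /
      vP (fun i => ((e.symm i : f.rootSet L) : L)) + algebraMap K2 L w) =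
    vE (fun i => ((e.symm i : f.rootSet L) : L)) /
      vP (fun i => ((e.symm i : f.rootSet L) : L)) + algebraMap K2 L w + 1 := by
  have hc : ((σ : L →+* L) ∘ fun i => ((e.symm i : f.rootSet L) : L)) =
      (fun i => ((e.symm i : f.rootSet L) : L)) ∘ rho e σ := by
    funext i
    exact (rho_spec e σ i).symm
  have h1 := map_vE (σ : L →+* L) (fun i => ((e.symm i : f.rootSet L) : L))
  have h2 := map_vP (σ : L →+* L) (fun i => ((e.symm i : f.rootSet L) : L))
  rw [hc, vE_comp_odd _ _ h] at h1
  rw [hc, vP_comp] at h2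
  simp only [RingHom.coe_coe] at h1 h2
  haveI : CharP L 2 := charP_of_injective_algebraMap (algebraMap K2 L).injective 2
  have two0 : (2 : L) = 0 := CharTwo.two_eq_zero
  rw [map_add, map_div₀, h1, h2, AlgEquiv.commutes, sub_div, div_self hP]
  set q := vE (fun i => ((e.symm i : f.rootSet L) : L)) /
      vP (fun i => ((e.symm i : f.rootSet L) : L))
  linear_combination -q * two0

end sign

section main
variable {L : Type*} [Field L] [Algebra K2 L]
variable [Algebra (ZMod 2) L] [IsScalarTower (ZMod 2) K2 L]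

theorem t_transcendental {t : L} {c : K2} (hc : c = 0 ∨ c = 1)
    (ht : t ^ 2 + t = algebraMap K2 L (c + 1 / (1 + RatFunc.X))) :
    Transcendental (ZMod 2) t := by
  intro halg
  have h1 : IsAlgebraic (ZMod 2) (algebraMap K2 L (c + 1 / (1 + RatFunc.X))) := by
    rw [← ht]; exact (halg.pow 2).add halg
  rw [isAlgebraic_algebraMap_iff (algebraMap K2 L).injective] at h1
  have hca : IsAlgebraic (ZMod 2) c := by
    rcases hc with rfl | rfl
    · exact isAlgebraic_zero
    · exact isAlgebraic_one
  have h2 : IsAlgebraic (ZMod 2) (1 / (1 + RatFunc.X) : K2) := by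
    have := h1.sub hca
    rwa [add_sub_cancel_left] at this
  rw [one_div] at h2
  have h3 := h2.inv
  rw [inv_inv] at h3
  have h4 := h3.sub (isAlgebraic_one (R := ZMod 2) (A := K2))
  rw [add_sub_cancel_left] at h4
  exact RatFunc.transcendental_X h4

theorem range_contains {t : L} {c : K2} (hc : c = 0 ∨ c = 1)
    (ht : t ^ 2 + t = algebraMap K2 L (c + 1 / (1 + RatFunc.X))) (k : K2) :
    algebraMap K2 L k ∈ (subst t (t_transcendental hc ht)).fieldRange := by
  apply mem_subst_range
  have htr : t ∈ (subst t (t_transcendental hc ht)).fieldRange := ⟨RatFunc.X, subst_X _ _⟩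
  have hcr : algebraMap K2 L c ∈ (subst t (t_transcendental hc ht)).fieldRange := by
    rcases hc with h | h
    · have : algebraMap K2 L c = 0 := by rw [h, map_zero]
      rw [this]; exact zero_mem _
    · have : algebraMap K2 L c = 1 := by rw [h, map_one]
      rw [this]; exact one_mem _
  have h1 : (algebraMap K2 L (1 + RatFunc.X)) ≠ 0 := by
    rw [Ne, map_eq_zero_iff _ (algebraMap K2 L).injective]
    exact one_add_X_ne
  have h2 : algebraMap K2 L RatFunc.X = (t ^ 2 + t - algebraMap K2 L c)⁻¹ - 1 := by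
    rw [ht, map_add, add_sub_cancel_left, map_div₀, map_one, one_div, inv_inv, map_add, map_one]
    ring
  rw [h2]
  exact sub_mem (inv_mem (sub_mem (add_mem (pow_mem htr 2) htr) hcr)) (one_mem _)

end main

/-- The general realisation theorem. -/
theorem realise {n : ℕ} (f : K2[X]) (hmonic : f.Monic) (hsep : f.Separable)
    (hdeg : f.natDegree = n)
    (halt : ∀ e : f.rootSet f.SplittingField ≃ Fin n,
      f.map (algebraMap K2 f.SplittingField) =
        ∏ i, (X - C ((e.symm i : f.rootSet f.SplittingField) : f.SplittingField)) →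
      alternatingGroup (Fin n) ≤ (rho e).range)
    (β : K2) (hβ : β = 0 ∨ ∃ c : K2, (c = 0 ∨ c = 1) ∧ β = c + 1 / (1 + RatFunc.X))
    (hsign : ∀ y : Fin n → f.SplittingField, Function.Injective y →
      f.map (algebraMap K2 f.SplittingField) = ∏ i, (X - C (y i)) →
      ∃ w : K2, vP y ≠ 0 ∧
        (vE y / vP y + algebraMap K2 f.SplittingField w) ^ 2 +
          (vE y / vP y + algebraMap K2 f.SplittingField w) =
        algebraMap K2 f.SplittingField β) :
    ∃ (L : Type) (_ : Field L) (_ : Algebra K2 L), FiniteDimensional K2 L ∧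
      IsGalois K2 L ∧ Nonempty ((L ≃ₐ[K2] L) ≃* alternatingGroup (Fin n)) := by
  classical
  let L := f.SplittingField
  haveI : IsGalois K2 L := IsGalois.of_separable_splitting_field hsep
  have hsp : (f.map (algebraMap K2 L)).Splits := SplittingField.splits f
  have hgen : Algebra.adjoin K2 (f.rootSet L) = ⊤ := SplittingField.adjoin_rootSet f
  obtain ⟨e, hy⟩ := exists_enum f hmonic hsep hsp hdeg
  have halt' := halt e hy
  obtain ⟨w, hP, ht⟩ := hsign _ (yinj e) hy
  set t : L := vE (fun i => ((e.symm i : f.rootSet L) : L)) /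
      vP (fun i => ((e.symm i : f.rootSet L) : L)) + algebraMap K2 L w with htdef
  have heven : ∀ σ : L ≃ₐ[K2] L, Perm.sign (rho e σ) = 1 → σ t = t :=
    fun σ hσ => sign_even e w σ hσ
  have hodd : ∀ σ : L ≃ₐ[K2] L, Perm.sign (rho e σ) = -1 → σ t = t + 1 :=
    fun σ hσ => sign_odd e w σ hP hσ
  clear htdef
  clear_value t
  haveI : CharP L 2 := charP_of_injective_algebraMap (algebraMap K2 L).injective 2
  have two0 : (2 : L) = 0 := CharTwo.two_eq_zero
  let H : Subgroup (L ≃ₐ[K2] L) := (alternatingGroup (Fin n)).comap (rho e)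
  have memH : ∀ σ : L ≃ₐ[K2] L, σ ∈ H ↔ Perm.sign (rho e σ) = 1 := by
    intro σ
    rw [Subgroup.mem_comap, Perm.mem_alternatingGroup]
  have eH : H ≃* alternatingGroup (Fin n) := by
    refine MulEquiv.ofBijective ((rho e).subgroupComap (alternatingGroup (Fin n))) ⟨?_, ?_⟩
    · intro a b hab
      apply Subtype.ext
      apply rho_injective e hgen
      exact congrArg Subtype.val hab
    · intro g
      obtain ⟨σ, hσ⟩ := halt' g.2
      exact ⟨⟨σ, by rw [Subgroup.mem_comap, hσ]; exact g.2⟩, Subtype.ext hσ⟩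
  rcases hβ with h0 | ⟨c, hc, hβ⟩
  · -- the group is already alternating
    have ht' : t * (t + 1) = 0 := by
      rw [h0, map_zero] at ht
      linear_combination ht
    have hfix : ∀ σ : L ≃ₐ[K2] L, σ t = t := by
      intro σ
      rcases mul_eq_zero.mp ht' with h | h
      · rw [h, map_zero]
      · have : t = -1 := by linear_combination h
        rw [this, map_neg, map_one]
    have hall : ∀ σ : L ≃ₐ[K2] L, Perm.sign (rho e σ) = 1 := by
      intro σ
      rcases sign_cases (rho e σ) with h | h
      · exact h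
      · exfalso
        have h1 := hodd σ h
        rw [hfix σ] at h1
        exact one_ne_zero (α := L) (by linear_combination -h1)
    have htop : H = ⊤ := by
      ext σ
      simp [memH, hall]
    refine ⟨L, inferInstance, inferInstance, inferInstance, inferInstance, ⟨?_⟩⟩
    exact (Subgroup.topEquiv.symm.trans (MulEquiv.subgroupCongr htop.symm)).trans eH
  rw [hβ] at ht
  refine ⟨L, inferInstance, ?_⟩
  refine assemble (subst t (t_transcendental hc ht)) H ?_ ?_ eH
  · intro σ k
    have h1 : ((σ.1 : L →+* L).comp (subst t (t_transcendental hc ht))) =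
        subst t (t_transcendental hc ht) := by
      apply ringHom_ext_K2
      rw [RingHom.comp_apply, subst_X]
      exact heven σ.1 ((memH _).mp σ.2)
    exact DFunLike.congr_fun h1 k
  · intro b hb
    by_cases hall : ∀ σ : L ≃ₐ[K2] L, Perm.sign (rho e σ) = 1
    · have h1 : ∀ σ : L ≃ₐ[K2] L, σ b = b := fun σ => hb ⟨σ, (memH σ).mpr (hall σ)⟩
      obtain ⟨k, hk⟩ := (IsGalois.mem_range_algebraMap_iff_fixed b).mpr h1
      rw [← hk]
      exact range_contains hc ht k
    · push Not at hall
      obtain ⟨τ, hτ⟩ := hall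
      have hτ' : Perm.sign (rho e τ) = -1 := (sign_cases _).resolve_left hτ
      have hbH : ∀ σ : L ≃ₐ[K2] L, Perm.sign (rho e σ) = 1 → σ b = b :=
        fun σ hσ => hb ⟨σ, (memH σ).mpr hσ⟩
      have hE1 : ∀ σ : L ≃ₐ[K2] L, Perm.sign (rho e σ) = 1 → σ (τ b) = τ b := by
        intro σ hσ
        have h1 : Perm.sign (rho e (τ⁻¹ * (σ * τ))) = 1 := by
          simp only [map_mul, map_inv, hσ, hτ']; decide
        have h2 := hbH _ h1
        have h3 := congrArg τ h2
        simpa [AlgEquiv.mul_apply] using h3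
      have hO1 : ∀ σ : L ≃ₐ[K2] L, Perm.sign (rho e σ) = -1 → σ b = τ b := by
        intro σ hσ
        have h1 : Perm.sign (rho e (τ⁻¹ * σ)) = 1 := by
          simp only [map_mul, map_inv, hσ, hτ']; decide
        have h2 := hbH _ h1
        have h3 := congrArg τ h2
        simpa [AlgEquiv.mul_apply] using h3
      have hO2 : ∀ σ : L ≃ₐ[K2] L, Perm.sign (rho e σ) = -1 → σ (τ b) = b := by
        intro σ hσ
        have h1 : Perm.sign (rho e (σ * τ)) = 1 := by
          simp only [map_mul, hσ, hτ']; decide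
        exact hbH _ h1
      have hs : ∀ σ : L ≃ₐ[K2] L, σ (b + τ b) = b + τ b := by
        intro σ
        rcases sign_cases (rho e σ) with h | h
        · rw [map_add, hbH σ h, hE1 σ h]
        · rw [map_add, hO1 σ h, hO2 σ h, add_comm]
      have hr : ∀ σ : L ≃ₐ[K2] L, σ (t * b + (t + 1) * τ b) = t * b + (t + 1) * τ b := by
        intro σ
        rcases sign_cases (rho e σ) with h | h
        · rw [map_add, map_mul, map_mul, map_add, map_one, heven σ h, hbH σ h, hE1 σ h]
        · rw [map_add, map_mul, map_mul, map_add, map_one, hodd σ h, hO1 σ h, hO2 σ h]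
          linear_combination b * two0
      obtain ⟨s, hs'⟩ := (IsGalois.mem_range_algebraMap_iff_fixed (b + τ b)).mpr hs
      obtain ⟨r, hr'⟩ := (IsGalois.mem_range_algebraMap_iff_fixed (t * b + (t + 1) * τ b)).mpr hr
      have hb' : b = algebraMap K2 L r + (t + 1) * algebraMap K2 L s := by
        rw [hs', hr']
        linear_combination -(t * b + (t + 1) * τ b) * two0
      have hmem : b ∈ (subst t (t_transcendental hc ht)).fieldRange := by
        rw [hb']
        exact add_mem (range_contains hc ht r) (mul_mem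
          (add_mem ⟨RatFunc.X, subst_X _ _⟩ (one_mem _)) (range_contains hc ht s))
      exact hmem

end MP7f
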