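import Pool.Agent.Lib.MP_7f581e_nt.Sign

namespace MP7f

open Polynomial

/-- The family of polynomials. -/
noncomputable def Fpol {R : Type*} [CommRing R] (a v : R) (m : ℕ) : R[X] :=
  X ^ (2 * m) + X ^ (2 * m - 1) + X ^ (2 * m - 2) + C a * X ^ 4 + C a * X ^ 3 + C v * (X + 1)

theorem map_Fpol {R S : Type*} [CommRing R] [CommRing S] (g : R →+* S) (a v : R) (m : ℕ) :
    (Fpol a v m).map g = Fpol (g a) (g v) m := by
  simp [Fpol]

theorem coeff_Fpol {R : Type*} [CommRing R] (a v : R) (m : ℕ) (hm : 4 ≤ m) (j : ℕ) (hj : j ≤ 6) :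
    (Fpol a v m).coeff (2 * m - j) = if j ≤ 2 then 1 else
      if (m = 4 ∧ (j = 4 ∨ j = 5)) ∨ (m = 5 ∧ j = 6) then a else 0 := by
  unfold Fpol
  simp only [mul_add, coeff_add, coeff_X_pow, coeff_C_mul, mul_one, coeff_X, coeff_C]
  have h3 : ¬ (1 = 2 * m - j) := by omega
  have h4 : ¬ (2 * m - j = 0) := by omega
  have e0 : (2 * m - j = 2 * m) ↔ j = 0 := by omega
  have e1 : (2 * m - j = 2 * m - 1) ↔ j = 1 := by omega
  have e2 : (2 * m - j = 2 * m - 2) ↔ j = 2 := by omega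
  have e4 : (2 * m - j = 4) ↔ (m = 4 ∧ j = 4) ∨ (m = 5 ∧ j = 6) := by omega
  have e5 : (2 * m - j = 3) ↔ (m = 4 ∧ j = 5) := by omega
  simp only [h3, h4, e0, e1, e2, e4, e5, if_false]
  interval_cases j <;> simp

theorem prod_sub_ne {n : ℕ} {Ω : Type*} [CommRing Ω] (y : Fin n → Ω) :
    ∏ i, ∏ j ∈ Finset.univ.erase i, (y i - y j) =
      (-1) ^ (∑ i : Fin n, (Finset.Ioi i).card) * vV y ^ 2 := by
  have h1 : ∀ i : Fin n, ∏ j ∈ Finset.univ.erase i, (y i - y j) =
      (∏ j ∈ Finset.Ioi i, (y i - y j)) * ∏ j ∈ Finset.Iio i, (y i - y j) := by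
    intro i
    rw [← Finset.prod_union]
    · congr 1
      ext j
      simp only [Finset.mem_erase, Finset.mem_univ, and_true, Finset.mem_union, Finset.mem_Ioi,
        Finset.mem_Iio]
      constructor
      · intro h; exact (lt_or_gt_of_ne h).symm
      · rintro (h | h)
        · exact ne_of_gt h
        · exact ne_of_lt h
    · rw [Finset.disjoint_left]
      intro j hj hj'
      simp only [Finset.mem_Ioi, Finset.mem_Iio] at hj hj'
      exact absurd hj (not_lt_of_gt hj')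
  rw [Finset.prod_congr rfl (fun i _ => h1 i), Finset.prod_mul_distrib]
  have h2 : ∏ i : Fin n, ∏ j ∈ Finset.Iio i, (y i - y j) = vV y := by
    rw [vV, Matrix.det_vandermonde]
    rw [Finset.prod_comm' (s' := fun j => Finset.Ioi j) (t' := Finset.univ)]
    intro i j; simp
  have h3 : ∏ i : Fin n, ∏ j ∈ Finset.Ioi i, (y i - y j) =
      (-1) ^ (∑ i : Fin n, (Finset.Ioi i).card) * vV y := by
    rw [vV, Matrix.det_vandermonde, ← Finset.prod_pow_eq_pow_sum, ← Finset.prod_mul_distrib]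
    refine Finset.prod_congr rfl fun i _ => ?_
    rw [← Finset.prod_const, ← Finset.prod_mul_distrib]
    refine Finset.prod_congr rfl fun j _ => ?_
    ring
  rw [h2, h3]; ring

theorem sum_card_Ioi (m : ℕ) : (-1 : ℤ) ^ (∑ i : Fin (2 * m), (Finset.Ioi i).card) = (-1) ^ m := by
  have h : ∀ n : ℕ, ∑ i : Fin n, (Finset.Ioi i).card = n * (n - 1) / 2 := by
    intro n
    have h1 : ∑ i : Fin n, (Finset.Ioi i).card = ∑ i ∈ Finset.range n, i := by
      rw [← Finset.sum_range_reflect, ← Fin.sum_univ_eq_sum_range]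
      refine Finset.sum_congr rfl fun i _ => ?_
      simp
    rw [h1, Finset.sum_range_id]
  rw [h]
  rcases Nat.eq_zero_or_pos m with rfl | hm
  · simp
  have h2 : 2 * m * (2 * m - 1) / 2 = 2 * (m * (m - 1)) + m := by
    obtain ⟨k, rfl⟩ : ∃ k, m = k + 1 := ⟨m - 1, by omega⟩
    have : 2 * (k + 1) * (2 * (k + 1) - 1) = 2 * (2 * ((k + 1) * (k + 1 - 1)) + (k + 1)) := by
      have : 2 * (k + 1) - 1 = 2 * k + 1 := by omega
      rw [this, Nat.add_sub_cancel]; ring
    rw [this, Nat.mul_div_cancel_left _ (by norm_num)]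
  rw [h2, pow_add, pow_mul]; simp

theorem eval_derivative_prod {n : ℕ} {Ω : Type*} [CommRing Ω] (y : Fin n → Ω) (i : Fin n) :
    (derivative (∏ j, (X - C (y j)))).eval (y i) =
      ∏ j ∈ Finset.univ.erase i, (y i - y j) := by
  rw [← Finset.mul_prod_erase Finset.univ _ (Finset.mem_univ i), derivative_mul]
  simp [eval_prod]

end MP7f
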