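import Pool.Agent.Lib.MP_7f581e_nt.Disc

namespace MP7f

open Polynomial

/-- Expansion of a product modulo `8`. -/
theorem prod_expand {Ω ι : Type*} [Field Ω] [CharZero Ω] [DecidableEq ι] (O : Subring Ω)
    (s : Finset ι) (τ ξ : ι → Ω) (hτ0 : ∀ i, τ i ≠ 0) (hτ : ∀ i, τ i ∈ O) (hξ : ∀ i, ξ i ∈ O) :
    (∏ i ∈ s, τ i) ∈ O ∧ (∏ i ∈ s, τ i) * (∑ i ∈ s, ξ i / τ i) ∈ O ∧
    (∏ i ∈ s, τ i) * (((∑ i ∈ s, ξ i / τ i) ^ 2 - ∑ i ∈ s, (ξ i / τ i) ^ 2) / 2) ∈ O ∧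
    ∃ r ∈ O, ∏ i ∈ s, (τ i + 2 * ξ i) = (∏ i ∈ s, τ i) *
      (1 + 2 * (∑ i ∈ s, ξ i / τ i) +
        2 * ((∑ i ∈ s, ξ i / τ i) ^ 2 - ∑ i ∈ s, (ξ i / τ i) ^ 2)) + 8 * r := by
  induction s using Finset.induction_on with
  | empty =>
    refine ⟨by simp [O.one_mem], by simp [O.zero_mem], by simp [O.zero_mem], 0, O.zero_mem,
      by simp⟩
  | insert a s ha ih =>
    obtain ⟨h1, h2, h3, r, hr, h4⟩ := ih
    rw [Finset.prod_insert ha, Finset.sum_insert ha, Finset.prod_insert ha,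
      Finset.sum_insert ha]
    set t := ∏ i ∈ s, τ i with ht
    set s1 := ∑ i ∈ s, ξ i / τ i with hs1
    set s2 := ∑ i ∈ s, (ξ i / τ i) ^ 2 with hs2
    have hx : τ a * (ξ a / τ a) = ξ a := mul_div_cancel₀ _ (hτ0 a)
    set x := ξ a / τ a with hxd
    refine ⟨O.mul_mem (hτ a) h1, ?_, ?_, ?_⟩
    · have : τ a * t * (x + s1) = τ a * (t * s1) + t * ξ a := by rw [← hx]; ring
      rw [this]
      exact O.add_mem (O.mul_mem (hτ a) h2) (O.mul_mem h1 (hξ a))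
    · have : τ a * t * (((x + s1) ^ 2 - (x ^ 2 + s2)) / 2) =
          τ a * (t * ((s1 ^ 2 - s2) / 2)) + ξ a * (t * s1) := by rw [← hx]; ring
      rw [this]
      exact O.add_mem (O.mul_mem (hτ a) h3) (O.mul_mem (hξ a) h2)
    · refine ⟨ξ a * (t * ((s1 ^ 2 - s2) / 2)) + r * (τ a + 2 * ξ a), ?_, ?_⟩
      · refine O.add_mem (O.mul_mem (hξ a) h3) (O.mul_mem hr (O.add_mem (hτ a) ?_))
        exact O.mul_mem (by exact_mod_cast natCast_mem O 2) (hξ a)
      · rw [h4, ← hx]; ring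

section

variable {Ω : Type*} [Field Ω] [CharZero Ω] {m : ℕ} {a v : Ω} {y : Fin (2 * m) → Ω}

theorem root_eq (h : Fpol a v m = ∏ i, (X - C (y i))) (i : Fin (2 * m)) :
    y i ^ (2 * m) + y i ^ (2 * m - 1) + y i ^ (2 * m - 2) + a * y i ^ 4 + a * y i ^ 3 +
      v * (y i + 1) = 0 := by
  have h1 := congrArg (eval (y i)) h
  rw [eval_prod, Finset.prod_eq_zero (Finset.mem_univ i) (by simp)] at h1
  simpa [Fpol] using h1

theorem prod_y (hm : 4 ≤ m) (h : Fpol a v m = ∏ i, (X - C (y i))) : ∏ i, y i = v := by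
  have h1 := congrArg (eval 0) h
  rw [eval_prod] at h1
  have h2 : ∏ i, eval 0 (X - C (y i)) = ∏ i, y i := by
    simp only [eval_sub, eval_X, eval_C, zero_sub]
    rw [Finset.prod_neg]; simp
  rw [h2] at h1
  rw [← h1]
  simp only [Fpol, eval_add, eval_pow, eval_X, eval_mul, eval_C, eval_one]
  rw [zero_pow (by omega), zero_pow (by omega), zero_pow (by omega)]; simp

theorem y_ne_zero (hm : 4 ≤ m) (h : Fpol a v m = ∏ i, (X - C (y i))) (hv : v ≠ 0)
    (i : Fin (2 * m)) : y i ≠ 0 := by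
  intro h0
  apply hv
  rw [← prod_y hm h]
  exact Finset.prod_eq_zero (Finset.mem_univ i) h0

theorem prod_q (hm : 4 ≤ m) (h : Fpol a v m = ∏ i, (X - C (y i))) {ω : Ω}
    (hω : ω ^ 2 + ω + 1 = 0) : ∏ i, (y i ^ 2 + y i + 1) = (a + v) ^ 2 := by
  have key : ∀ ρ : Ω, ρ ^ 2 + ρ + 1 = 0 → ∏ i, (ρ - y i) = (a + v) * (ρ + 1) := by
    intro ρ hρ
    have h1 := congrArg (eval ρ) h
    rw [eval_prod] at h1
    simp only [eval_sub, eval_X, eval_C] at h1
    rw [← h1]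
    simp only [Fpol, eval_add, eval_pow, eval_X, eval_mul, eval_C, eval_one]
    have e1 : ρ ^ (2 * m) = ρ ^ (2 * m - 2) * ρ ^ 2 := by rw [← pow_add]; congr 1; omega
    have e2 : ρ ^ (2 * m - 1) = ρ ^ (2 * m - 2) * ρ := by
      rw [← pow_succ]; congr 1; omega
    rw [e1, e2]
    linear_combination (ρ ^ (2 * m - 2) + a * (ρ ^ 2 - 1)) * hρ
  have h1 := key ω hω
  have h2 := key (-1 - ω) (by linear_combination hω)
  have h3 : ∏ i, (y i ^ 2 + y i + 1) = (∏ i, (ω - y i)) * ∏ i, (-1 - ω - y i) := by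
    rw [← Finset.prod_mul_distrib]
    refine Finset.prod_congr rfl fun i _ => ?_
    linear_combination hω
  rw [h3, h1, h2]
  linear_combination -(a + v) ^ 2 * hω

theorem deriv_eval (hm : 4 ≤ m) (x : Ω) : (derivative (Fpol a v m)).eval x =
    2 * m * x ^ (2 * m - 1) + (2 * m - 1) * x ^ (2 * m - 2) + (2 * m - 2) * x ^ (2 * m - 3) +
      4 * a * x ^ 3 + 3 * a * x ^ 2 + v := by
  unfold Fpol
  simp only [derivative_add, derivative_X_pow, derivative_mul, derivative_C, derivative_X,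
    derivative_one, eval_add, eval_mul, eval_pow, eval_X, eval_C, eval_zero, eval_one]
  have e1 : 2 * m - 1 - 1 = 2 * m - 2 := by omega
  have e2 : 2 * m - 2 - 1 = 2 * m - 3 := by omega
  have c1 : ((2 * m - 1 : ℕ) : Ω) = 2 * m - 1 := by
    rw [Nat.cast_sub (by omega)]; simp
  have c2 : ((2 * m - 2 : ℕ) : Ω) = 2 * m - 2 := by
    rw [Nat.cast_sub (by omega)]; simp
  rw [e1, e2, c1, c2]
  simp
  ring

/-- The numerator. -/
def xi (a v M y : Ω) : Ω :=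
  (2 - M) * a * y ^ 6 + 2 * (2 - M) * a * y ^ 5 + (5 - 2 * M) * a * y ^ 4 +
    (1 - 2 * M) * v * y ^ 2 + 2 * (1 - M) * v * y + (1 - M) * v

/-- The middle coefficient. -/
def t3 (a v M : Ω) : Ω := (5 - 2 * M) * a + (1 - 2 * M) * v

theorem deriv_rel (hm : 4 ≤ m) (h : Fpol a v m = ∏ i, (X - C (y i))) (i : Fin (2 * m)) :
    (y i ^ 2 + y i + 1) * y i * (derivative (Fpol a v m)).eval (y i) =
      t3 a v m * y i ^ 3 + 2 * xi a v m (y i) := by
  rw [deriv_eval hm]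
  have h1 := root_eq h i
  have e1 : y i ^ (2 * m) = y i ^ (2 * m - 3) * y i ^ 3 := by rw [← pow_add]; congr 1; omega
  have e2 : y i ^ (2 * m - 1) = y i ^ (2 * m - 3) * y i ^ 2 := by
    rw [← pow_add]; congr 1; omega
  have e3 : y i ^ (2 * m - 2) = y i ^ (2 * m - 3) * y i := by
    rw [← pow_succ]; congr 1; omega
  rw [e1, e2, e3] at h1
  rw [e2, e3]
  unfold t3 xi
  linear_combination (2 * m * y i ^ 2 + (2 * m - 1) * y i + (2 * m - 2)) * h1

theorem prod_main (hm : 4 ≤ m) (h : Fpol a v m = ∏ i, (X - C (y i))) {ω : Ω}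
    (hω : ω ^ 2 + ω + 1 = 0) :
    v * (a + v) ^ 2 * ((-1) ^ m * vV y ^ 2) =
      ∏ i, (t3 a v m * y i ^ 3 + 2 * xi a v m (y i)) := by
  have h1 : ∏ i, (derivative (Fpol a v m)).eval (y i) = (-1) ^ m * vV y ^ 2 := by
    have h2 : ∀ i, (derivative (Fpol a v m)).eval (y i) =
        ∏ j ∈ Finset.univ.erase i, (y i - y j) := by
      intro i; rw [h, eval_derivative_prod]
    rw [Finset.prod_congr rfl (fun i _ => h2 i), prod_sub_ne]
    have := congrArg (Int.cast : ℤ → Ω) (sum_card_Ioi m)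
    simp only [Int.cast_pow, Int.cast_neg, Int.cast_one] at this
    rw [this]
  have h3 : (∏ i, y i) * (∏ i, (y i ^ 2 + y i + 1)) *
      (∏ i, (derivative (Fpol a v m)).eval (y i)) =
      v * (a + v) ^ 2 * ((-1) ^ m * vV y ^ 2) := by
    rw [h1, prod_q hm h hω, prod_y hm h]
  rw [← h3, ← Finset.prod_mul_distrib, ← Finset.prod_mul_distrib]
  refine Finset.prod_congr rfl fun i _ => ?_
  rw [← deriv_rel hm h i]; ring

end

end MP7f
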