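import Pool.Agent.Lib.MP_7f581e_nt.Newton
import Pool.Agent.Lib.MP_7f581e_nt.Disc2

namespace MP7f

open Polynomial

/-- The reversed polynomial. -/
noncomputable def Gpol {R : Type*} [CommRing R] (b c : R) (m : ℕ) : R[X] :=
  X ^ (2 * m) + X ^ (2 * m - 1) + C b * X ^ (2 * m - 3) + C b * X ^ (2 * m - 4) +
    C c * (X ^ 2 + X + 1)

theorem coeff_Gpol {R : Type*} [CommRing R] (b c : R) (m : ℕ) (hm : 4 ≤ m) (j : ℕ) (hj : j ≤ 6) :
    (Gpol b c m).coeff (2 * m - j) =
      if j ≤ 1 then 1 else if j = 3 then b else if j = 4 then b else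
        if (m = 4 ∧ j = 6) then c else 0 := by
  unfold Gpol
  simp only [mul_add, coeff_add, coeff_X_pow, coeff_C_mul, mul_one, coeff_X, coeff_C]
  have h3 : ¬ (1 = 2 * m - j) := by omega
  have h4 : ¬ (2 * m - j = 0) := by omega
  have e0 : (2 * m - j = 2 * m) ↔ j = 0 := by omega
  have e1 : (2 * m - j = 2 * m - 1) ↔ j = 1 := by omega
  have e3 : (2 * m - j = 2 * m - 3) ↔ j = 3 := by omega
  have e4 : (2 * m - j = 2 * m - 4) ↔ j = 4 := by omega
  have e6 : (2 * m - j = 2) ↔ (m = 4 ∧ j = 6) := by omega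
  simp only [h3, h4, e0, e1, e3, e4, e6, if_false]
  interval_cases j <;> simp

/-- Indicator of the small degree eight. -/
def d4 {R : Type*} [CommRing R] (m : ℕ) : R := if m = 4 then 1 else 0

/-- Indicator of the small degree ten. -/
def d5 {R : Type*} [CommRing R] (m : ℕ) : R := if m = 5 then 1 else 0

section

variable {Ω : Type*} [Field Ω] [CharZero Ω] {m : ℕ} {a v : Ω} {y : Fin (2 * m) → Ω}

theorem pow_mul_inv_pow (t : Ω) (ht : t ≠ 0) {N k : ℕ} (hk : k ≤ N) :
    t ^ N * t⁻¹ ^ k = t ^ (N - k) := by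
  rw [inv_pow, ← pow_sub₀ t ht hk]

theorem inv_prod (hm : 4 ≤ m) (h : Fpol a v m = ∏ i, (X - C (y i))) (hv : v ≠ 0) :
    ∏ i, (X - C (y i)⁻¹) = Gpol (a / v) (1 / v) m := by
  apply eq_of_infinite_eval_eq
  have : ({0}ᶜ : Set Ω) ⊆ {x | eval x (∏ i, (X - C (y i)⁻¹)) = eval x (Gpol (a / v) (1 / v) m)} := by
    intro t ht
    have ht0 : t ≠ 0 := by simpa using ht
    simp only [Set.mem_setOf_eq, eval_prod, eval_sub, eval_X, eval_C]
    have hvne := hv
    apply mul_left_cancel₀ hvne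
    have h1 : v * ∏ i, (t - (y i)⁻¹) = t ^ (2 * m) * ∏ i, (t⁻¹ - y i) := by
      rw [← prod_y hm h]
      have h2 : t ^ (2 * m) = ∏ _i : Fin (2 * m), t := by simp
      have h3 : ∏ i, (t⁻¹ - y i) = ∏ i, (y i - t⁻¹) := by
        have : ∏ i, (t⁻¹ - y i) = ∏ i, (-(y i - t⁻¹)) :=
          Finset.prod_congr rfl fun i _ => by ring
        rw [this, Finset.prod_neg]; simp
      rw [h3, h2, ← Finset.prod_mul_distrib, ← Finset.prod_mul_distrib]
      refine Finset.prod_congr rfl fun i _ => ?_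
      have := y_ne_zero hm h hv i
      field_simp
    rw [h1]
    have h4 := congrArg (eval t⁻¹) h
    rw [eval_prod] at h4
    simp only [eval_sub, eval_X, eval_C] at h4
    rw [← h4]
    simp only [Fpol, Gpol, eval_add, eval_pow, eval_X, eval_mul, eval_C, eval_one]
    have e0 := pow_mul_inv_pow t ht0 (le_refl (2 * m))
    have e1 := pow_mul_inv_pow t ht0 (N := 2 * m) (k := 2 * m - 1) (by omega)
    have e2 := pow_mul_inv_pow t ht0 (N := 2 * m) (k := 2 * m - 2) (by omega)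
    have e3 := pow_mul_inv_pow t ht0 (N := 2 * m) (k := 3) (by omega)
    have e4 := pow_mul_inv_pow t ht0 (N := 2 * m) (k := 4) (by omega)
    have e5 := pow_mul_inv_pow t ht0 (N := 2 * m) (k := 1) (by omega)
    rw [Nat.sub_self, pow_zero] at e0
    rw [show 2 * m - (2 * m - 1) = 1 by omega, pow_one] at e1
    rw [show 2 * m - (2 * m - 2) = 2 by omega] at e2
    rw [pow_one] at e5
    have hA : v * (a / v) = a := by field_simp
    have hB : v * (1 / v) = 1 := by field_simp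
    linear_combination e0 + e1 + e2 + a * e3 + a * e4 + v * e5 -
      (t ^ (2 * m - 3) + t ^ (2 * m - 4)) * hA - (t ^ 2 + t + 1) * hB
  refine Set.Infinite.mono this ?_
  exact (Set.finite_singleton (0 : Ω)).infinite_compl

theorem ps_y (hm : 4 ≤ m) (h : Fpol a v m = ∏ i, (X - C (y i))) :
    ps y 1 = -1 ∧ ps y 2 = -1 ∧ ps y 3 = 2 ∧ ps y 4 = -1 - 4 * a * d4 m ∧ ps y 5 = -1 ∧
      ps y 6 = 2 + 6 * a * d4 m - 6 * a * d5 m := by
  have c := coeff_Fpol a v m hm
  have n1 := newton y 1 (by omega)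
  have n2 := newton y 2 (by omega)
  have n3 := newton y 3 (by omega)
  have n4 := newton y 4 (by omega)
  have n5 := newton y 5 (by omega)
  have n6 := newton y 6 (by omega)
  rw [← h] at n1 n2 n3 n4 n5 n6
  have c0 : (Fpol a v m).coeff (2 * m - 0) = 1 := by rw [c 0 (by norm_num)]; simp
  have c1 : (Fpol a v m).coeff (2 * m - 1) = 1 := by rw [c 1 (by norm_num)]; simp
  have c2 : (Fpol a v m).coeff (2 * m - 2) = 1 := by rw [c 2 (by norm_num)]; simp
  have c3 : (Fpol a v m).coeff (2 * m - 3) = 0 := by rw [c 3 (by norm_num)]; simp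
  have c4 : (Fpol a v m).coeff (2 * m - 4) = a * d4 m := by
    rw [c 4 (by norm_num)]; unfold d4; by_cases h4 : m = 4 <;> simp [h4]
  have c5 : (Fpol a v m).coeff (2 * m - 5) = a * d4 m := by
    rw [c 5 (by norm_num)]; unfold d4; by_cases h4 : m = 4 <;> simp [h4]
  have c6 : (Fpol a v m).coeff (2 * m - 6) = a * d5 m := by
    rw [c 6 (by norm_num)]; unfold d5; by_cases h4 : m = 5 <;> simp [h4]
  simp only [Finset.sum_range_succ, Finset.sum_range_zero, c0, c1, c2, c3, c4, c5, c6]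
    at n1 n2 n3 n4 n5 n6
  norm_num at n1 n2 n3 n4 n5 n6
  have p1 : ps y 1 = -1 := by linear_combination n1
  have p2 : ps y 2 = -1 := by linear_combination n2 - p1
  have p3 : ps y 3 = 2 := by linear_combination n3 - p2 - p1
  have p4 : ps y 4 = -1 - 4 * a * d4 m := by linear_combination n4 - p3 - p2
  have p5 : ps y 5 = -1 := by linear_combination n5 - p4 - p3 - a * d4 m * p1
  have p6 : ps y 6 = 2 + 6 * a * d4 m - 6 * a * d5 m := by
    linear_combination n6 - p5 - p4 - a * d4 m * p2 - a * d4 m * p1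
  exact ⟨p1, p2, p3, p4, p5, p6⟩

theorem ps_w (hm : 4 ≤ m) (h : Fpol a v m = ∏ i, (X - C (y i))) (hv : v ≠ 0) :
    ps (fun i => (y i)⁻¹) 1 = -1 ∧ ps (fun i => (y i)⁻¹) 2 = 1 ∧
    ps (fun i => (y i)⁻¹) 3 = -1 - 3 * (a / v) ∧ ps (fun i => (y i)⁻¹) 4 = 1 ∧
    ps (fun i => (y i)⁻¹) 5 = -1 ∧
    ps (fun i => (y i)⁻¹) 6 = 1 + 3 * (a / v) ^ 2 - 6 * (1 / v) * d4 m := by
  have c := coeff_Gpol (a / v) (1 / v) m hm
  have n1 := newton (fun i => (y i)⁻¹) 1 (by omega)
  have n2 := newton (fun i => (y i)⁻¹) 2 (by omega)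
  have n3 := newton (fun i => (y i)⁻¹) 3 (by omega)
  have n4 := newton (fun i => (y i)⁻¹) 4 (by omega)
  have n5 := newton (fun i => (y i)⁻¹) 5 (by omega)
  have n6 := newton (fun i => (y i)⁻¹) 6 (by omega)
  rw [inv_prod hm h hv] at n1 n2 n3 n4 n5 n6
  have c0 : (Gpol (a / v) (1 / v) m).coeff (2 * m - 0) = 1 := by rw [c 0 (by norm_num)]; simp
  have c1 : (Gpol (a / v) (1 / v) m).coeff (2 * m - 1) = 1 := by rw [c 1 (by norm_num)]; simp
  have c2 : (Gpol (a / v) (1 / v) m).coeff (2 * m - 2) = 0 := by rw [c 2 (by norm_num)]; simp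
  have c3 : (Gpol (a / v) (1 / v) m).coeff (2 * m - 3) = a / v := by
    rw [c 3 (by norm_num)]; simp
  have c4 : (Gpol (a / v) (1 / v) m).coeff (2 * m - 4) = a / v := by
    rw [c 4 (by norm_num)]; simp
  have c5 : (Gpol (a / v) (1 / v) m).coeff (2 * m - 5) = 0 := by rw [c 5 (by norm_num)]; simp
  have c6 : (Gpol (a / v) (1 / v) m).coeff (2 * m - 6) = (1 / v) * d4 m := by
    rw [c 6 (by norm_num)]; unfold d4; by_cases h4 : m = 4 <;> simp [h4]
  simp only [Finset.sum_range_succ, Finset.sum_range_zero, c0, c1, c2, c3, c4, c5, c6]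
    at n1 n2 n3 n4 n5 n6
  norm_num at n1 n2 n3 n4 n5 n6
  set p := ps (fun i => (y i)⁻¹) with hp
  set b := a / v with hb
  have p1 : p 1 = -1 := by linear_combination n1
  have p2 : p 2 = 1 := by linear_combination n2 - p1
  have p3 : p 3 = -1 - 3 * b := by linear_combination n3 - p2
  have p4 : p 4 = 1 := by linear_combination n4 - p3 - b * p1
  have p5 : p 5 = -1 := by linear_combination n5 - p4 - b * p2 - b * p1
  have p6 : p 6 = 1 + 3 * b ^ 2 - 6 * (1 / v) * d4 m := by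
    linear_combination n6 - p5 - b * p3 - b * p2
  exact ⟨p1, p2, p3, p4, p5, p6⟩

end

end MP7f
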