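import Pool.Agent.Lib.MP_7f581e_nt.Disc3

namespace MP7f

open Polynomial

section

variable {Ω : Type*} [Field Ω] [CharZero Ω] {m : ℕ} {a v : Ω} {y : Fin (2 * m) → Ω}

/-- Value of the first sum (times `t3`). -/
def sig1 (a v M : Ω) : Ω := a * (5 * M - 8) + M * v

/-- Value of the second sum (times `t3 ^ 2`). -/
def sig2 (a v M : Ω) : Ω :=
  14 - 16 * M - 50 * v * a + 164 * M * v * a - 156 * M ^ 2 * v * a + 36 * M ^ 3 * v * a +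
    5 * M ^ 2 + M ^ 2 * v ^ 2

/-- Correction of the second sum in degrees eight and ten. -/
def ext2 {R : Type*} [CommRing R] (a v M D4 D5 : R) : R :=
  6 * (2 - M) ^ 2 * a * (D4 - D5) -
    4 * a * D4 * (4 * (2 - M) ^ 2 + 2 * (2 - M) * (5 - 2 * M)) - 6 * (1 - M) ^ 2 * v * D4

theorem sum1 (hm : 4 ≤ m) (h : Fpol a v m = ∏ i, (X - C (y i))) (hv : v ≠ 0)
    (ht : t3 a v m ≠ 0) :
    ∑ i, xi a v m (y i) / (t3 a v m * y i ^ 3) = sig1 a v m / t3 a v m := by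
  obtain ⟨p1, p2, p3, p4, p5, p6⟩ := ps_y hm h
  obtain ⟨q1, q2, q3, q4, q5, q6⟩ := ps_w hm h hv
  have h1 : ∀ i, xi a v m (y i) / (t3 a v m * y i ^ 3) =
      ((2 - m) * a * y i ^ 3 + 2 * (2 - m) * a * y i ^ 2 + (5 - 2 * m) * a * y i ^ 1 +
        (1 - 2 * m) * v * (y i)⁻¹ ^ 1 + 2 * (1 - m) * v * (y i)⁻¹ ^ 2 +
        (1 - m) * v * (y i)⁻¹ ^ 3) / t3 a v m := by
    intro i
    have := y_ne_zero hm h hv i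
    unfold xi
    field_simp
  rw [Finset.sum_congr rfl (fun i _ => h1 i), ← Finset.sum_div]
  congr 1
  have h2 : ∑ i, ((2 - m) * a * y i ^ 3 + 2 * (2 - m) * a * y i ^ 2 +
        (5 - 2 * m) * a * y i ^ 1 +
        (1 - 2 * m) * v * (y i)⁻¹ ^ 1 + 2 * (1 - m) * v * (y i)⁻¹ ^ 2 +
        (1 - m) * v * (y i)⁻¹ ^ 3) =
      (2 - m) * a * ps y 3 + 2 * (2 - m) * a * ps y 2 + (5 - 2 * m) * a * ps y 1 +
        (1 - 2 * m) * v * ps (fun i => (y i)⁻¹) 1 + 2 * (1 - m) * v * ps (fun i => (y i)⁻¹) 2 +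
        (1 - m) * v * ps (fun i => (y i)⁻¹) 3 := by
    simp only [ps, Finset.sum_add_distrib, ← Finset.mul_sum]
  rw [h2, p1, p2, p3, q1, q2, q3]
  unfold sig1
  have : v * (a / v) = a := by field_simp
  linear_combination (-3) * (1 - (m : Ω)) * this

theorem sum2 (hm : 4 ≤ m) (h : Fpol a v m = ∏ i, (X - C (y i))) (hv : v ≠ 0)
    (ha : a ^ 2 = 1) (ht : t3 a v m ≠ 0) :
    ∑ i, (xi a v m (y i) / (t3 a v m * y i ^ 3)) ^ 2 =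
      (sig2 a v m + ext2 a v m (d4 m) (d5 m)) / t3 a v m ^ 2 := by
  obtain ⟨p1, p2, p3, p4, p5, p6⟩ := ps_y hm h
  obtain ⟨q1, q2, q3, q4, q5, q6⟩ := ps_w hm h hv
  obtain ⟨c3, hc3⟩ : ∃ c : Ω, c = (2 - m) * a := ⟨_, rfl⟩
  obtain ⟨c2, hc2⟩ : ∃ c : Ω, c = 2 * (2 - m) * a := ⟨_, rfl⟩
  obtain ⟨c1, hc1⟩ : ∃ c : Ω, c = (5 - 2 * m) * a := ⟨_, rfl⟩
  obtain ⟨d1, hd1⟩ : ∃ c : Ω, c = (1 - 2 * m) * v := ⟨_, rfl⟩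
  obtain ⟨d2, hd2⟩ : ∃ c : Ω, c = 2 * (1 - m) * v := ⟨_, rfl⟩
  obtain ⟨d3, hd3⟩ : ∃ c : Ω, c = (1 - m) * v := ⟨_, rfl⟩
  have h1 : ∀ i, (xi a v m (y i) / (t3 a v m * y i ^ 3)) ^ 2 =
      (c3 ^ 2 * y i ^ 6 + 2 * c3 * c2 * y i ^ 5 + (c2 ^ 2 + 2 * c3 * c1) * y i ^ 4 +
        2 * c2 * c1 * y i ^ 3 + (c1 ^ 2 + 2 * c3 * d1) * y i ^ 2 +
        (2 * c3 * d2 + 2 * c2 * d1) * y i ^ 1 +
        (2 * c3 * d3 + 2 * c2 * d2 + 2 * c1 * d1) * y i ^ 0 +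
        (2 * c2 * d3 + 2 * c1 * d2) * (y i)⁻¹ ^ 1 + (d1 ^ 2 + 2 * c1 * d3) * (y i)⁻¹ ^ 2 +
        2 * d1 * d2 * (y i)⁻¹ ^ 3 + (d2 ^ 2 + 2 * d1 * d3) * (y i)⁻¹ ^ 4 +
        2 * d2 * d3 * (y i)⁻¹ ^ 5 + d3 ^ 2 * (y i)⁻¹ ^ 6) / t3 a v m ^ 2 := by
    intro i
    have := y_ne_zero hm h hv i
    have hx : xi a v m (y i) = c3 * y i ^ 6 + c2 * y i ^ 5 + c1 * y i ^ 4 + d1 * y i ^ 2 +
        d2 * y i + d3 := by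
      rw [hc3, hc2, hc1, hd1, hd2, hd3]; unfold xi; ring
    rw [hx]
    field_simp
    ring
  rw [Finset.sum_congr rfl (fun i _ => h1 i), ← Finset.sum_div]
  congr 1
  have h2 : ∑ i, (c3 ^ 2 * y i ^ 6 + 2 * c3 * c2 * y i ^ 5 + (c2 ^ 2 + 2 * c3 * c1) * y i ^ 4 +
        2 * c2 * c1 * y i ^ 3 + (c1 ^ 2 + 2 * c3 * d1) * y i ^ 2 +
        (2 * c3 * d2 + 2 * c2 * d1) * y i ^ 1 +
        (2 * c3 * d3 + 2 * c2 * d2 + 2 * c1 * d1) * y i ^ 0 +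
        (2 * c2 * d3 + 2 * c1 * d2) * (y i)⁻¹ ^ 1 + (d1 ^ 2 + 2 * c1 * d3) * (y i)⁻¹ ^ 2 +
        2 * d1 * d2 * (y i)⁻¹ ^ 3 + (d2 ^ 2 + 2 * d1 * d3) * (y i)⁻¹ ^ 4 +
        2 * d2 * d3 * (y i)⁻¹ ^ 5 + d3 ^ 2 * (y i)⁻¹ ^ 6) =
      c3 ^ 2 * ps y 6 + 2 * c3 * c2 * ps y 5 + (c2 ^ 2 + 2 * c3 * c1) * ps y 4 +
        2 * c2 * c1 * ps y 3 + (c1 ^ 2 + 2 * c3 * d1) * ps y 2 +
        (2 * c3 * d2 + 2 * c2 * d1) * ps y 1 +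
        (2 * c3 * d3 + 2 * c2 * d2 + 2 * c1 * d1) * ps y 0 +
        (2 * c2 * d3 + 2 * c1 * d2) * ps (fun i => (y i)⁻¹) 1 +
        (d1 ^ 2 + 2 * c1 * d3) * ps (fun i => (y i)⁻¹) 2 +
        2 * d1 * d2 * ps (fun i => (y i)⁻¹) 3 +
        (d2 ^ 2 + 2 * d1 * d3) * ps (fun i => (y i)⁻¹) 4 +
        2 * d2 * d3 * ps (fun i => (y i)⁻¹) 5 + d3 ^ 2 * ps (fun i => (y i)⁻¹) 6 := by
    simp only [ps, Finset.sum_add_distrib, ← Finset.mul_sum]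
  have p0 : ps y 0 = 2 * m := by simp [ps]
  rw [h2, p0, p1, p2, p3, p4, p5, p6, q1, q2, q3, q4, q5, q6, hc3, hc2, hc1, hd1, hd2, hd3]
  unfold sig2 ext2
  have hva : v * (a / v) = a := by field_simp
  have hvi : v * (1 / v) = 1 := by field_simp
  have hva2 : v ^ 2 * (a / v) ^ 2 = 1 := by
    rw [← mul_pow, hva, ha]
  linear_combination (-6 * (2 - (m : Ω)) ^ 2 + 6 * (2 - (m : Ω)) * (5 - 2 * m) -
    (5 - 2 * (m : Ω)) ^ 2) * ha + (-12) * (1 - 2 * (m : Ω)) * (1 - m) * v * hva +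
    3 * (1 - (m : Ω)) ^ 2 * hva2 +
    (6 * (2 - (m : Ω)) ^ 2 * a * (d4 m - d5 m) -
      4 * a * d4 m * (4 * (2 - (m : Ω)) ^ 2 + 2 * (2 - m) * (5 - 2 * m))) * ha -
    6 * (1 - (m : Ω)) ^ 2 * v * d4 m * hvi

end

end MP7f
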