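import Pool.Agent.Lib.MP_7f581e_nt.Disc4

namespace MP7f

open Polynomial

/-- The value `E` with `a ^ 2 = 1` not yet used. -/
def valE {R : Type*} [CommRing R] (a v M : R) : R :=
  ((5 - 2 * M) * a + (1 - 2 * M) * v) ^ 2 +
    2 * ((5 - 2 * M) * a + (1 - 2 * M) * v) * (a * (5 * M - 8) + M * v) +
    2 * ((a * (5 * M - 8) + M * v) ^ 2 -
      (14 - 16 * M - 50 * v * a + 164 * M * v * a - 156 * M ^ 2 * v * a + 36 * M ^ 3 * v * a +
    5 * M ^ 2 + M ^ 2 * v ^ 2))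

section

variable {Ω : Type*} [Field Ω] [CharZero Ω] {m : ℕ} {a v : Ω} {y : Fin (2 * m) → Ω}

theorem prod_formula (O : Subring Ω) (hm : 4 ≤ m) (h : Fpol a v m = ∏ i, (X - C (y i)))
    (hv : v ≠ 0) (ha : a ^ 2 = 1) (ht : t3 a v m ≠ 0) {ω : Ω} (hω : ω ^ 2 + ω + 1 = 0)
    (haO : a ∈ O) (hvO : v ∈ O) (hyO : ∀ i, y i ∈ O) :
    ∃ r ∈ O, v * (a + v) ^ 2 * ((-1) ^ m * vV y ^ 2) =
      t3 a v m ^ (2 * m - 2) * v ^ 3 * (valE a v m - 2 * ext2 a v m (d4 m) (d5 m)) + 8 * r := by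
  have hy0 := y_ne_zero hm h hv
  have hmO : (m : Ω) ∈ O := natCast_mem O m
  have hnat : ∀ k : ℕ, (k : Ω) ∈ O := fun k => natCast_mem O k
  have h2 : (2 : Ω) ∈ O := by exact_mod_cast hnat 2
  have h5 : (5 : Ω) ∈ O := by exact_mod_cast hnat 5
  have h1 : (1 : Ω) ∈ O := O.one_mem
  have ht3 : t3 a v m ∈ O := by
    unfold t3
    exact O.add_mem (O.mul_mem (O.sub_mem h5 (O.mul_mem h2 hmO)) haO)
      (O.mul_mem (O.sub_mem h1 (O.mul_mem h2 hmO)) hvO)
  have hxi : ∀ i, xi a v m (y i) ∈ O := by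
    intro i
    unfold xi
    have c1 := O.sub_mem h2 hmO
    have c2 := O.sub_mem h5 (O.mul_mem h2 hmO)
    have c3 := O.sub_mem h1 (O.mul_mem h2 hmO)
    have c4 := O.sub_mem h1 hmO
    have hp := fun k => O.pow_mem (hyO i) k
    refine O.add_mem (O.add_mem (O.add_mem (O.add_mem (O.add_mem ?_ ?_) ?_) ?_) ?_) ?_
    · exact O.mul_mem (O.mul_mem c1 haO) (hp 6)
    · exact O.mul_mem (O.mul_mem (O.mul_mem h2 c1) haO) (hp 5)
    · exact O.mul_mem (O.mul_mem c2 haO) (hp 4)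
    · exact O.mul_mem (O.mul_mem c3 hvO) (hp 2)
    · exact O.mul_mem (O.mul_mem (O.mul_mem h2 c4) hvO) (hyO i)
    · exact O.mul_mem c4 hvO
  obtain ⟨_, _, _, r, hr, h4⟩ := prod_expand O Finset.univ
    (fun i => t3 a v m * y i ^ 3) (fun i => xi a v m (y i))
    (fun i => mul_ne_zero ht (pow_ne_zero _ (hy0 i)))
    (fun i => O.mul_mem ht3 (O.pow_mem (hyO i) 3)) hxi
  refine ⟨r, hr, ?_⟩
  rw [prod_main hm h hω, h4, sum1 hm h hv ht, sum2 hm h hv ha ht]
  have h6 : ∏ i, (t3 a v m * y i ^ 3) = t3 a v m ^ (2 * m) * v ^ 3 := by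
    rw [Finset.prod_mul_distrib, Finset.prod_pow, prod_y hm h]; simp
  have h7 : t3 a v m ^ (2 * m) = t3 a v m ^ (2 * m - 2) * t3 a v m ^ 2 := by
    rw [← pow_add]; congr 1; omega
  rw [h6, h7]
  have h8 : valE a v m = t3 a v m ^ 2 + 2 * t3 a v m * sig1 a v m +
      2 * (sig1 a v m ^ 2 - sig2 a v m) := by
    unfold valE t3 sig1 sig2; ring
  rw [h8]
  field_simp
  ring

end

/-- The coefficient ring. -/
abbrev A0 := ℤ[X]

/-- Algebraic closure of its fraction field. -/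
abbrev Om := AlgebraicClosure (FractionRing ℤ[X])

instance : CharZero (FractionRing ℤ[X]) :=
  charZero_of_injective_algebraMap (IsFractionRing.injective ℤ[X] (FractionRing ℤ[X]))

instance : CharZero Om := charZero_of_injective_algebraMap
  (algebraMap (FractionRing ℤ[X]) Om).injective

theorem algMap_inj : Function.Injective (algebraMap A0 Om) := by
  rw [IsScalarTower.algebraMap_eq A0 (FractionRing ℤ[X]) Om]
  exact (algebraMap (FractionRing ℤ[X]) Om).injective.comp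
    (IsFractionRing.injective ℤ[X] (FractionRing ℤ[X]))

theorem exists_eighth (s : A0) (r0 : Om) (hr : IsIntegral A0 r0)
    (h : algebraMap A0 Om s = 8 * r0) : ∃ r1 : A0, s = 8 * r1 := by
  set K := FractionRing ℤ[X]
  have h8 : (8 : K) ≠ 0 := by norm_num
  have h1 : algebraMap K Om (algebraMap A0 K s / 8) = r0 := by
    rw [map_div₀, ← IsScalarTower.algebraMap_apply, h, map_ofNat]
    field_simp
  have h2 : IsIntegral A0 (algebraMap A0 K s / 8) := by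
    rw [← h1] at hr
    exact (isIntegral_algebraMap_iff (algebraMap K Om).injective).mp hr
  obtain ⟨r1, hr1⟩ := (IsIntegrallyClosed.isIntegral_iff).mp h2
  refine ⟨r1, ?_⟩
  apply IsFractionRing.injective ℤ[X] K
  rw [map_mul, hr1, map_ofNat]
  exact (mul_div_cancel₀ _ h8).symm

theorem valE_mod0 (m : ℕ) : ∃ r : A0, (-1) ^ m * valE (C ((-1 : ℤ) ^ m)) X (m : A0) =
    (1 + X) ^ 2 + 4 * ((if m % 4 ≤ 1 then 0 else 1) * (1 + X) ^ 2 + (1 + X)) + 8 * r := by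
  obtain ⟨k, j, hj, rfl⟩ : ∃ k j, j < 4 ∧ m = 4 * k + j := ⟨m / 4, m % 4, by omega, by omega⟩
  have h1 : ((-1 : A0)) ^ (4 * k + j) = (-1) ^ j := by
    rw [pow_add, pow_mul, Even.neg_one_pow (by decide)]; simp
  have h2 : ((-1 : ℤ)) ^ (4 * k + j) = (-1) ^ j := by
    rw [pow_add, pow_mul, Even.neg_one_pow (by decide)]; simp
  have h3 : (4 * k + j) % 4 = j := by omega
  rw [h1, h2, h3]
  obtain ⟨K, hK⟩ : ∃ K : A0, K = (k : A0) := ⟨_, rfl⟩
  have h4 : ((4 * k + j : ℕ) : A0) = 4 * K + j := by rw [hK]; push_cast; ring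
  rw [h4]
  obtain ⟨x, hx⟩ : ∃ x : A0, x = X := ⟨_, rfl⟩
  rw [← hx]
  interval_cases j
  · refine ⟨5 + 11 * x - 33 * K - 166 * K * x - K * x ^ 2 + 48 * K ^ 2 + 632 * K ^ 2 * x -
      576 * K ^ 3 * x, ?_⟩
    unfold valE; simp only [pow_zero, map_one]; norm_num; ring
  · refine ⟨-1 + 9 * K + 42 * K * x + K * x ^ 2 - 48 * K ^ 2 + 200 * K ^ 2 * x -
      576 * K ^ 3 * x, ?_⟩
    unfold valE; simp only [pow_one, map_neg, map_one]; norm_num; ring
  · refine ⟨13 * x - x ^ 2 + 15 * K + 34 * K * x - K * x ^ 2 + 48 * K ^ 2 - 232 * K ^ 2 * x -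
      576 * K ^ 3 * x, ?_⟩
    unfold valE; norm_num; ring
  · refine ⟨-9 - 2 * x - 39 * K - 190 * K * x + K * x ^ 2 - 48 * K ^ 2 - 664 * K ^ 2 * x -
      576 * K ^ 3 * x, ?_⟩
    unfold valE; norm_num; ring

theorem valE_mod {m : ℕ} (hm : 4 ≤ m) : ∃ r : A0, (-1) ^ m *
      (valE (C ((-1 : ℤ) ^ m)) X (m : A0) - 2 * ext2 (C ((-1 : ℤ) ^ m)) X (m : A0) (d4 m) (d5 m)) =
    (1 + X) ^ 2 + 4 * ((if m % 4 ≤ 1 then 0 else 1) * (1 + X) ^ 2 + (1 + X) +
      (X * d4 m + d5 m)) + 8 * r := by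
  obtain ⟨r, hr⟩ := valE_mod0 m
  rcases Nat.lt_or_ge 5 m with h | h
  · have e4 : (d4 m : A0) = 0 := by unfold d4; rw [if_neg (by omega)]
    have e5 : (d5 m : A0) = 0 := by unfold d5; rw [if_neg (by omega)]
    refine ⟨r, ?_⟩
    rw [e4, e5]
    unfold ext2
    linear_combination hr
  · have h45 : m = 4 ∨ m = 5 := by omega
    rcases h45 with rfl | rfl
    · have e4 : (d4 4 : A0) = 1 := by unfold d4; rw [if_pos rfl]
      have e5 : (d5 4 : A0) = 0 := by unfold d5; rw [if_neg (by omega)]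
      refine ⟨r + 22 + 13 * X, ?_⟩
      rw [e4, e5]
      unfold ext2
      norm_num at hr ⊢
      linear_combination hr
    · have e4 : (d4 5 : A0) = 0 := by unfold d4; rw [if_neg (by omega)]
      have e5 : (d5 5 : A0) = 1 := by unfold d5; rw [if_pos rfl]
      refine ⟨r + 13, ?_⟩
      rw [e4, e5]
      unfold ext2
      norm_num at hr ⊢
      linear_combination hr

end MP7f
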