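import Pool.Agent.Lib.MP_7f581e_nt.Disc5

namespace MP7f

open Polynomial

/-- The coefficient `t3` in the ring `A0`. -/
noncomputable def TT (m : ℕ) : A0 := (5 - 2 * (m : A0)) * C ((-1 : ℤ) ^ m) + (1 - 2 * (m : A0)) * X

theorem TT_ne_zero (m : ℕ) : TT m ≠ 0 := by
  intro h
  have h1 := congrArg (fun p : A0 => p.coeff 1) h
  have h2 : TT m = C ((5 - 2 * (m : ℤ)) * (-1) ^ m) + C (1 - 2 * (m : ℤ)) * X := by
    unfold TT; simp
  rw [h2] at h1
  simp only [coeff_add, coeff_C_mul, coeff_X_one, coeff_C, mul_one, coeff_zero] at h1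
  norm_num at h1
  omega

theorem disc_cong {m : ℕ} (hm : 4 ≤ m) (y : Fin (2 * m) → Om)
    (hy : (Fpol (C ((-1 : ℤ) ^ m)) X m : A0[X]).map (algebraMap A0 Om) =
      ∏ i, (X - C (y i))) :
    ∃ d r : A0, algebraMap A0 Om d = vV y ^ 2 ∧
      (X * (C ((-1 : ℤ) ^ m) + X)) ^ 2 * d =
        (X ^ 2 * TT m ^ (m - 1) * (1 + X)) ^ 2 +
          4 * (X ^ 4 * TT m ^ (2 * m - 2) *
            ((if m % 4 ≤ 1 then 0 else 1) * (1 + X) ^ 2 + (1 + X) + (X * d4 m + d5 m))) +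
          8 * r := by
  set ι := algebraMap A0 Om with hι
  obtain ⟨α, hα⟩ : ∃ α : ℤ, α = (-1) ^ m := ⟨_, rfl⟩
  rw [← hα] at hy ⊢
  have hα2 : α ^ 2 = 1 := by rw [hα, ← pow_mul, mul_comm, pow_mul]; simp
  -- the discriminant as an element of `A0`
  obtain ⟨p, hp1, -⟩ := transfer (R := Om) (S := Om) _ (symm_vP (n := 2 * m)) (Fpol (C α) X m)
  obtain ⟨b, hb1, -⟩ := transfer (R := Om) (S := Om) _ (symm_vB (n := 2 * m)) (Fpol (C α) X m)
  have P1 : ι p = vP y := by rw [hp1 ι y hy, eval_vP]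
  have B1 : ι b = vB y := by rw [hb1 ι y hy, eval_vB]
  have hd : ι (4 * b + p ^ 2) = vV y ^ 2 := by
    rw [map_add, map_mul, map_pow, map_ofNat, B1, P1, four_vB]; ring
  -- the ring of integral elements
  set O : Subring Om := (integralClosure A0 Om).toSubring with hO
  have hOmem : ∀ x : Om, x ∈ O ↔ IsIntegral A0 x := fun x => Iff.rfl
  have hyF : (Fpol (ι (C α)) (ι X) m : Om[X]) = ∏ i, (X - C (y i)) := by
    rw [← hy, map_Fpol]
  have hmonic : (Fpol (C α) X m : A0[X]).Monic := by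
    have h1 : ((Fpol (C α) X m : A0[X]).map ι).Monic := by
      rw [hy]; exact monic_prod_of_monic _ _ fun i _ => monic_X_sub_C _
    exact (Function.Injective.monic_map_iff algMap_inj).mpr h1
  have hyO : ∀ i, y i ∈ O := by
    intro i
    rw [hOmem]
    refine ⟨Fpol (C α) X m, hmonic, ?_⟩
    rw [← eval_map, hy, eval_prod, Finset.prod_eq_zero (Finset.mem_univ i) (by simp)]
  have haO : ι (C α) ∈ O := isIntegral_algebraMap
  have hvO : ι X ∈ O := isIntegral_algebraMap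
  have hv0 : ι X ≠ 0 := by
    rw [Ne, map_eq_zero_iff ι algMap_inj]; exact X_ne_zero
  have ha2 : (ι (C α)) ^ 2 = 1 := by
    rw [← map_pow, ← map_pow, hα2]; simp
  have ht : t3 (ι (C α)) (ι X) (m : Om) = ι (TT m) := by
    unfold t3 TT
    rw [← hα]
    simp only [map_add, map_mul, map_sub, map_one, map_ofNat, map_natCast]
  have ht0 : t3 (ι (C α)) (ι X) (m : Om) ≠ 0 := by
    rw [ht, Ne, map_eq_zero_iff ι algMap_inj]; exact TT_ne_zero m
  obtain ⟨ω, hω⟩ : ∃ ω : Om, ω ^ 2 + ω + 1 = 0 := by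
    obtain ⟨z, hz⟩ := IsAlgClosed.exists_root (X ^ 2 + X + 1 : Om[X]) (by
      have : (X ^ 2 + X + 1 : Om[X]).degree = 2 := by compute_degree!
      rw [this]; norm_num)
    refine ⟨z, ?_⟩
    simpa [IsRoot] using hz
  obtain ⟨r0, hr0, hmain⟩ := prod_formula O hm hyF hv0 ha2 ht0 hω haO hvO hyO
  have hd4 : (d4 m : Om) = ι (d4 m) := by unfold d4; split_ifs <;> simp
  have hd5 : (d5 m : Om) = ι (d5 m) := by unfold d5; split_ifs <;> simp
  have hval : valE (ι (C α)) (ι X) (m : Om) - 2 * ext2 (ι (C α)) (ι X) (m : Om) (d4 m) (d5 m) =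
      ι (valE (C α) X (m : A0) - 2 * ext2 (C α) X (m : A0) (d4 m) (d5 m)) := by
    rw [hd4, hd5]
    unfold valE ext2
    simp only [map_add, map_mul, map_sub, map_pow, map_one, map_ofNat, map_natCast]
  rw [ht, hval, ← hd] at hmain
  have hmain' : ι (X * (C α + X) ^ 2 * ((-1) ^ m * (4 * b + p ^ 2)) -
      TT m ^ (2 * m - 2) * X ^ 3 *
        (valE (C α) X (m : A0) - 2 * ext2 (C α) X (m : A0) (d4 m) (d5 m))) = 8 * r0 := by
    simp only [map_sub, map_mul, map_pow, map_add, map_neg, map_one] at hmain ⊢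
    rw [hmain]
    ring
  obtain ⟨r1, hr1⟩ := exists_eighth _ r0 hr0 hmain'
  obtain ⟨r2, hr2⟩ := valE_mod hm
  refine ⟨4 * b + p ^ 2, X * (-1) ^ m * r1 + TT m ^ (2 * m - 2) * X ^ 4 * r2, hd, ?_⟩
  have hsq : ((-1 : A0) ^ m) * (-1) ^ m = 1 := by
    rw [← mul_pow]; simp
  have hTT : TT m ^ (2 * m - 2) = (TT m ^ (m - 1)) ^ 2 := by
    rw [← pow_mul]; congr 1; omega
  rw [← hα] at hr2
  rw [hTT] at hr1 ⊢
  linear_combination X * (-1) ^ m * hr1 + (TT m ^ (m - 1)) ^ 2 * X ^ 4 * hr2 -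
    X ^ 2 * (C α + X) ^ 2 * (4 * b + p ^ 2) * hsq

end MP7f
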