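import Pool.Agent.Lib.MP_7f581e_nt.Disc

namespace MP7f

open Polynomial

/-- The relation between the polynomial and its derivative in characteristic two. -/
theorem derivative_rel {R : Type*} [CommRing R] [CharP R 2] (v : R) {m : ℕ} (hm : 4 ≤ m) :
    (X ^ 2 + X + 1) * derivative (Fpol 1 v m) = Fpol 1 v m + C (1 + v) * X ^ 2 := by
  have two0 : (2 : R[X]) = 0 := CharTwo.two_eq_zero
  have h1 : derivative (Fpol 1 v m) = X ^ (2 * m - 2) + X ^ 2 + C v := by
    unfold Fpol
    simp only [derivative_add, derivative_X_pow, derivative_mul, derivative_C, derivative_X,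
      derivative_one]
    have e1 : 2 * m - 1 - 1 = 2 * m - 2 := by omega
    have c0 : ((2 * m : ℕ) : R) = 0 := by
      push_cast; rw [CharTwo.two_eq_zero]; ring
    have c1 : ((2 * m - 1 : ℕ) : R) = 1 := by
      rw [Nat.cast_sub (by omega), c0]; simp [CharTwo.neg_eq]
    have c2 : ((2 * m - 2 : ℕ) : R) = 0 := by
      rw [Nat.cast_sub (by omega), c0]; simp [CharTwo.two_eq_zero]
    have c4 : ((4 : ℕ) : R) = 0 := (CharP.cast_eq_zero_iff R 2 4).mpr (by norm_num)
    have c3 : ((3 : ℕ) : R) = 1 := by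
      have h3 : ((3 : ℕ) : R) = ((2 : ℕ) : R) + 1 := by norm_num
      rw [h3, CharP.cast_eq_zero]; ring
    rw [e1, c0, c1, c2, c3, c4]
    simp
  rw [h1]
  unfold Fpol
  obtain ⟨k, rfl⟩ : ∃ k, m = k + 1 := ⟨m - 1, by omega⟩
  have e1 : 2 * (k + 1) - 2 = 2 * k := by omega
  have e2 : 2 * (k + 1) - 1 = 2 * k + 1 := by omega
  have e3 : 2 * (k + 1) = 2 * k + 2 := by omega
  rw [e1, e2, e3]
  simp only [map_add, map_one]
  linear_combination (0 : R[X]) * two0

theorem Fpol_monic {R : Type*} [CommRing R] [Nontrivial R] (v : R) {m : ℕ} (hm : 4 ≤ m) :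
    (Fpol 1 v m).Monic ∧ (Fpol 1 v m).natDegree = 2 * m := by
  have h : Fpol 1 v m = X ^ (2 * m) +
      (X ^ (2 * m - 1) + X ^ (2 * m - 2) + X ^ 4 + X ^ 3 + C v * (X + 1)) := by
    unfold Fpol; simp only [map_one]; ring
  have hd : (X ^ (2 * m - 1) + X ^ (2 * m - 2) + X ^ 4 + X ^ 3 + C v * (X + 1) : R[X]).degree <
      ((2 * m : ℕ) : WithBot ℕ) := by
    have hb : (X ^ (2 * m - 1) + X ^ (2 * m - 2) + X ^ 4 + X ^ 3 + C v * (X + 1) : R[X]).degree ≤
      ((2 * m - 1 : ℕ) : WithBot ℕ) := by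
      refine (degree_add_le_of_degree_le (degree_add_le_of_degree_le
        (degree_add_le_of_degree_le (degree_add_le_of_degree_le ?_ ?_) ?_) ?_) ?_)
      · exact (degree_X_pow_le _)
      · exact (degree_X_pow_le _).trans (by exact_mod_cast (by omega : 2 * m - 2 ≤ 2 * m - 1))
      · exact (degree_X_pow_le _).trans (by exact_mod_cast (by omega : 4 ≤ 2 * m - 1))
      · exact (degree_X_pow_le _).trans (by exact_mod_cast (by omega : 3 ≤ 2 * m - 1))
      · have h1 : (C v * (X + 1) : R[X]).degree ≤ 1 := by compute_degree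
        exact h1.trans (by exact_mod_cast (by omega : 1 ≤ 2 * m - 1))
    exact lt_of_le_of_lt hb (by exact_mod_cast (by omega : 2 * m - 1 < 2 * m))
  constructor
  · rw [h]; exact monic_X_pow_add (by exact_mod_cast hd)
  · rw [h, natDegree_add_eq_left_of_degree_lt, natDegree_X_pow]
    rw [degree_X_pow]; exact_mod_cast hd

theorem Fpol_separable {F : Type*} [Field F] [CharP F 2] (v : F) (hv : v ≠ 0) (hv1 : 1 + v ≠ 0)
    {m : ℕ} (hm : 4 ≤ m) : (Fpol 1 v m).Separable := by
  have two0 : (2 : F[X]) = 0 := CharTwo.two_eq_zero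
  have hrel := derivative_rel v hm
  obtain ⟨k, rfl⟩ : ∃ k, m = k + 2 := ⟨m - 2, by omega⟩
  set f := Fpol 1 v (k + 2) with hf
  set h : F[X] := X ^ (2 * k + 2) + X ^ (2 * k + 1) + X ^ (2 * k) + X ^ 2 + X with hh
  have h1 : f = X ^ 2 * h + C v * (X + 1) := by
    rw [hf, hh]; unfold Fpol
    have e1 : 2 * (k + 2) - 2 = 2 * k + 2 := by omega
    have e2 : 2 * (k + 2) - 1 = 2 * k + 3 := by omega
    have e3 : 2 * (k + 2) = 2 * k + 4 := by omega
    rw [e1, e2, e3]; simp only [map_one]; ring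
  have hvu : C ((v * (1 + v))⁻¹) * (C v * (1 + C v)) = (1 : F[X]) := by
    rw [show (C v * (1 + C v) : F[X]) = C (v * (1 + v)) by simp, ← C_mul,
      inv_mul_cancel₀ (mul_ne_zero hv hv1), C_1]
  refine ⟨C ((v * (1 + v))⁻¹) * (C (1 + v) * (X + 1) + (h * (X + 1) + C v)),
    C ((v * (1 + v))⁻¹) * (-(X ^ 2 + X + 1) * (h * (X + 1) + C v)), ?_⟩
  have h2 : (C (1 + v) * (X + 1) + (h * (X + 1) + C v)) * f +
      (-(X ^ 2 + X + 1) * (h * (X + 1) + C v)) * derivative f = C v * (1 + C v) := by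
    have h3 : (X ^ 2 + X + 1) * derivative f = f + (1 + C v) * X ^ 2 := by
      rw [hrel]; simp
    simp only [map_add, map_one]
    linear_combination -(h * (X + 1) + C v) * h3 + (1 + C v) * (X + 1) * h1 +
      (1 + C v) * C v * (X - X ^ 2 * 0) * two0
  linear_combination C ((v * (1 + v))⁻¹) * h2 + hvu

end MP7f
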