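import Pool.Agent.Lib.MP_7f581e_nt.Assembly

namespace MP7f

open Polynomial Equiv

/-- The general pencil. -/
noncomputable def fgen (P : R1) : K2[X] :=
  P.map (algebraMap (ZMod 2) K2) + C RatFunc.X * (X + 1)

/-- The polynomial whose roots are all the roots over the field of the root. -/
noncomputable def gPsi (P : R1) : R1[X] :=
  C (X + 1) * P.map (C : ZMod 2 →+* R1) + C P * (X + 1)

/-- The cofactor. -/
noncomputable def gPhi (P : R1) : R1[X] := gPsi P /ₘ (X - C (X : R1))

theorem gPsi_root (P : R1) : (gPsi P).IsRoot (X : R1) := by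
  unfold gPsi IsRoot
  have h1 : (P.map (C : ZMod 2 →+* R1)).eval (X : R1) = P := by
    rw [eval_map, eval₂_C_X]
  simp only [eval_add, eval_mul, eval_C, eval_X, eval_one, h1]
  have two0 : (2 : R1) = 0 := CharTwo.two_eq_zero
  linear_combination (X + 1) * P * two0

theorem gPsi_eq (P : R1) : (X - C (X : R1)) * gPhi P = gPsi P :=
  mul_divByMonic_eq_iff_isRoot.mpr (gPsi_root P)

theorem gPsi_deg {P : R1} (hP : P.Monic) (hd : 2 ≤ P.natDegree) :
    (gPsi P).natDegree = P.natDegree ∧ (gPsi P).leadingCoeff = X + 1 := by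
  have h2 : (P.map (C : ZMod 2 →+* R1)).Monic := hP.map _
  have h3 : (C (X + 1 : R1) * P.map (C : ZMod 2 →+* R1)).natDegree = P.natDegree := by
    rw [natDegree_C_mul X_add_one_ne, hP.natDegree_map]
  have h4 : (C P * (X + 1) : R1[X]).natDegree <
      (C (X + 1 : R1) * P.map (C : ZMod 2 →+* R1)).natDegree := by
    rw [h3]
    have : (C P * (X + 1) : R1[X]).natDegree ≤ 1 := by compute_degree
    omega
  unfold gPsi
  constructor
  · rw [natDegree_add_eq_left_of_natDegree_lt h4, h3]
  · rw [leadingCoeff_add_of_degree_lt' (degree_lt_degree h4), leadingCoeff_mul, leadingCoeff_C, h2]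
    simp

theorem gPhi_deg {P : R1} (hP : P.Monic) (hd : 2 ≤ P.natDegree) :
    (gPhi P).natDegree = P.natDegree - 1 ∧ (gPhi P).leadingCoeff = X + 1 := by
  have h1 := gPsi_eq P
  obtain ⟨h2, h3⟩ := gPsi_deg hP hd
  have h0 : gPhi P ≠ 0 := by
    intro h; rw [h, mul_zero] at h1; rw [← h1] at h2; simp at h2; omega
  constructor
  · rw [← h1, natDegree_mul (X_sub_C_ne_zero _) h0, natDegree_X_sub_C] at h2; omega
  · rw [← h1, leadingCoeff_mul] at h3; simpa using h3

theorem gPhi_mod {P : R1} (h1P : P.eval 1 = 1) : (gPhi P).map (evalRingHom 1) = 1 := by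
  have h1 := congrArg (fun p : R1[X] => p.map (evalRingHom 1)) (gPsi_eq P)
  have hc : (evalRingHom (1 : ZMod 2)).comp (C : ZMod 2 →+* R1) = RingHom.id _ := by
    ext; simp
  simp only [Polynomial.map_mul, Polynomial.map_sub, Polynomial.map_X, map_C, coe_evalRingHom,
    eval_X, gPsi, Polynomial.map_add, eval_add, eval_one, Polynomial.map_map, hc,
    Polynomial.map_id, h1P, Polynomial.map_one] at h1
  have h2 : (1 + 1 : ZMod 2) = 0 := by decide
  rw [h2] at h1
  have h3 : (X - C 1 : (ZMod 2)[X]) ≠ 0 := X_sub_C_ne_zero _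
  apply mul_left_cancel₀ h3
  rw [h1]
  have two0 : (2 : (ZMod 2)[X]) = 0 := CharTwo.two_eq_zero
  simp only [map_zero, map_one, zero_mul]
  linear_combination two0

theorem gisUnit_aux {P : R1} (hP : P.Monic) (hd : 2 ≤ P.natDegree) (h1P : P.eval 1 = 1)
    (a b : R1[X]) (hab : gPhi P = a * b)
    (ha : (a.leadingCoeff).eval 1 ≠ 0) : IsUnit a := by
  have h1 : a.map (evalRingHom (1 : ZMod 2)) * b.map (evalRingHom 1) = 1 := by
    rw [← Polynomial.map_mul, ← hab, gPhi_mod h1P]
  have h2 : IsUnit (a.map (evalRingHom (1 : ZMod 2))) := IsUnit.of_mul_eq_one _ h1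
  have h3 : (a.map (evalRingHom (1 : ZMod 2))).natDegree = 0 := natDegree_eq_zero_of_isUnit h2
  have h4 : (a.map (evalRingHom (1 : ZMod 2))).natDegree = a.natDegree :=
    natDegree_map_of_leadingCoeff_ne_zero _ ha
  rw [h4] at h3
  obtain ⟨a0, rfl⟩ := natDegree_eq_zero.mp h3
  have h5 : a0 * b.leadingCoeff = X + 1 := by
    rw [← (gPhi_deg hP hd).2, hab, leadingCoeff_mul, leadingCoeff_C]
  rcases irreducible_X_add_one.isUnit_or_isUnit h5.symm with h | h
  · exact isUnit_C.mpr h
  · exfalso
    apply ha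
    rw [leadingCoeff_C]
    obtain ⟨c, hc, hc'⟩ := Polynomial.isUnit_iff.mp h
    rw [← hc'] at h5
    have h6 := congrArg (eval 1) h5
    simp only [eval_mul, eval_C, eval_add, eval_X, eval_one] at h6
    have h7 : (1 + 1 : ZMod 2) = 0 := by decide
    rw [h7] at h6
    exact (mul_eq_zero.mp h6).resolve_right hc.ne_zero

theorem gPhi_irreducible {P : R1} (hP : P.Monic) (hd : 2 ≤ P.natDegree) (h1P : P.eval 1 = 1) :
    Irreducible (gPhi P) := by
  constructor
  · intro h
    have := natDegree_eq_zero_of_isUnit h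
    rw [(gPhi_deg hP hd).1] at this; omega
  · intro a b hab
    by_cases ha : (a.leadingCoeff).eval 1 ≠ 0
    · exact Or.inl (gisUnit_aux hP hd h1P a b hab ha)
    by_cases hb : (b.leadingCoeff).eval 1 ≠ 0
    · exact Or.inr (gisUnit_aux hP hd h1P b a (by rw [hab, mul_comm]) hb)
    exfalso
    push Not at ha hb
    have h5 : a.leadingCoeff * b.leadingCoeff = X + 1 := by
      rw [← (gPhi_deg hP hd).2, hab, leadingCoeff_mul]
    obtain ⟨c, hc⟩ := dvd_iff_isRoot.mpr ha
    obtain ⟨d, hd⟩ := dvd_iff_isRoot.mpr hb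
    rw [hc, hd] at h5
    have h6 := congrArg (fun p : R1 => (derivative p).eval 1) h5
    simp at h6

theorem gPhi_irreducible_map {P : R1} (hP : P.Monic) (hd : 2 ≤ P.natDegree)
    (h1P : P.eval 1 = 1) : Irreducible ((gPhi P).map (algebraMap R1 K2)) := by
  have h := gPhi_irreducible hP hd h1P
  have hp : (gPhi P).IsPrimitive := h.isPrimitive (by rw [(gPhi_deg hP hd).1]; omega)
  exact (hp.irreducible_iff_irreducible_map_fraction_map (K := K2)).mp h

section root
variable {L : Type*} [Field L] [Algebra K2 L] [Algebra (ZMod 2) L] [IsScalarTower (ZMod 2) K2 L]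

theorem groot_rel {P : R1} {y : L} (hy : aeval y (fgen P) = 0) :
    aeval y P = algebraMap K2 L RatFunc.X * (y + 1) := by
  have h := hy
  rw [fgen, map_add, aeval_map_algebraMap, map_mul, aeval_C, map_add, aeval_X, map_one] at h
  haveI : CharP L 2 := charP_of_injective_algebraMap (algebraMap K2 L).injective 2
  have two0 : (2 : L) = 0 := CharTwo.two_eq_zero
  linear_combination h - algebraMap K2 L RatFunc.X * (y + 1) * two0

theorem groot_ne_one {P : R1} (h1P : P.eval 1 = 1) {y : L} (hy : aeval y (fgen P) = 0) :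
    y + 1 ≠ 0 := by
  intro h
  haveI : CharP L 2 := charP_of_injective_algebraMap (algebraMap K2 L).injective 2
  have two0 : (2 : L) = 0 := CharTwo.two_eq_zero
  have h1 := groot_rel hy
  have h2 : y = 1 := by linear_combination h - two0
  rw [h, mul_zero, h2] at h1
  have h3 : aeval (1 : L) P = algebraMap (ZMod 2) L (P.eval 1) := by
    rw [← aeval_algebraMap_apply_eq_algebraMap_eval, map_one]
  rw [h3, h1P, map_one] at h1
  exact one_ne_zero h1

theorem isAlg_aeval {y : L} (hy : IsAlgebraic (ZMod 2) y) (P : R1) :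
    IsAlgebraic (ZMod 2) (aeval y P) := by
  have h1 : IsIntegral (ZMod 2) y := isAlgebraic_iff_isIntegral.mp hy
  have h2 : aeval y P ∈ Algebra.adjoin (ZMod 2) {y} := aeval_mem_adjoin_singleton _ _
  have h3 : IsIntegral (ZMod 2) (aeval y P) :=
    (Algebra.IsIntegral.adjoin (fun x hx => by
      rw [Set.mem_singleton_iff.mp hx]; exact h1)).isIntegral ⟨_, h2⟩ |>.map
        (Algebra.adjoin (ZMod 2) {y}).val
  exact isAlgebraic_iff_isIntegral.mpr h3

theorem groot_transcendental {P : R1} (h1P : P.eval 1 = 1) {y : L}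
    (hy : aeval y (fgen P) = 0) : Transcendental (ZMod 2) y := by
  intro halg
  have h1 := groot_rel hy
  have h2 := groot_ne_one h1P hy
  have h3 : algebraMap K2 L RatFunc.X = aeval y P * (y + 1)⁻¹ := by
    rw [h1]; field_simp
  have h4 : IsAlgebraic (ZMod 2) (algebraMap K2 L RatFunc.X) := by
    rw [h3]
    exact (isAlg_aeval halg P).mul (halg.add isAlgebraic_one).inv
  rw [isAlgebraic_algebraMap_iff (algebraMap K2 L).injective] at h4
  exact RatFunc.transcendental_X h4

end root

end MP7f
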