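import Pool.Agent.Lib.MP_7f581e_nt.Gen

namespace MP7f

open Polynomial Equiv

section root
variable {L : Type*} [Field L] [Algebra K2 L] [Algebra (ZMod 2) L] [IsScalarTower (ZMod 2) K2 L]

/-- The constant field together with the root, as a field isomorphic to `K2`. -/
noncomputable def gTf {P : R1} (h1P : P.eval 1 = 1) {y : L} (hy : aeval y (fgen P) = 0) :
    IntermediateField K2 L :=
  (subst y (groot_transcendental h1P hy)).fieldRange.toIntermediateField (by
    apply mem_subst_range
    have h1 := groot_rel hy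
    have h2 := groot_ne_one h1P hy
    have h3 : algebraMap K2 L RatFunc.X = aeval y P / (y + 1) := by
      rw [h1]; field_simp
    rw [h3]
    have hyT : y ∈ (subst y (groot_transcendental h1P hy)).fieldRange :=
      ⟨RatFunc.X, subst_X _ _⟩
    refine div_mem ?_ (add_mem hyT (one_mem _))
    exact ⟨algebraMap R1 K2 P, subst_poly _ _ _⟩)

theorem mem_gTf {P : R1} (h1P : P.eval 1 = 1) {y : L} (hy : aeval y (fgen P) = 0) (x : L) :
    x ∈ gTf h1P hy ↔ ∃ k : K2, subst y (groot_transcendental h1P hy) k = x := Iff.rfl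

theorem y_mem_gTf {P : R1} (h1P : P.eval 1 = 1) {y : L} (hy : aeval y (fgen P) = 0) :
    y ∈ gTf h1P hy :=
  (mem_gTf h1P hy y).mpr ⟨RatFunc.X, subst_X _ _⟩

/-- The isomorphism. -/
noncomputable def gtf {P : R1} (h1P : P.eval 1 = 1) {y : L} (hy : aeval y (fgen P) = 0) :
    K2 ≃+* gTf h1P hy :=
  RingEquiv.ofBijective
    ((subst y (groot_transcendental h1P hy)).codRestrict (gTf h1P hy) (fun k => ⟨k, rfl⟩))
    ⟨fun a b h => (subst y (groot_transcendental h1P hy)).injective (congrArg Subtype.val h),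
      fun ⟨x, k, hk⟩ => ⟨k, Subtype.ext hk⟩⟩

theorem gcofactor_root {P : R1} (h1P : P.eval 1 = 1) {y z : L} (hy : aeval y (fgen P) = 0)
    (hz : aeval z (fgen P) = 0) (hzy : z ≠ y) :
    eval z (((gPhi P).map (algebraMap R1 K2)).map (subst y (groot_transcendental h1P hy))) = 0 := by
  have h1 := groot_rel hy
  have h2 := groot_rel hz
  haveI : CharP L 2 := charP_of_injective_algebraMap (algebraMap K2 L).injective 2
  have two0 : (2 : L) = 0 := CharTwo.two_eq_zero
  have hcomp : (subst y (groot_transcendental h1P hy)).comp (algebraMap R1 K2) =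
      (aeval y : R1 →ₐ[ZMod 2] L).toRingHom := by
    ext1
    · exact Subsingleton.elim _ _
    · simp only [RingHom.comp_apply]
      exact subst_poly _ _ _
  rw [Polynomial.map_map, hcomp]
  have h3 := congrArg (fun p : R1[X] => eval z (p.map (aeval y : R1 →ₐ[ZMod 2] L).toRingHom))
    (gPsi_eq P)
  have hcc : (aeval y : R1 →ₐ[ZMod 2] L).toRingHom.comp (C : ZMod 2 →+* R1) =
      algebraMap (ZMod 2) L := Subsingleton.elim _ _
  have hPz : eval z (P.map (algebraMap (ZMod 2) L)) = algebraMap K2 L RatFunc.X * (z + 1) := by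
    rw [← h2, eval_map_algebraMap]
  simp only [Polynomial.map_mul, Polynomial.map_sub, Polynomial.map_X, map_C, gPsi,
    Polynomial.map_add, Polynomial.map_map, hcc, Polynomial.map_one, eval_mul, eval_sub,
    eval_add, eval_X, eval_C, eval_one, hPz] at h3
  have h4 : (aeval y : R1 →ₐ[ZMod 2] L).toRingHom X = y := aeval_X y
  have h5 : (aeval y : R1 →ₐ[ZMod 2] L).toRingHom (X + 1) = y + 1 := by
    rw [map_add, h4, map_one]
  have h6 : (aeval y : R1 →ₐ[ZMod 2] L).toRingHom P =
      algebraMap K2 L RatFunc.X * (y + 1) := h1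
  rw [h4, h5, h6] at h3
  have h7 : (z - y) * eval z ((gPhi P).map (aeval y : R1 →ₐ[ZMod 2] L).toRingHom) = 0 := by
    rw [h3]
    linear_combination algebraMap K2 L RatFunc.X * (y + 1) * (z + 1) * two0
  exact (mul_eq_zero.mp h7).resolve_left (sub_ne_zero.mpr hzy)

theorem gexists_aut [Normal K2 L] {P : R1} (hP : P.Monic) (hd : 2 ≤ P.natDegree)
    (h1P : P.eval 1 = 1) {y z z' : L} (hy : aeval y (fgen P) = 0)
    (hz : aeval z (fgen P) = 0) (hz' : aeval z' (fgen P) = 0) (hzy : z ≠ y) (hzy' : z' ≠ y) :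
    ∃ σ : L ≃ₐ[K2] L, σ y = y ∧ σ z = z' := by
  haveI : Normal (gTf h1P hy) L := Normal.tower_top_of_normal K2 (gTf h1P hy) L
  have hirr : Irreducible (((gPhi P).map (algebraMap R1 K2)).map (gtf h1P hy : K2 →+* gTf h1P hy)) :=
    (MulEquiv.irreducible_iff (mapEquiv (gtf h1P hy))).mpr (gPhi_irreducible_map hP hd h1P)
  have key : ∀ w : L, aeval w (fgen P) = 0 → w ≠ y →
      aeval w (((gPhi P).map (algebraMap R1 K2)).map (gtf h1P hy : K2 →+* gTf h1P hy)) = 0 := by
    intro w hw hwy
    have h1 := gcofactor_root h1P hy hw hwy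
    rw [← eval_map_algebraMap, Polynomial.map_map (gtf h1P hy : K2 →+* gTf h1P hy)]
    exact h1
  have h1 : minpoly (gTf h1P hy) z = minpoly (gTf h1P hy) z' := by
    rw [← minpoly.eq_of_irreducible hirr (key z hz hzy),
      ← minpoly.eq_of_irreducible hirr (key z' hz' hzy')]
  obtain ⟨σ, hσ⟩ := (Normal.minpoly_eq_iff_mem_orbit L).mp h1.symm
  refine ⟨σ.restrictScalars K2, ?_, hσ⟩
  exact σ.commutes ⟨y, y_mem_gTf h1P hy⟩

theorem gprimitive [Normal K2 L] {P : R1} (hP : P.Monic) (h1P : P.eval 1 = 1) {n : ℕ}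
    (hn : P.natDegree = n) (h3 : 3 ≤ n) (e : (fgen P).rootSet L ≃ Fin n) :
    MulAction.IsPreprimitive (rho e).range (Fin n) := by
  classical
  have hroot : ∀ i, aeval ((e.symm i : (fgen P).rootSet L) : L) (fgen P) = 0 :=
    fun i => aeval_eq_zero_of_mem_rootSet (e.symm i).2
  apply MulAction.isPreprimitive_of_is_two_pretransitive
  apply two_trans_of
  · intro a b
    have h : (({a, b} : Finset (Fin n)))ᶜ.Nonempty := by
      rw [← Finset.card_pos, Finset.card_compl, Fintype.card_fin]
      have := Finset.card_le_two (a := a) (b := b)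
      omega
    obtain ⟨c, hc⟩ := h
    simp only [Finset.mem_compl, Finset.mem_insert, Finset.mem_singleton, not_or] at hc
    exact ⟨c, hc.1, hc.2⟩
  · intro y z z' hz hz'
    obtain ⟨σ, h1, h2⟩ := gexists_aut (L := L) hP (by omega) h1P (hroot y) (hroot z)
      (hroot z') (fun h => hz (yinj e h)) (fun h => hz' (yinj e h))
    refine ⟨⟨rho e σ, σ, rfl⟩, rho_eq_of e h1, rho_eq_of e h2⟩

end root

end MP7f
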