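import Pool.Agent.Lib.MP_7f581e_nt.Trans

namespace MP7f

open Polynomial

section residue
variable {k : Type*} [CommRing k] [IsDomain k] [CharP k 2]

theorem Fpol_zero_eq {m : ℕ} (hm : 4 ≤ m) :
    (Fpol 1 (0 : k) m) = X ^ 3 * (X ^ (2 * m - 3) + X ^ (2 * m - 4) + X ^ (2 * m - 5) + X + 1) := by
  obtain ⟨j, rfl⟩ : ∃ j, m = j + 4 := ⟨m - 4, by omega⟩
  unfold Fpol
  have e1 : 2 * (j + 4) = 2 * j + 8 := by ring
  have e2 : 2 * j + 8 - 1 = 2 * j + 7 := by omega
  have e3 : 2 * j + 8 - 2 = 2 * j + 6 := by omega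
  have e4 : 2 * j + 8 - 3 = 2 * j + 5 := by omega
  have e5 : 2 * j + 8 - 4 = 2 * j + 4 := by omega
  have e6 : 2 * j + 8 - 5 = 2 * j + 3 := by omega
  rw [e1, e2, e3, e4, e5, e6]
  simp only [map_one, map_zero]
  ring

theorem simple_root {m : ℕ} (hm : 4 ≤ m) (z : Fin (2 * m) → k)
    (hz : Fpol 1 (0 : k) m = ∏ i, (X - C (z i))) {i j : Fin (2 * m)} (hij : i ≠ j)
    (h : z i = z j) : z i = 0 := by
  classical
  have h1 : (X - C (z i)) ^ 2 ∣ Fpol 1 (0 : k) m := by
    rw [hz, ← Finset.mul_prod_erase Finset.univ _ (Finset.mem_univ i),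
      ← Finset.mul_prod_erase (Finset.univ.erase i) _
        (Finset.mem_erase.mpr ⟨hij.symm, Finset.mem_univ j⟩), ← h, sq, ← mul_assoc]
    exact dvd_mul_right _ _
  obtain ⟨q, hq⟩ := h1
  have h2 := congrArg (eval (z i)) (derivative_rel (0 : k) hm)
  rw [hq] at h2
  simp only [derivative_mul, derivative_pow, eval_mul, eval_add, eval_pow, eval_X, eval_sub,
    eval_C, sub_self, eval_one] at h2
  have h3 : z i ^ 2 = 0 := by
    simpa using h2.symm
  exact pow_eq_zero_iff (two_ne_zero) |>.mp h3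

theorem card_zero_le {m : ℕ} (hm : 4 ≤ m) (z : Fin (2 * m) → k)
    (hz : Fpol 1 (0 : k) m = ∏ i, (X - C (z i))) (s : Finset (Fin (2 * m)))
    (hs : ∀ i ∈ s, z i = 0) : s.card ≤ 3 := by
  by_contra hlt
  push Not at hlt
  have h1 : ∏ i ∈ s, (X - C (z i)) = (X : k[X]) ^ s.card := by
    rw [Finset.prod_congr rfl (fun i hi => by rw [hs i hi, C_0, sub_zero]), Finset.prod_const]
  have h2 : (X : k[X]) ^ 4 ∣ Fpol 1 (0 : k) m := by
    rw [hz]
    refine (pow_dvd_pow _ hlt).trans ?_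
    rw [← h1]
    exact Finset.prod_dvd_prod_of_subset _ _ _ (Finset.subset_univ _)
  rw [Fpol_zero_eq hm, show (4 : ℕ) = 3 + 1 from rfl, pow_add, pow_one,
    mul_dvd_mul_iff_left (pow_ne_zero _ X_ne_zero)] at h2
  have h3 := X_dvd_iff.mp h2
  have e1 : ¬ (2 * m - 3 = 0) := by omega
  have e2 : ¬ (2 * m - 4 = 0) := by omega
  have e3 : ¬ (2 * m - 5 = 0) := by omega
  simp only [coeff_add, coeff_X_pow, coeff_X_zero, coeff_one_zero] at h3
  rw [if_neg (by omega), if_neg (by omega), if_neg (by omega)] at h3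
  simp at h3

end residue

section prime
variable {S : Type*} [CommRing S] [IsDomain S] [CharP S 2] (P : Ideal S) [P.IsPrime]

theorem map_residue {m : ℕ} (v : S) (hv : v ∈ P) (y : Fin (2 * m) → S)
    (hy : Fpol 1 v m = ∏ i, (X - C (y i))) :
    Fpol 1 (0 : S ⧸ P) m = ∏ i, (X - C (Ideal.Quotient.mk P (y i))) := by
  have h := congrArg (fun p : S[X] => p.map (Ideal.Quotient.mk P)) hy
  simp only [Polynomial.map_prod, Polynomial.map_sub, map_X, map_C] at h
  rw [← h, map_Fpol, map_one, Ideal.Quotient.eq_zero_iff_mem.mpr hv]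

instance : CharP (S ⧸ P) 2 := by
  have h2 : ((2 : ℕ) : S ⧸ P) = 0 := by
    have : ((2 : ℕ) : S) = 0 := CharP.cast_eq_zero S 2
    rw [← map_natCast (Ideal.Quotient.mk P), this, map_zero]
  exact CharTwo.of_one_ne_zero_of_two_eq_zero one_ne_zero (by exact_mod_cast h2)

theorem root_diff_mem {m : ℕ} (hm : 4 ≤ m) (v : S) (hv : v ∈ P) (y : Fin (2 * m) → S)
    (hy : Fpol 1 v m = ∏ i, (X - C (y i))) {i j : Fin (2 * m)} (hij : i ≠ j)
    (h : y i - y j ∈ P) : y i ∈ P := by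
  rw [← Ideal.Quotient.eq_zero_iff_mem]
  exact simple_root hm _ (map_residue P v hv y hy) hij (Ideal.Quotient.eq.mpr h)

theorem card_mem_le {m : ℕ} (hm : 4 ≤ m) (v : S) (hv : v ∈ P) (y : Fin (2 * m) → S)
    (hy : Fpol 1 v m = ∏ i, (X - C (y i))) (s : Finset (Fin (2 * m)))
    (hs : ∀ i ∈ s, y i ∈ P) : s.card ≤ 3 :=
  card_zero_le hm _ (map_residue P v hv y hy) s
    (fun i hi => Ideal.Quotient.eq_zero_iff_mem.mpr (hs i hi))

theorem exists_root_mem {m : ℕ} (hm : 4 ≤ m) (v : S) (hv : v ∈ P) (y : Fin (2 * m) → S)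
    (hy : Fpol 1 v m = ∏ i, (X - C (y i))) : ∃ i, y i ∈ P := by
  have h1 := congrArg (eval 0) hy
  rw [eval_prod] at h1
  have h2 : eval 0 (Fpol 1 v m) = v := by
    unfold Fpol
    simp only [eval_add, eval_pow, eval_X, eval_mul, eval_C, eval_one]
    rw [zero_pow (by omega), zero_pow (by omega), zero_pow (by omega)]
    ring
  rw [h2] at h1
  rw [h1] at hv
  obtain ⟨i, -, hi⟩ := (Ideal.IsPrime.prod_mem_iff (p := P)).mp hv
  refine ⟨i, ?_⟩
  simpa using hi

theorem root_factor {m : ℕ} (hm : 4 ≤ m) (v : S) (y : S) (hy : eval y (Fpol 1 v m) = 0) :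
    y ^ 3 * (y ^ (2 * m - 3) + y ^ (2 * m - 4) + y ^ (2 * m - 5) + y + 1) = v * (y + 1) := by
  have two0 : (2 : S) = 0 := CharTwo.two_eq_zero
  obtain ⟨j, rfl⟩ : ∃ j, m = j + 4 := ⟨m - 4, by omega⟩
  unfold Fpol at hy
  have e1 : 2 * (j + 4) = 2 * j + 8 := by ring
  have e2 : 2 * j + 8 - 1 = 2 * j + 7 := by omega
  have e3 : 2 * j + 8 - 2 = 2 * j + 6 := by omega
  have e4 : 2 * j + 8 - 3 = 2 * j + 5 := by omega
  have e5 : 2 * j + 8 - 4 = 2 * j + 4 := by omega
  have e6 : 2 * j + 8 - 5 = 2 * j + 3 := by omega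
  rw [e1, e2, e3] at hy
  rw [e1, e4, e5, e6]
  simp only [map_one, eval_add, eval_pow, eval_X, eval_mul, eval_C, eval_one] at hy
  linear_combination hy - v * (y + 1) * two0

end prime

section dedekind

open UniqueFactorizationMonoid in
theorem count_eq_zero_of_notMem {S : Type*} [CommRing S] [IsDedekindDomain S] [DecidableEq (Ideal S)]
    (P : Ideal S) {g : S} (hg : g ∉ P) :
    (normalizedFactors (Ideal.span {g})).count P = 0 := by
  rw [Multiset.count_eq_zero]
  intro h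
  have h1 := dvd_of_mem_normalizedFactors h
  rw [Ideal.dvd_iff_le, Ideal.span_singleton_le_iff_mem] at h1
  exact hg h1

open UniqueFactorizationMonoid in
theorem three_dvd_count {S : Type*} [CommRing S] [IsDedekindDomain S] [DecidableEq (Ideal S)]
    (P : Ideal S) {y g v w : S} (h : y ^ 3 * g = v * w) (hv : v ≠ 0) (hg : g ∉ P) (hw : w ∉ P) :
    3 ∣ (normalizedFactors (Ideal.span {v})).count P := by
  have hg0 : g ≠ 0 := fun h0 => hg (h0 ▸ P.zero_mem)
  have hw0 : w ≠ 0 := fun h0 => hw (h0 ▸ P.zero_mem)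
  have hy0 : y ≠ 0 := by
    intro h0
    rw [h0] at h
    have : v * w = 0 := by rw [← h]; ring
    exact (mul_ne_zero hv hw0) this
  have sp : ∀ a : S, a ≠ 0 → (Ideal.span {a} : Ideal S) ≠ 0 := by
    intro a ha h0
    rw [Ideal.zero_eq_bot, Ideal.span_singleton_eq_bot] at h0
    exact ha h0
  have h1 : (Ideal.span {y} : Ideal S) ^ 3 * Ideal.span {g} = Ideal.span {v} * Ideal.span {w} := by
    rw [Ideal.span_singleton_pow, Ideal.span_singleton_mul_span_singleton,
      Ideal.span_singleton_mul_span_singleton, h]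
  have h2 := congrArg (fun I => (normalizedFactors I).count P) h1
  rw [normalizedFactors_mul (pow_ne_zero _ (sp y hy0)) (sp g hg0),
    normalizedFactors_mul (sp v hv) (sp w hw0), normalizedFactors_pow, Multiset.count_add,
    Multiset.count_add, count_eq_zero_of_notMem P hg, count_eq_zero_of_notMem P hw,
    Multiset.count_nsmul] at h2
  exact ⟨_, by simpa using h2.symm⟩

end dedekind

end MP7f
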