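import Pool.Agent.Lib.MP_7f581e_nt.Inertia

namespace MP7f

open Polynomial

instance : CharP R1 2 := charP_of_injective_algebraMap (algebraMap (ZMod 2) R1).injective 2

/-- The prime of the base ring. -/
noncomputable def pX : Ideal R1 := Ideal.span {X}

instance pX_prime : pX.IsPrime := by
  unfold pX
  rw [Ideal.span_singleton_prime X_ne_zero]
  exact prime_X

instance pX_finite : Finite (R1 ⧸ pX) := by
  have h : Function.Surjective (fun a : ZMod 2 => Ideal.Quotient.mk pX (C a)) := by
    intro q
    obtain ⟨p, rfl⟩ := Ideal.Quotient.mk_surjective q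
    refine ⟨p.coeff 0, ?_⟩
    rw [Ideal.Quotient.eq]
    unfold pX
    rw [Ideal.mem_span_singleton, X_dvd_iff]
    simp
  exact Finite.of_surjective _ h

instance pX_perfect : PerfectField pX.ResidueField := inferInstance

section
variable {L : Type*} [Field L] [Algebra K2 L] [Algebra R1 L] [IsScalarTower R1 K2 L]
  [FiniteDimensional K2 L] [IsGalois K2 L]

/-- The integral closure. -/
noncomputable abbrev SS (L : Type*) [Field L] [Algebra R1 L] := integralClosure R1 L

instance instCommR1 : SMulCommClass (L ≃ₐ[K2] L) R1 L where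
  smul_comm g r x := by
    rw [← algebraMap_smul K2 r x, ← algebraMap_smul K2 r (g • x)]
    exact smul_comm g (algebraMap R1 K2 r) x

instance instDed : IsDedekindDomain (SS L) := integralClosure.isDedekindDomain R1 K2 L

instance instFrac : IsFractionRing (SS L) L := integralClosure.isFractionRing_of_finite_extension K2 L

instance instFin : Module.Finite R1 (SS L) := IsIntegralClosure.finite R1 K2 L (SS L)

instance instGal : IsGaloisGroup (L ≃ₐ[K2] L) R1 (SS L) :=
  IsGaloisGroup.of_isFractionRing (L ≃ₐ[K2] L) R1 (SS L) K2 L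

instance instTF : Module.IsTorsionFree R1 (SS L) := by
  have h : Function.Injective (algebraMap R1 (SS L)) := by
    have h1 : Function.Injective (algebraMap R1 L) := by
      rw [IsScalarTower.algebraMap_eq R1 K2 L]
      exact (algebraMap K2 L).injective.comp (IsFractionRing.injective R1 K2)
    intro a b hab
    apply h1
    rw [IsScalarTower.algebraMap_apply R1 (SS L) L, hab, ← IsScalarTower.algebraMap_apply R1 (SS L) L]
  exact Module.isTorsionFree_iff_algebraMap_injective.mpr h

instance instFlat : Module.Flat R1 (SS L) := inferInstance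

instance instCharS : CharP (SS L) 2 := by
  haveI : CharP L 2 := charP_of_injective_algebraMap (algebraMap K2 L).injective 2
  exact (algebraMap (SS L) L).charP (FaithfulSMul.algebraMap_injective _ _) 2

theorem exists_prime_over : ∃ P : Ideal (SS L), P.IsPrime ∧ P.LiesOver pX := by
  obtain ⟨P⟩ := (inferInstance : Nonempty (pX.primesOver (SS L)))
  exact ⟨P.1, P.2.1, P.2.2⟩

/-- Existence of an inertia element of order three. -/
theorem exists_inertia {m : ℕ} (hm : 4 ≤ m) (P : Ideal (SS L)) [P.IsPrime] [P.LiesOver pX]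
    (y : Fin (2 * m) → SS L)
    (hy : Fpol 1 (algebraMap R1 (SS L) X) m = ∏ i, (X - C (y i))) :
    ∃ σ : L ≃ₐ[K2] L, σ ∈ P.inertia (L ≃ₐ[K2] L) ∧ orderOf σ = 3 := by
  classical
  have hv : algebraMap R1 (SS L) X ∈ P := by
    have h1 : (X : R1) ∈ pX := Ideal.mem_span_singleton_self X
    rw [P.over_def pX] at h1
    exact h1
  have hv0 : algebraMap R1 (SS L) X ≠ 0 := by
    rw [Ne, FaithfulSMul.algebraMap_eq_zero_iff]
    exact X_ne_zero
  obtain ⟨i, hi⟩ := exists_root_mem P hm _ hv y hy
  have hroot : eval (y i) (Fpol 1 (algebraMap R1 (SS L) X) m) = 0 := by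
    rw [hy, eval_prod]
    exact Finset.prod_eq_zero (Finset.mem_univ i) (by simp)
  have hfac := root_factor hm _ _ hroot
  have h1P : (1 : SS L) ∉ P := (Ideal.ne_top_iff_one P).mp (Ideal.IsPrime.ne_top inferInstance)
  have hw : y i + 1 ∉ P := by
    intro h
    exact h1P ((P.add_mem_iff_right hi).mp h)
  have hg : y i ^ (2 * m - 3) + y i ^ (2 * m - 4) + y i ^ (2 * m - 5) + y i + 1 ∉ P := by
    intro h
    have h2 : y i ^ (2 * m - 3) + y i ^ (2 * m - 4) + y i ^ (2 * m - 5) + y i ∈ P :=
      P.add_mem (P.add_mem (P.add_mem (P.pow_mem_of_mem hi _ (by omega))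
        (P.pow_mem_of_mem hi _ (by omega))) (P.pow_mem_of_mem hi _ (by omega))) hi
    exact h1P ((P.add_mem_iff_right h2).mp h)
  have h3 := three_dvd_count P hfac hv0 hg hw
  have hmap : pX.map (algebraMap R1 (SS L)) = Ideal.span {algebraMap R1 (SS L) X} := by
    unfold pX
    rw [Ideal.map_span, Set.image_singleton]
  have hne : pX.map (algebraMap R1 (SS L)) ≠ ⊥ := by
    rw [hmap, Ne, Ideal.span_singleton_eq_bot]
    exact hv0
  have h4 : Nat.card (P.inertia (L ≃ₐ[K2] L)) = P.ramificationIdx R1 := by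
    rw [Ideal.card_inertia_eq_ramificationIdxIn pX P,
      Ideal.ramificationIdxIn_eq_ramificationIdx pX P (L ≃ₐ[K2] L)]
  rw [Ideal.IsDedekindDomain.ramificationIdx_eq_normalizedFactors_count pX P hne, hmap] at h4
  rw [← h4] at h3
  haveI : Fact (Nat.Prime 3) := ⟨Nat.prime_three⟩
  obtain ⟨σ, hσ⟩ := exists_prime_orderOf_dvd_card' 3 h3
  exact ⟨σ.1, σ.2, by rw [← hσ]; exact Subgroup.orderOf_coe σ⟩

end

end MP7f
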