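import Pool.Agent.Lib.MP_7f581e_nt.Assembly

namespace MP7f

open Polynomial Equiv

theorem main {m : ℕ} (hm : 4 ≤ m) :
    ∃ (L : Type) (_ : Field L) (_ : Algebra K2 L), FiniteDimensional K2 L ∧
      IsGalois K2 L ∧ Nonempty ((L ≃ₐ[K2] L) ≃* alternatingGroup (Fin (2 * m))) := by
  have hsep : (f2 m).Separable := Fpol_separable _ RatFunc.X_ne_zero one_add_X_ne hm
  obtain ⟨hmonic, hdeg⟩ := Fpol_monic (RatFunc.X : K2) hm
  haveI : IsGalois K2 (f2 m).SplittingField := IsGalois.of_separable_splitting_field hsep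
  refine realise (f2 m) hmonic hsep hdeg ?_ (bpar m) ?_ ?_
  · intro e hy
    exact alternating_le hm e hy (SplittingField.adjoin_rootSet (f2 m))
  · unfold bpar
    split_ifs with h
    · exact Or.inl rfl
    · refine Or.inr ⟨cpar m, ?_, rfl⟩
      unfold cpar
      split_ifs
      · exact Or.inl rfl
      · exact Or.inr rfl
  · intro y hinj hy
    exact exists_sign hm y hinj hy

end MP7f
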