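import Mathlib

namespace MP7f

open Polynomial

/-- Power sums. -/
def ps {n : ℕ} {Ω : Type*} [CommRing Ω] (z : Fin n → Ω) (k : ℕ) : Ω := ∑ i, z i ^ k

theorem coeff_prod_eq {n : ℕ} {Ω : Type*} [CommRing Ω] (z : Fin n → Ω) (k : ℕ) (hk : k ≤ n) :
    (∏ i, (X - C (z i))).coeff (n - k) =
      (-1) ^ k * MvPolynomial.aeval z (MvPolynomial.esymm (Fin n) ℤ k) := by
  have h3 := Multiset.prod_X_sub_C_coeff
    ((Finset.univ : Finset (Fin n)).val.map z) (k := n - k) (by simp)
  have h4 : Multiset.card ((Finset.univ : Finset (Fin n)).val.map z) = n := by simp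
  have h5 : n - (n - k) = k := by omega
  rw [h4, h5] at h3
  rw [MvPolynomial.aeval_esymm_eq_multiset_esymm, ← h3]
  congr 1
  rw [Multiset.map_map]
  rfl

/-- Newton's identities in terms of the coefficients. -/
theorem newton {n : ℕ} {Ω : Type*} [CommRing Ω] (z : Fin n → Ω) (k : ℕ) (hk : k ≤ n) :
    ∑ a ∈ Finset.range k, (∏ i, (X - C (z i))).coeff (n - a) * ps z (k - a) +
      k * (∏ i, (X - C (z i))).coeff (n - k) = 0 := by
  have h := congrArg (MvPolynomial.aeval z) (MvPolynomial.mul_esymm_eq_sum (Fin n) ℤ k)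
  rw [map_mul, map_mul, map_sum, map_natCast, map_pow, map_neg, map_one] at h
  have h1 : ∀ a ∈ Finset.range k, (∏ i, (X - C (z i))).coeff (n - a) * ps z (k - a) =
      MvPolynomial.aeval z ((-1) ^ a * MvPolynomial.esymm (Fin n) ℤ a *
        MvPolynomial.psum (Fin n) ℤ (k - a)) := by
    intro a ha
    have : a ≤ n := by have := Finset.mem_range.mp ha; omega
    rw [coeff_prod_eq z a this, map_mul, map_mul, map_pow, map_neg, map_one]
    simp [MvPolynomial.psum, ps]
  rw [Finset.sum_congr rfl h1, coeff_prod_eq z k hk]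
  have h2 : (∑ a ∈ Finset.HasAntidiagonal.antidiagonal k with a.1 < k, MvPolynomial.aeval z
      ((-1) ^ a.1 * MvPolynomial.esymm (Fin n) ℤ a.1 * MvPolynomial.psum (Fin n) ℤ a.2)) =
      ∑ a ∈ Finset.range k, MvPolynomial.aeval z ((-1) ^ a * MvPolynomial.esymm (Fin n) ℤ a *
        MvPolynomial.psum (Fin n) ℤ (k - a)) := by
    rw [Finset.sum_filter, Finset.Nat.sum_antidiagonal_eq_sum_range_succ_mk,
      Finset.sum_range_succ]
    simp only [lt_self_iff_false, if_false, add_zero]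
    refine Finset.sum_congr rfl fun a ha => ?_
    rw [if_pos (Finset.mem_range.mp ha)]
  rw [h2] at h
  set Sm := ∑ a ∈ Finset.range k, MvPolynomial.aeval z ((-1) ^ a *
    MvPolynomial.esymm (Fin n) ℤ a * MvPolynomial.psum (Fin n) ℤ (k - a)) with hS
  rw [mul_left_comm, h, ← mul_assoc, ← pow_add]
  have : (-1 : Ω) ^ (k + (k + 1)) = -1 := by
    rw [← add_assoc, pow_succ, ← two_mul, pow_mul]; simp
  rw [this]; ring

end MP7f
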