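import Pool.Agent.Lib.MP_7f581e_nt.SignGal
import Pool.Agent.Lib.MP_7f581e_nt.Field

namespace MP7f

open Polynomial

/-- The part of the polynomial not involving the parameter. -/
noncomputable def F0 {R : Type*} [CommRing R] (m : ℕ) : R[X] :=
  X ^ (2 * m) + X ^ (2 * m - 1) + X ^ (2 * m - 2) + X ^ 4 + X ^ 3

theorem map_F0 {R S : Type*} [CommRing R] [CommRing S] (g : R →+* S) (m : ℕ) :
    (F0 m : R[X]).map g = F0 m := by simp [F0]

theorem Fpol_eq {R : Type*} [CommRing R] (v : R) (m : ℕ) :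
    Fpol 1 v m = F0 m + C v * (X + 1) := by
  simp [Fpol, F0]

theorem F0_deg {R : Type*} [CommRing R] [Nontrivial R] {m : ℕ} (hm : 4 ≤ m) :
    (F0 m : R[X]).natDegree = 2 * m ∧ (F0 m : R[X]).Monic := by
  have h := Fpol_monic (0 : R) hm
  rw [Fpol_eq] at h
  simp only [map_zero, zero_mul, add_zero] at h
  exact ⟨h.2, h.1⟩

abbrev R1 := (ZMod 2)[X]

theorem eval_one_F0 (m : ℕ) : (F0 m : R1).eval 1 = 1 := by
  simp only [F0, eval_add, eval_pow, eval_X, one_pow]
  decide

/-- The polynomial whose roots are all the roots over the field of the root. -/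
noncomputable def Psi (m : ℕ) : R1[X] :=
  C (X + 1) * F0 (R := R1) m + C (F0 (R := ZMod 2) m) * (X + 1)

/-- The cofactor. -/
noncomputable def Phi (m : ℕ) : R1[X] := Psi m /ₘ (X - C (X : R1))

theorem Psi_root (m : ℕ) : (Psi m).IsRoot (X : R1) := by
  unfold Psi IsRoot
  have h1 : (F0 (R := R1) m).eval (X : R1) = F0 (R := ZMod 2) m := by simp [F0]
  simp only [eval_add, eval_mul, eval_C, eval_X, eval_one, h1]
  have two0 : (2 : R1) = 0 := CharTwo.two_eq_zero
  linear_combination (X + 1) * F0 (R := ZMod 2) m * two0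

theorem Psi_eq (m : ℕ) : (X - C (X : R1)) * Phi m = Psi m :=
  mul_divByMonic_eq_iff_isRoot.mpr (Psi_root m)

theorem X_add_one_ne : (X + 1 : R1) ≠ 0 := by
  intro h
  have := congrArg (fun p : R1 => p.coeff 1) h
  simp [coeff_one] at this

theorem Psi_deg {m : ℕ} (hm : 4 ≤ m) :
    (Psi m).natDegree = 2 * m ∧ (Psi m).leadingCoeff = X + 1 := by
  obtain ⟨h1, h2⟩ := F0_deg (R := R1) hm
  have h3 : (C (X + 1 : R1) * F0 (R := R1) m : R1[X]).natDegree = 2 * m := by
    rw [natDegree_C_mul X_add_one_ne, h1]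
  have h4 : (C (F0 (R := ZMod 2) m) * (X + 1) : R1[X]).natDegree <
      (C (X + 1 : R1) * F0 (R := R1) m : R1[X]).natDegree := by
    rw [h3]
    have : (C (F0 (R := ZMod 2) m) * (X + 1) : R1[X]).natDegree ≤ 1 := by compute_degree
    omega
  unfold Psi
  constructor
  · rw [natDegree_add_eq_left_of_natDegree_lt h4, h3]
  · rw [leadingCoeff_add_of_degree_lt' (degree_lt_degree h4), leadingCoeff_mul, leadingCoeff_C, h2]
    simp

theorem Phi_deg {m : ℕ} (hm : 4 ≤ m) :
    (Phi m).natDegree = 2 * m - 1 ∧ (Phi m).leadingCoeff = X + 1 := by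
  have h1 := Psi_eq m
  obtain ⟨h2, h3⟩ := Psi_deg hm
  have h0 : Phi m ≠ 0 := by
    intro h; rw [h, mul_zero] at h1; rw [← h1] at h2; simp at h2; omega
  constructor
  · rw [← h1, natDegree_mul (X_sub_C_ne_zero _) h0, natDegree_X_sub_C] at h2; omega
  · rw [← h1, leadingCoeff_mul] at h3; simpa using h3

theorem Phi_mod (m : ℕ) : (Phi m).map (evalRingHom 1) = 1 := by
  have h1 := congrArg (fun p : R1[X] => p.map (evalRingHom 1)) (Psi_eq m)
  simp only [Polynomial.map_mul, Polynomial.map_sub, Polynomial.map_X, map_C, coe_evalRingHom,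
    eval_X, Psi, Polynomial.map_add, eval_add, eval_one, eval_one_F0, map_F0,
    Polynomial.map_one] at h1
  have h2 : (1 + 1 : ZMod 2) = 0 := by decide
  rw [h2] at h1
  have h3 : (X - C 1 : (ZMod 2)[X]) ≠ 0 := X_sub_C_ne_zero _
  apply mul_left_cancel₀ h3
  rw [h1]
  have two0 : (2 : (ZMod 2)[X]) = 0 := CharTwo.two_eq_zero
  simp only [map_zero, map_one, zero_mul]
  linear_combination two0

theorem irreducible_X_add_one : Irreducible (X + 1 : R1) := by
  have : (X + 1 : R1) = X + C 1 := by simp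
  rw [this]; exact irreducible_of_degree_eq_one (degree_X_add_C _)

theorem isUnit_aux {m : ℕ} (a b : R1[X]) (hm : 4 ≤ m) (hab : Phi m = a * b)
    (ha : (a.leadingCoeff).eval 1 ≠ 0) : IsUnit a := by
  have h1 : a.map (evalRingHom (1 : ZMod 2)) * b.map (evalRingHom 1) = 1 := by
    rw [← Polynomial.map_mul, ← hab, Phi_mod]
  have h2 : IsUnit (a.map (evalRingHom (1 : ZMod 2))) := IsUnit.of_mul_eq_one _ h1
  have h3 : (a.map (evalRingHom (1 : ZMod 2))).natDegree = 0 := natDegree_eq_zero_of_isUnit h2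
  have h4 : (a.map (evalRingHom (1 : ZMod 2))).natDegree = a.natDegree :=
    natDegree_map_of_leadingCoeff_ne_zero _ ha
  rw [h4] at h3
  obtain ⟨a0, rfl⟩ := natDegree_eq_zero.mp h3
  have h5 : a0 * b.leadingCoeff = X + 1 := by
    rw [← (Phi_deg hm).2, hab, leadingCoeff_mul, leadingCoeff_C]
  rcases irreducible_X_add_one.isUnit_or_isUnit h5.symm with h | h
  · exact isUnit_C.mpr h
  · exfalso
    apply ha
    rw [leadingCoeff_C]
    obtain ⟨c, hc, hc'⟩ := Polynomial.isUnit_iff.mp h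
    rw [← hc'] at h5
    have h6 := congrArg (eval 1) h5
    simp only [eval_mul, eval_C, eval_add, eval_X, eval_one] at h6
    have h7 : (1 + 1 : ZMod 2) = 0 := by decide
    rw [h7] at h6
    exact (mul_eq_zero.mp h6).resolve_right hc.ne_zero

theorem Phi_irreducible {m : ℕ} (hm : 4 ≤ m) : Irreducible (Phi m) := by
  constructor
  · intro h
    have := natDegree_eq_zero_of_isUnit h
    rw [(Phi_deg hm).1] at this; omega
  · intro a b hab
    by_cases ha : (a.leadingCoeff).eval 1 ≠ 0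
    · exact Or.inl (isUnit_aux a b hm hab ha)
    by_cases hb : (b.leadingCoeff).eval 1 ≠ 0
    · exact Or.inr (isUnit_aux b a hm (by rw [hab, mul_comm]) hb)
    exfalso
    push Not at ha hb
    have h5 : a.leadingCoeff * b.leadingCoeff = X + 1 := by
      rw [← (Phi_deg hm).2, hab, leadingCoeff_mul]
    obtain ⟨c, hc⟩ := dvd_iff_isRoot.mpr ha
    obtain ⟨d, hd⟩ := dvd_iff_isRoot.mpr hb
    rw [hc, hd] at h5
    have h6 := congrArg (fun p : R1 => (derivative p).eval 1) h5
    simp at h6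

theorem Phi_irreducible_map {m : ℕ} (hm : 4 ≤ m) :
    Irreducible ((Phi m).map (algebraMap R1 K2)) := by
  have h := Phi_irreducible hm
  have hp : (Phi m).IsPrimitive := h.isPrimitive (by rw [(Phi_deg hm).1]; omega)
  exact (hp.irreducible_iff_irreducible_map_fraction_map (K := K2)).mp h

end MP7f
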