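import Pool.Agent.Lib.MP_7f581e_ntR.Main

/-!
For a finite field `k`: if the power `G^N` of a finite group `G` occurs over `k(X)`, where `N`
exceeds the number of primes dividing the order of the abelianization of `G`, then `G` occurs
regularly over every field `K` containing `k`, and `G` occurs over every Hilbertian field `K`
containing `k`.  Consequently the inverse Galois problem over `k(X)` is equivalent to the regular
inverse Galois problem over all fields containing `k`, and it implies the inverse Galois problem
over all Hilbertian fields containing `k`.
-/

set_option autoImplicit false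

namespace Pool.Agent.Results.MP_7f581e_nt.RegularEquivalence

open MP7fR

/-- **Main result.** -/
theorem result.{u} (k : Type) [Field k] [Finite k] :
    (∀ (G : Type) [Group G] [Finite G] (N : ℕ),
      (Nat.card (Abelianization G)).primeFactors.card < N →
      Occurs (Fin N → G) (RatFunc k) →
        (∀ (K : Type u) [Field K] [Algebra k K], OccursRegularly G K) ∧
        (∀ (K : Type u) [Field K] [Algebra k K], IsHilbertian K → Occurs G K)) ∧
    [∀ (G : Type) [Group G] [Finite G], Occurs G (RatFunc k),
      ∀ (G : Type) [Group G] [Finite G], OccursRegularly G k,
      ∀ (K : Type) [Field K] [Algebra k K] (G : Type) [Group G] [Finite G],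
        OccursRegularly G K,
      (∀ (G : Type) [Group G] [Finite G], Occurs G (RatFunc k)) ∧
        ∀ (K : Type) [Field K] [Algebra k K], IsHilbertian K →
          ∀ (G : Type) [Group G] [Finite G], Occurs G K].TFAE := by
  refine ⟨fun G _ _ N hN h => per_group hN h, ?_⟩
  tfae_have 1 → 2 := by
    intro h G _ _
    exact occursRegularly_of_pow
      (Nat.lt_succ_self (Nat.card (Abelianization G)).primeFactors.card) (h _)
  tfae_have 2 → 3 := by
    intro h K _ _ G _ _
    exact occursRegularly_baseChange (h G)
  tfae_have 3 → 4 := by
    intro h
    exact ⟨fun G _ _ => (h k G).occurs,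
      fun K _ _ hK G _ _ => occurs_of_isHilbertian hK (h K G).occurs⟩
  tfae_have 4 → 1 := fun h => h.1
  tfae_finish

end Pool.Agent.Results.MP_7f581e_nt.RegularEquivalence
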