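import Pool.Agent.Lib.MP_7f581e_nt.Inertia2

namespace MP7f

open Polynomial Equiv

section rho
variable {L : Type*} [Field L] [Algebra K2 L] {f : K2[X]} {n : ℕ}

/-- The permutation representation on the roots. -/
noncomputable def rho (e : f.rootSet L ≃ Fin n) : (L ≃ₐ[K2] L) →* Perm (Fin n) :=
  (e.permCongrHom : Perm (f.rootSet L) ≃* Perm (Fin n)).toMonoidHom.comp
    (MulAction.toPermHom (L ≃ₐ[K2] L) (f.rootSet L))

theorem rho_spec (e : f.rootSet L ≃ Fin n) (σ : L ≃ₐ[K2] L) (i : Fin n) :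
    ((e.symm (rho e σ i) : f.rootSet L) : L) = σ ((e.symm i : f.rootSet L) : L) := by
  simp [rho, permCongrHom, rootSet.coe_smul]

theorem yinj (e : f.rootSet L ≃ Fin n) :
    Function.Injective (fun i => ((e.symm i : f.rootSet L) : L)) := by
  intro i j h
  exact e.symm.injective (Subtype.ext h)

theorem rho_eq_of (e : f.rootSet L ≃ Fin n) {σ : L ≃ₐ[K2] L} {i j : Fin n}
    (h : σ ((e.symm i : f.rootSet L) : L) = ((e.symm j : f.rootSet L) : L)) : rho e σ i = j := by
  apply yinj e
  simp only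
  rw [rho_spec, h]

theorem rho_injective (e : f.rootSet L ≃ Fin n) (hgen : Algebra.adjoin K2 (f.rootSet L) = ⊤) :
    Function.Injective (rho e) := by
  rw [injective_iff_map_eq_one]
  intro σ hσ
  have h1 : (σ : L →ₐ[K2] L) = AlgHom.id K2 L := by
    apply AlgHom.ext_of_adjoin_eq_top hgen
    intro x hx
    have h2 := rho_spec e σ (e ⟨x, hx⟩)
    rw [hσ] at h2
    simpa using h2.symm
  ext x
  exact DFunLike.congr_fun h1 x

end rho

section main
variable {L : Type*} [Field L] [Algebra K2 L] {m : ℕ}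

theorem aeval_root (e : (f2 m).rootSet L ≃ Fin (2 * m)) (i : Fin (2 * m)) :
    aeval ((e.symm i : (f2 m).rootSet L) : L) (f2 m) = 0 :=
  aeval_eq_zero_of_mem_rootSet (e.symm i).2

theorem rho_two_trans [Algebra (ZMod 2) L] [IsScalarTower (ZMod 2) K2 L] [Normal K2 L]
    (hm : 4 ≤ m) (e : (f2 m).rootSet L ≃ Fin (2 * m)) :
    MulAction.IsMultiplyPretransitive (rho e).range (Fin (2 * m)) 2 := by
  classical
  apply two_trans_of
  · intro a b
    have h : (({a, b} : Finset (Fin (2 * m))))ᶜ.Nonempty := by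
      rw [← Finset.card_pos, Finset.card_compl, Fintype.card_fin]
      have := Finset.card_le_two (a := a) (b := b)
      omega
    obtain ⟨c, hc⟩ := h
    simp only [Finset.mem_compl, Finset.mem_insert, Finset.mem_singleton, not_or] at hc
    exact ⟨c, hc.1, hc.2⟩
  · intro y z z' hz hz'
    obtain ⟨σ, h1, h2⟩ := exists_aut (L := L) hm (aeval_root e y) (aeval_root e z)
      (aeval_root e z') (fun h => hz (yinj e h)) (fun h => hz' (yinj e h))
    refine ⟨⟨rho e σ, σ, rfl⟩, rho_eq_of e h1, rho_eq_of e h2⟩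

theorem rho_primitive [Algebra (ZMod 2) L] [IsScalarTower (ZMod 2) K2 L] [Normal K2 L]
    (hm : 4 ≤ m) (e : (f2 m).rootSet L ≃ Fin (2 * m)) :
    MulAction.IsPreprimitive (rho e).range (Fin (2 * m)) :=
  MulAction.isPreprimitive_of_is_two_pretransitive (rho_two_trans hm e)

variable [Algebra R1 L] [IsScalarTower R1 K2 L] [FiniteDimensional K2 L] [IsGalois K2 L]

theorem exists_integral (hm : 4 ≤ m) (y : Fin (2 * m) → L)
    (hy : (f2 m).map (algebraMap K2 L) = ∏ i, (X - C (y i))) :
    ∃ ys : Fin (2 * m) → SS L, (∀ i, (ys i : L) = y i) ∧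
      Fpol 1 (algebraMap R1 (SS L) X) m = ∏ i, (X - C (ys i)) := by
  have h1 : (f2 m).map (algebraMap K2 L) = (Fpol 1 (X : R1) m).map (algebraMap R1 L) := by
    rw [f2, map_Fpol, map_Fpol, map_one, map_one, IsScalarTower.algebraMap_apply R1 K2 L,
      RatFunc.algebraMap_X]
  have hint : ∀ i, IsIntegral R1 (y i) := by
    intro i
    refine ⟨Fpol 1 X m, (Fpol_monic _ hm).1, ?_⟩
    rw [← eval_map, ← h1, hy, eval_prod]
    exact Finset.prod_eq_zero (Finset.mem_univ i) (by simp)
  refine ⟨fun i => ⟨y i, hint i⟩, fun i => rfl, ?_⟩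
  have hinj : Function.Injective (algebraMap (SS L) L) := FaithfulSMul.algebraMap_injective _ _
  apply map_injective _ hinj
  rw [map_Fpol, map_one, ← IsScalarTower.algebraMap_apply, Polynomial.map_prod]
  rw [h1, map_Fpol, map_one] at hy
  rw [hy]
  simp only [Polynomial.map_sub, map_X, map_C]
  rfl

theorem exists_three_cycle (hm : 4 ≤ m) (e : (f2 m).rootSet L ≃ Fin (2 * m))
    (hy : (f2 m).map (algebraMap K2 L) = ∏ i, (X - C ((e.symm i : (f2 m).rootSet L) : L)))
    (hgen : Algebra.adjoin K2 ((f2 m).rootSet L) = ⊤) :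
    ∃ g ∈ (rho e).range, g.IsThreeCycle := by
  classical
  obtain ⟨ys, hys, hfac⟩ := exists_integral hm _ hy
  obtain ⟨P, hP, hPX⟩ := exists_prime_over (L := L)
  obtain ⟨σ, hσ, ho⟩ := exists_inertia hm P ys hfac
  have hv : algebraMap R1 (SS L) X ∈ P := by
    have h1 : (X : R1) ∈ pX := Ideal.mem_span_singleton_self X
    rw [P.over_def pX] at h1
    exact h1
  refine ⟨rho e σ, ⟨σ, rfl⟩, ?_⟩
  have hord : orderOf (rho e σ) = 3 := by
    rw [orderOf_injective _ (rho_injective e hgen), ho]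
  have hsupp : ∀ i ∈ (rho e σ).support, ys i ∈ P := by
    intro i hi
    rw [Perm.mem_support] at hi
    have h1 : σ • ys i = ys (rho e σ i) := by
      apply Subtype.ext
      rw [integralClosure.coe_smul, hys, hys, rho_spec]
      rfl
    have h2 : ys (rho e σ i) - ys i ∈ P := by
      rw [← h1]; exact hσ (ys i)
    refine root_diff_mem P hm _ hv ys hfac (Ne.symm hi) ?_
    rw [← neg_sub]
    exact P.neg_mem h2
  have hle := card_mem_le P hm _ hv ys hfac _ hsupp
  have hne : rho e σ ≠ 1 := by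
    intro h
    rw [h, orderOf_one] at hord
    omega
  have hge := Perm.two_le_card_support_of_ne_one hne
  have h2 : (rho e σ).support.card ≠ 2 := by
    intro h
    rw [Perm.card_support_eq_two] at h
    rw [h.orderOf] at hord
    omega
  rw [← card_support_eq_three_iff]
  omega

theorem alternating_le [Algebra (ZMod 2) L] [IsScalarTower (ZMod 2) K2 L]
    (hm : 4 ≤ m) (e : (f2 m).rootSet L ≃ Fin (2 * m))
    (hy : (f2 m).map (algebraMap K2 L) = ∏ i, (X - C ((e.symm i : (f2 m).rootSet L) : L)))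
    (hgen : Algebra.adjoin K2 ((f2 m).rootSet L) = ⊤) :
    alternatingGroup (Fin (2 * m)) ≤ (rho e).range := by
  obtain ⟨g, hg, h3⟩ := exists_three_cycle hm e hy hgen
  exact Perm.alternatingGroup_le_of_isPreprimitive_of_isThreeCycle_mem (rho_primitive hm e) h3 hg

end main

end MP7f
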