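import Mathlib

namespace MP7f

open Matrix Equiv

variable {n : ℕ} {R S : Type*} [CommRing R] [CommRing S]

/-- The Vandermonde determinant of a tuple. -/
noncomputable def vV (y : Fin n → R) : R := (vandermonde y).det

/-- The term of the Leibniz expansion. -/
def term (y : Fin n → R) (σ : Perm (Fin n)) : R := ∏ i, y (σ i) ^ (i : ℕ)

/-- The Vandermonde permanent of a tuple. -/
noncomputable def vP (y : Fin n → R) : R := ∑ σ : Perm (Fin n), term y σ

/-- The odd part of the Vandermonde permanent. -/
noncomputable def vE (y : Fin n → R) : R :=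
  ∑ σ : Perm (Fin n), if Perm.sign σ = -1 then term y σ else 0

theorem term_comp (y : Fin n → R) (p σ : Perm (Fin n)) :
    term (y ∘ p) σ = term y (p * σ) := by
  simp [term]

theorem sign_cases (σ : Perm (Fin n)) : Perm.sign σ = 1 ∨ Perm.sign σ = -1 :=
  Int.units_eq_one_or _

theorem vV_eq (y : Fin n → R) : vV y = vP y - 2 * vE y := by
  have : vV y = ∑ σ : Perm (Fin n), ((Perm.sign σ : ℤ) : R) * term y σ := by
    rw [vV, det_apply']
    rfl
  rw [this, vP, vE, Finset.mul_sum, ← Finset.sum_sub_distrib]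
  refine Finset.sum_congr rfl fun σ _ => ?_
  rcases sign_cases σ with h | h
  · rw [h]; simp
  · rw [h]; simp; ring

theorem vP_comp (y : Fin n → R) (p : Perm (Fin n)) : vP (y ∘ p) = vP y := by
  unfold vP
  simp only [term_comp]
  exact Equiv.sum_comp (Equiv.mulLeft p) (fun τ => term y τ)

theorem vV_comp (y : Fin n → R) (p : Perm (Fin n)) :
    vV (y ∘ p) = ((Perm.sign p : ℤ) : R) * vV y := by
  have : vandermonde (y ∘ p) = (vandermonde y).submatrix p id := by
    ext i j; simp [vandermonde]
  rw [vV, this, det_permute]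
  rfl

theorem vE_comp_even (y : Fin n → R) (p : Perm (Fin n)) (hp : Perm.sign p = 1) :
    vE (y ∘ p) = vE y := by
  unfold vE
  simp only [term_comp]
  rw [← Equiv.sum_comp (Equiv.mulLeft p) (fun τ => if Perm.sign τ = -1 then term y τ else 0)]
  refine Finset.sum_congr rfl fun σ _ => ?_
  simp [hp]

theorem vE_comp_odd (y : Fin n → R) (p : Perm (Fin n)) (hp : Perm.sign p = -1) :
    vE (y ∘ p) = vP y - vE y := by
  unfold vE vP
  simp only [term_comp]
  rw [← Finset.sum_sub_distrib,
    ← Equiv.sum_comp (Equiv.mulLeft p)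
      (fun τ => term y τ - if Perm.sign τ = -1 then term y τ else 0)]
  refine Finset.sum_congr rfl fun σ _ => ?_
  rcases sign_cases σ with h | h
  · simp [hp, h]
  · simp [hp, h]

theorem map_term (g : R →+* S) (y : Fin n → R) (σ : Perm (Fin n)) :
    g (term y σ) = term (g ∘ y) σ := by
  simp [term]

theorem map_vP (g : R →+* S) (y : Fin n → R) : g (vP y) = vP (g ∘ y) := by
  simp [vP, map_term]

theorem map_vE (g : R →+* S) (y : Fin n → R) : g (vE y) = vE (g ∘ y) := by
  rw [vE, map_sum, vE]
  refine Finset.sum_congr rfl fun σ _ => ?_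
  split_ifs
  · rw [map_term]
  · simp

theorem map_vV (g : R →+* S) (y : Fin n → R) : g (vV y) = vV (g ∘ y) := by
  rw [vV_eq, vV_eq, map_sub, map_mul, map_vP, map_vE, map_ofNat]

/-- The quantity `E ^ 2 - P E`. -/
noncomputable def vB (y : Fin n → R) : R := vE y ^ 2 - vP y * vE y

theorem map_vB (g : R →+* S) (y : Fin n → R) : g (vB y) = vB (g ∘ y) := by
  simp [vB, map_vP, map_vE]

theorem vB_comp (y : Fin n → R) (p : Perm (Fin n)) : vB (y ∘ p) = vB y := by
  unfold vB
  rw [vP_comp]
  rcases sign_cases p with h | h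
  · rw [vE_comp_even _ _ h]
  · rw [vE_comp_odd _ _ h]; ring

theorem four_vB (y : Fin n → R) : 4 * vB y = vV y ^ 2 - vP y ^ 2 := by
  rw [vV_eq, vB]; ring

theorem vV_sq_comp (y : Fin n → R) (p : Perm (Fin n)) : vV (y ∘ p) ^ 2 = vV y ^ 2 := by
  rw [vV_comp]
  rcases sign_cases p with h | h <;> rw [h] <;> simp

/-- `vV` of a tuple is nonzero iff the tuple is injective. -/
theorem vV_ne_zero [IsDomain R] {y : Fin n → R} (hy : Function.Injective y) : vV y ≠ 0 :=
  det_vandermonde_ne_zero_iff.mpr hy

/-- The candidate values of the elementary symmetric functions. -/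
def coefs {A : Type*} [CommRing A] (F : Polynomial A) (n : ℕ) (i : Fin n) : A :=
  (-1) ^ ((i : ℕ) + 1) * F.coeff (n - (i + 1))

open MvPolynomial in
theorem transfer_aux {A : Type*} [CommRing A] (b : MvPolynomial (Fin n) ℤ)
    (F : Polynomial A) (g : A →+* R) (y : Fin n → R)
    (h : F.map g = ∏ i, (Polynomial.X - Polynomial.C (y i))) :
    g (MvPolynomial.eval₂Hom (Int.castRingHom A) (coefs F n) b) =
          MvPolynomial.eval₂Hom (Int.castRingHom R) y
            (MvPolynomial.aeval (fun i : Fin n => esymm (Fin n) ℤ (i + 1)) b) := by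
  have h1 : ∀ i : Fin n, g (coefs F n i) =
      MvPolynomial.eval₂Hom (Int.castRingHom R) y (esymm (Fin n) ℤ (i + 1)) := by
    intro i
    have h2 : (F.map g).coeff (n - (i + 1)) =
        (-1) ^ ((i : ℕ) + 1) * ((Finset.univ : Finset (Fin n)).val.map y).esymm (i + 1) := by
      rw [h]
      have h3 := Multiset.prod_X_sub_C_coeff
        ((Finset.univ : Finset (Fin n)).val.map y) (k := n - (i + 1)) (by simp)
      have h4 : Multiset.card ((Finset.univ : Finset (Fin n)).val.map y) = n := by simp
      have h5 : n - (n - ((i : ℕ) + 1)) = i + 1 := by omega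
      rw [h4, h5] at h3
      rw [← h3]
      congr 1
      rw [Multiset.map_map]
      rfl
    unfold coefs
    simp only [map_mul, map_pow, map_neg, map_one]
    rw [Polynomial.coeff_map] at h2
    rw [h2, ← mul_assoc, ← pow_add, Even.neg_one_pow (by simp), one_mul]
    have := MvPolynomial.aeval_esymm_eq_multiset_esymm (Fin n) ℤ (i + 1) (fun j => y j)
    rw [← this]
    rfl
  have h6 : (MvPolynomial.eval₂Hom (Int.castRingHom R) y)
      ((MvPolynomial.aeval (fun i : Fin n => esymm (Fin n) ℤ (i + 1))) b) =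
      MvPolynomial.eval₂Hom (Int.castRingHom R)
        (fun i : Fin n =>
          MvPolynomial.eval₂Hom (Int.castRingHom R) y (esymm (Fin n) ℤ (i + 1))) b := by
    have h7 : (MvPolynomial.eval₂Hom (Int.castRingHom R) y).comp
        ((MvPolynomial.aeval (fun i : Fin n => esymm (Fin n) ℤ (i + 1)) :
          MvPolynomial (Fin n) ℤ →ₐ[ℤ] MvPolynomial (Fin n) ℤ) :
          MvPolynomial (Fin n) ℤ →+* MvPolynomial (Fin n) ℤ) =
        MvPolynomial.eval₂Hom (Int.castRingHom R)
        (fun i : Fin n =>
          MvPolynomial.eval₂Hom (Int.castRingHom R) y (esymm (Fin n) ℤ (i + 1))) := by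
      apply MvPolynomial.ringHom_ext
      · intro r; simp
      · intro i; simp
    exact DFunLike.congr_fun h7 b
  rw [h6, ← RingHom.comp_apply]
  congr 1
  apply MvPolynomial.ringHom_ext
  · intro r; simp
  · intro i; simp only [RingHom.comp_apply, MvPolynomial.coe_eval₂Hom, MvPolynomial.eval₂_X]
    exact h1 i

open MvPolynomial in
/-- Values of symmetric polynomials at the roots of a monic polynomial are given by a universal
element of the coefficient ring. -/
theorem transfer {A : Type*} [CommRing A] (s : MvPolynomial (Fin n) ℤ) (hs : s.IsSymmetric)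
    (F : Polynomial A) :
    ∃ a : A, (∀ (g : A →+* R) (y : Fin n → R),
        F.map g = ∏ i, (Polynomial.X - Polynomial.C (y i)) →
        g a = MvPolynomial.eval₂Hom (Int.castRingHom R) y s) ∧
      (∀ (g : A →+* S) (y : Fin n → S),
        F.map g = ∏ i, (Polynomial.X - Polynomial.C (y i)) →
        g a = MvPolynomial.eval₂Hom (Int.castRingHom S) y s) := by
  obtain ⟨b, hb⟩ := esymmAlgHom_fin_surjective (m := n) (n := n) ℤ le_rfl
    ⟨s, hs⟩
  have hb' : MvPolynomial.aeval (fun i : Fin n => esymm (Fin n) ℤ (i + 1)) b = s := by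
    have := congrArg Subtype.val hb
    simpa [esymmAlgHom_apply] using this
  refine ⟨MvPolynomial.eval₂Hom (Int.castRingHom A) (coefs F n) b, fun g y h => ?_,
    fun g y h => ?_⟩
  · rw [transfer_aux b F g y h, hb']
  · rw [transfer_aux b F g y h, hb']

open MvPolynomial in
theorem eval_vP (y : Fin n → R) :
    MvPolynomial.eval₂Hom (Int.castRingHom R) y (vP (fun i => (X i : MvPolynomial (Fin n) ℤ))) =
      vP y := by
  rw [map_vP]; congr 1; ext i; simp

open MvPolynomial in
theorem eval_vB (y : Fin n → R) :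
    MvPolynomial.eval₂Hom (Int.castRingHom R) y (vB (fun i => (X i : MvPolynomial (Fin n) ℤ))) =
      vB y := by
  rw [map_vB]; congr 1; ext i; simp

open MvPolynomial in
theorem symm_vP : (vP (fun i => (X i : MvPolynomial (Fin n) ℤ))).IsSymmetric := by
  intro e
  have := map_vP ((rename e : MvPolynomial (Fin n) ℤ →ₐ[ℤ] MvPolynomial (Fin n) ℤ) :
    MvPolynomial (Fin n) ℤ →+* MvPolynomial (Fin n) ℤ)
    (fun i => (X i : MvPolynomial (Fin n) ℤ))
  simp only [RingHom.coe_coe] at this
  rw [this, ← vP_comp (fun i => (X i : MvPolynomial (Fin n) ℤ)) e]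
  congr 1; ext i; simp

open MvPolynomial in
theorem symm_vB : (vB (fun i => (X i : MvPolynomial (Fin n) ℤ))).IsSymmetric := by
  intro e
  have := map_vB ((rename e : MvPolynomial (Fin n) ℤ →ₐ[ℤ] MvPolynomial (Fin n) ℤ) :
    MvPolynomial (Fin n) ℤ →+* MvPolynomial (Fin n) ℤ)
    (fun i => (X i : MvPolynomial (Fin n) ℤ))
  simp only [RingHom.coe_coe] at this
  rw [this, ← vB_comp (fun i => (X i : MvPolynomial (Fin n) ℤ)) e]
  congr 1; ext i; simp

end MP7f
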