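import Pool.Agent.Lib.MP_7f581e_nt.Sign

namespace MP7f

open Matrix Equiv

variable {n : ℕ}

/-- The abstract sign lemma: from a congruence modulo `8` for the discriminant of a lift to
characteristic zero we obtain an explicit generator of the sign extension in characteristic
two. -/
theorem exists_sign_elt {A Ω L : Type*} [CommRing A] [CommRing Ω] [Field L] [CharP L 2]
    (F : Polynomial A) (ι : A →+* Ω) (hι : Function.Injective ι) (φ : A →+* L)
    (hφ : ∀ a, φ a = 0 → (2 : A) ∣ a) (h4 : ∀ a : A, 4 * a = 0 → a = 0)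
    (yt : Fin n → Ω) (hyt : F.map ι = ∏ i, (Polynomial.X - Polynomial.C (yt i)))
    (y : Fin n → L) (hy : F.map φ = ∏ i, (Polynomial.X - Polynomial.C (y i)))
    (hinj : Function.Injective y)
    (d g ε ζ r : A) (hd : ι d = vV yt ^ 2)
    (h : g ^ 2 * d = ε ^ 2 + 4 * ζ + 8 * r) (hg : φ g ≠ 0) :
    ∃ η : A, φ ε ≠ 0 ∧ vP y ≠ 0 ∧
      (vE y / vP y + φ η / φ ε) ^ 2 + (vE y / vP y + φ η / φ ε) = φ ζ / φ ε ^ 2 := by
  have two0 : (2 : L) = 0 := CharTwo.two_eq_zero
  obtain ⟨p, hp1, hp2⟩ := transfer (R := Ω) (S := L) _ (symm_vP (n := n)) F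
  obtain ⟨b, hb1, hb2⟩ := transfer (R := Ω) (S := L) _ (symm_vB (n := n)) F
  have P1 : ι p = vP yt := by rw [hp1 ι yt hyt, eval_vP]
  have P2 : φ p = vP y := by rw [hp2 φ y hy, eval_vP]
  have B1 : ι b = vB yt := by rw [hb1 ι yt hyt, eval_vB]
  have B2 : φ b = vB y := by rw [hb2 φ y hy, eval_vB]
  have hb : 4 * b = d - p ^ 2 := by
    apply hι
    have := four_vB yt
    rw [map_mul, map_sub, map_pow, map_ofNat, B1, hd, P1, this]
  have hVP : vV y = vP y := by rw [vV_eq, two0]; ring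
  have hP0 : vP y ≠ 0 := by rw [← hVP]; exact vV_ne_zero hinj
  have e1 : φ (g * p - ε) = 0 := by
    have h1 : (φ (g * p - ε)) ^ 2 = 0 := by
      have h2 : (g * p) ^ 2 = ε ^ 2 + 4 * (ζ - g ^ 2 * b + 2 * r) := by
        linear_combination h + g ^ 2 * hb
      have h3 : φ ((g * p) ^ 2) = φ (ε ^ 2) := by
        rw [h2, map_add, map_mul, map_ofNat]
        have : (4 : L) = 2 * 2 := by norm_num
        rw [this, two0]; ring
      have h5 : (φ (g * p - ε)) ^ 2 = φ ((g * p) ^ 2) + φ (ε ^ 2) - 2 * φ (g * p) * φ ε := by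
        rw [map_sub, map_pow, map_pow]; ring
      rw [h5, h3, two0]
      have : φ (ε ^ 2) + φ (ε ^ 2) = 2 * φ (ε ^ 2) := by ring
      rw [this, two0]; ring
    exact pow_eq_zero_iff (two_ne_zero) |>.mp h1
  obtain ⟨η, hη⟩ := hφ _ e1
  have hgp : g * p = ε + 2 * η := by linear_combination hη
  have hφgp : φ g * φ p = φ ε := by
    rw [← map_mul, hgp, map_add, map_mul, map_ofNat, two0]; ring
  have hε : φ ε ≠ 0 := by
    rw [← hφgp, P2]; exact mul_ne_zero hg hP0
  have hgb : g ^ 2 * b = ζ + 2 * r - ε * η - η ^ 2 := by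
    have : 4 * (g ^ 2 * b - (ζ + 2 * r - ε * η - η ^ 2)) = 0 := by
      linear_combination g ^ 2 * hb + h - (g * p + ε + 2 * η) * hgp
    exact sub_eq_zero.mp (h4 _ this)
  have hgb' : φ g ^ 2 * φ b = φ ζ - φ ε * φ η - φ η ^ 2 := by
    have := congrArg φ hgb
    simp only [map_sub, map_add, map_mul, map_pow, map_ofNat, two0] at this
    rw [this]; ring
  refine ⟨η, hε, hP0, ?_⟩
  have hB : vB y = vE y ^ 2 - vP y * vE y := rfl
  rw [B2, hB] at hgb'
  rw [P2] at hφgp
  have hg' : φ g = φ ε / vP y := by field_simp; exact hφgp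
  rw [hg'] at hgb'
  field_simp at hgb' ⊢
  have h8 : (2 : L) * (φ ε * vE y * φ η * vP y) = 0 := by rw [two0]; ring
  have h9 : (2 : L) * (φ ε * φ η * vP y ^ 2) = 0 := by rw [two0]; ring
  have h10 : (2 : L) * (φ ε ^ 2 * vE y * vP y) = 0 := by rw [two0]; ring
  have h11 : (2 : L) * (φ η ^ 2 * vP y ^ 2) = 0 := by rw [two0]; ring
  linear_combination hgb' + h8 + h10

end MP7f
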