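import Pool.Agent.Lib.MP_7f581e_nt.SignElt
import Pool.Agent.Lib.MP_7f581e_nt.Disc6

namespace MP7f

open Polynomial

theorem exists_fin_enum {Ω : Type*} (s : Multiset Ω) (n : ℕ) (hs : Multiset.card s = n) :
    ∃ y : Fin n → Ω, s = (Finset.univ : Finset (Fin n)).val.map y := by
  subst hs
  induction s using Quotient.inductionOn with
  | h l =>
    refine ⟨fun i => l.get (i.cast (by simp)), ?_⟩
    rw [Fin.univ_val_map]
    simp only [Multiset.quot_mk_to_coe, Multiset.coe_card]
    congr 1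
    exact (List.ofFn_get l).symm

theorem exists_prod_fin {F : Type*} [Field F] [IsAlgClosed F] (P : F[X]) (hP : P.Monic)
    {n : ℕ} (hn : P.natDegree = n) : ∃ y : Fin n → F, P = ∏ i, (X - C (y i)) := by
  have hs : P.Splits := IsAlgClosed.splits P
  obtain ⟨y, hy⟩ := exists_fin_enum P.roots n (by rw [← hs.natDegree_eq_card_roots, hn])
  refine ⟨y, ?_⟩
  conv_lhs => rw [hs.eq_prod_roots_of_monic hP, hy, Multiset.map_map]
  rfl

theorem exists_enum {F L : Type*} [Field F] [Field L] [Algebra F L] (f : F[X]) (hf : f.Monic)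
    (hsep : f.Separable) (hsp : (f.map (algebraMap F L)).Splits) {n : ℕ} (hn : f.natDegree = n) :
    ∃ e : f.rootSet L ≃ Fin n, f.map (algebraMap F L) =
      ∏ i, (X - C ((e.symm i : f.rootSet L) : L)) := by
  classical
  have hcard : Fintype.card (f.rootSet L) = n := by
    rw [card_rootSet_eq_natDegree hsep hsp, hn]
  refine ⟨Fintype.equivFinOfCardEq hcard, ?_⟩
  set e := Fintype.equivFinOfCardEq hcard
  have h1 : ∏ i, (X - C ((e.symm i : f.rootSet L) : L)) = ∏ r : f.rootSet L, (X - C (r : L)) :=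
    Equiv.prod_comp e.symm (fun r : f.rootSet L => (X - C (r : L)))
  rw [h1]
  have h2 : (f.map (algebraMap F L)).roots.Nodup := nodup_roots hsep.map
  rw [hsp.eq_prod_roots_of_monic (hf.map _)]
  have h3 : ∏ r : f.rootSet L, (X - C (r : L)) =
      ∏ r ∈ (f.map (algebraMap F L)).roots.toFinset, (X - C r) :=
    Finset.prod_coe_sort ((f.map (algebraMap F L)).roots.toFinset) (fun r => (X - C r : L[X]))
  rw [h3, Finset.prod, Multiset.toFinset_val, Multiset.dedup_eq_self.mpr h2]

/-- The base field. -/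
abbrev K2 := RatFunc (ZMod 2)

instance : CharP K2 2 := charP_of_injective_algebraMap
  (algebraMap (ZMod 2) K2).injective 2

/-- The polynomial over the rational function field. -/
noncomputable def f2 (m : ℕ) : K2[X] := Fpol 1 RatFunc.X m

/-- Reduction of the coefficient ring. -/
noncomputable def phiK : A0 →+* K2 :=
  (algebraMap (ZMod 2)[X] K2).comp (mapRingHom (Int.castRingHom (ZMod 2)))

theorem phiK_X : phiK X = RatFunc.X := by simp [phiK]

theorem phiK_C (n : ℤ) : phiK (C n) = (n : K2) := by simp [phiK]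

theorem phiK_ker (a : A0) (h : phiK a = 0) : (2 : A0) ∣ a := by
  unfold phiK at h
  rw [RingHom.comp_apply, FaithfulSMul.algebraMap_eq_zero_iff] at h
  have h2 : (2 : A0) = C 2 := by simp
  rw [h2, C_dvd_iff_dvd_coeff]
  intro i
  have := congrArg (fun p : (ZMod 2)[X] => p.coeff i) h
  simp only [coe_mapRingHom, coeff_map, eq_intCast, coeff_zero] at this
  exact (ZMod.intCast_zmod_eq_zero_iff_dvd _ 2).mp this

theorem map_phi_Fpol (m : ℕ) {L : Type*} [Field L] [Algebra K2 L] :
    (Fpol (C ((-1 : ℤ) ^ m)) X m : A0[X]).map ((algebraMap K2 L).comp phiK) =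
      (f2 m).map (algebraMap K2 L) := by
  rw [← Polynomial.map_map, map_Fpol, phiK_X, phiK_C]
  have : (((-1 : ℤ) ^ m : ℤ) : K2) = 1 := by
    push_cast; rw [CharTwo.neg_eq, one_pow]
  rw [this]; rfl

/-- The parameter `c`. -/
noncomputable def cpar (m : ℕ) : K2 := if m % 4 ≤ 1 then 0 else 1

/-- The parameter of the sign extension. -/
noncomputable def bpar (m : ℕ) : K2 := if m = 5 then 0 else cpar m + 1 / (1 + RatFunc.X)

/-- Existence of the generator of the sign extension (first form). -/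
theorem exists_sign0 {m : ℕ} (hm : 4 ≤ m) {L : Type*} [Field L] [Algebra K2 L]
    (y : Fin (2 * m) → L) (hinj : Function.Injective y)
    (hy : (f2 m).map (algebraMap K2 L) = ∏ i, (X - C (y i))) :
    ∃ w : K2, vP y ≠ 0 ∧
      (vE y / vP y + algebraMap K2 L w) ^ 2 + (vE y / vP y + algebraMap K2 L w) =
        algebraMap K2 L (cpar m + 1 / (1 + RatFunc.X) +
          (RatFunc.X * d4 m + d5 m) / (1 + RatFunc.X) ^ 2) := by
  have : CharP L 2 := charP_of_injective_algebraMap (algebraMap K2 L).injective 2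
  -- the roots in characteristic zero
  have hmonic : ((Fpol (C ((-1 : ℤ) ^ m)) X m : A0[X]).map (algebraMap A0 Om)).Monic ∧
      ((Fpol (C ((-1 : ℤ) ^ m)) X m : A0[X]).map (algebraMap A0 Om)).natDegree = 2 * m := by
    have h : (Fpol (C ((-1 : ℤ) ^ m)) X m : A0[X]).map (algebraMap A0 Om) =
        X ^ (2 * m) + (X ^ (2 * m - 1) + X ^ (2 * m - 2) +
          C (algebraMap A0 Om (C ((-1 : ℤ) ^ m))) * X ^ 4 +
          C (algebraMap A0 Om (C ((-1 : ℤ) ^ m))) * X ^ 3 +
          C (algebraMap A0 Om X) * (X + 1)) := by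
      rw [map_Fpol]; unfold Fpol; ring
    have hb : (X ^ (2 * m - 1) + X ^ (2 * m - 2) +
          C (algebraMap A0 Om (C ((-1 : ℤ) ^ m))) * X ^ 4 +
          C (algebraMap A0 Om (C ((-1 : ℤ) ^ m))) * X ^ 3 +
          C (algebraMap A0 Om X) * (X + 1) : Om[X]).degree ≤
        ((2 * m - 1 : ℕ) : WithBot ℕ) := by
      refine (degree_add_le_of_degree_le (degree_add_le_of_degree_le
        (degree_add_le_of_degree_le (degree_add_le_of_degree_le ?_ ?_) ?_) ?_) ?_)
      · exact (degree_X_pow_le _)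
      · exact (degree_X_pow_le _).trans (by exact_mod_cast (by omega : 2 * m - 2 ≤ 2 * m - 1))
      · exact (degree_C_mul_X_pow_le _ _).trans (by exact_mod_cast (by omega : 4 ≤ 2 * m - 1))
      · exact (degree_C_mul_X_pow_le _ _).trans (by exact_mod_cast (by omega : 3 ≤ 2 * m - 1))
      · have h1 : (C (algebraMap A0 Om X) * (X + 1) : Om[X]).degree ≤ 1 := by compute_degree
        exact h1.trans (by exact_mod_cast (by omega : 1 ≤ 2 * m - 1))
    have hd := lt_of_le_of_lt hb
      (by exact_mod_cast (by omega : 2 * m - 1 < 2 * m) : ((2 * m - 1 : ℕ) : WithBot ℕ) <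
        ((2 * m : ℕ) : WithBot ℕ))
    constructor
    · rw [h]; exact monic_X_pow_add (by exact_mod_cast hd)
    · rw [h, natDegree_add_eq_left_of_degree_lt, natDegree_X_pow]
      rw [degree_X_pow]; exact_mod_cast hd
  obtain ⟨yt, hyt⟩ := exists_prod_fin _ hmonic.1 hmonic.2
  obtain ⟨d, r, hd, hcong⟩ := disc_cong hm yt hyt
  set φ : A0 →+* L := (algebraMap K2 L).comp phiK with hφ
  have hφy : (Fpol (C ((-1 : ℤ) ^ m)) X m : A0[X]).map φ = ∏ i, (X - C (y i)) := by
    rw [hφ, map_phi_Fpol, hy]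
  have hφker : ∀ a, φ a = 0 → (2 : A0) ∣ a := by
    intro a ha
    apply phiK_ker
    have : (algebraMap K2 L) (phiK a) = 0 := ha
    exact (map_eq_zero_iff _ (algebraMap K2 L).injective).mp this
  have h4 : ∀ a : A0, 4 * a = 0 → a = 0 := by
    intro a ha
    rcases mul_eq_zero.mp ha with h | h
    · exact absurd h (by norm_num)
    · exact h
  have hX0 : (RatFunc.X : K2) ≠ 0 := RatFunc.X_ne_zero
  have hX1 : (1 + RatFunc.X : K2) ≠ 0 := by
    intro h
    have h5 : algebraMap (ZMod 2)[X] K2 (1 + X) = 0 := by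
      rw [map_add, map_one, RatFunc.algebraMap_X, h]
    rw [FaithfulSMul.algebraMap_eq_zero_iff] at h5
    have h6 := congrArg (fun p : (ZMod 2)[X] => p.coeff 0) h5
    simp at h6
  have hα : phiK (C ((-1 : ℤ) ^ m)) = 1 := by
    rw [phiK_C]; push_cast; rw [CharTwo.neg_eq, one_pow]
  have hg : φ (X * (C ((-1 : ℤ) ^ m) + X)) ≠ 0 := by
    rw [hφ, RingHom.comp_apply, map_mul, map_add, phiK_X, hα]
    rw [Ne, map_eq_zero_iff _ (algebraMap K2 L).injective]
    exact mul_ne_zero hX0 hX1
  obtain ⟨η, hε, hP, hs⟩ := exists_sign_elt (Fpol (C ((-1 : ℤ) ^ m)) X m) (algebraMap A0 Om)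
    algMap_inj φ hφker h4 yt hyt y hφy hinj d _ _ _ r hd hcong hg
  refine ⟨phiK η / phiK (X ^ 2 * TT m ^ (m - 1) * (1 + X)), hP, ?_⟩
  have e1 : algebraMap K2 L (phiK η / phiK (X ^ 2 * TT m ^ (m - 1) * (1 + X))) =
      φ η / φ (X ^ 2 * TT m ^ (m - 1) * (1 + X)) := by
    rw [map_div₀]; rfl
  rw [e1, hs]
  have e2 : ∀ a, φ a = algebraMap K2 L (phiK a) := fun a => rfl
  rw [e2, e2, ← map_pow, ← map_div₀]
  congr 1
  have hε' : phiK (X ^ 2 * TT m ^ (m - 1) * (1 + X)) ≠ 0 := by
    intro h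
    apply hε
    rw [e2, h, map_zero]
  have hTT : TT m ^ (2 * m - 2) = (TT m ^ (m - 1)) ^ 2 := by
    rw [← pow_mul]; congr 1; omega
  rw [hTT]
  have hc : phiK (if m % 4 ≤ 1 then 0 else 1) = cpar m := by
    unfold cpar; split_ifs <;> simp
  have hd4 : phiK (d4 m) = d4 m := by unfold d4; split_ifs <;> simp
  have hd5 : phiK (d5 m) = d5 m := by unfold d5; split_ifs <;> simp
  simp only [map_mul, map_add, map_pow, map_one, phiK_X, hc, hd4, hd5] at hε' ⊢
  have hT : phiK (TT m) ^ (m - 1) ≠ 0 := by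
    intro h; apply hε'; rw [h]; ring
  field_simp

theorem one_add_X_ne : (1 + RatFunc.X : K2) ≠ 0 := by
  intro h
  have h5 : algebraMap (ZMod 2)[X] K2 (1 + X) = 0 := by
    rw [map_add, map_one, RatFunc.algebraMap_X, h]
  rw [FaithfulSMul.algebraMap_eq_zero_iff] at h5
  have h6 := congrArg (fun p : (ZMod 2)[X] => p.coeff 0) h5
  simp at h6

/-- Existence of the generator of the sign extension. -/
theorem exists_sign {m : ℕ} (hm : 4 ≤ m) {L : Type*} [Field L] [Algebra K2 L]
    (y : Fin (2 * m) → L) (hinj : Function.Injective y)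
    (hy : (f2 m).map (algebraMap K2 L) = ∏ i, (X - C (y i))) :
    ∃ w : K2, vP y ≠ 0 ∧
      (vE y / vP y + algebraMap K2 L w) ^ 2 + (vE y / vP y + algebraMap K2 L w) =
        algebraMap K2 L (bpar m) := by
  obtain ⟨w, hP, h⟩ := exists_sign0 hm y hinj hy
  refine ⟨w + (d4 m + d5 m) / (1 + RatFunc.X), hP, ?_⟩
  have two0 : (2 : L) = 0 := by
    haveI : CharP L 2 := charP_of_injective_algebraMap (algebraMap K2 L).injective 2
    exact CharTwo.two_eq_zero
  have two1 : (2 : K2) = 0 := CharTwo.two_eq_zero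
  set q := vE y / vP y
  have key : cpar m + 1 / (1 + RatFunc.X) + (RatFunc.X * d4 m + d5 m) / (1 + RatFunc.X) ^ 2 +
      (((d4 m + d5 m) / (1 + RatFunc.X)) ^ 2 + (d4 m + d5 m) / (1 + RatFunc.X)) = bpar m := by
    have h1 := one_add_X_ne
    rcases Nat.lt_or_ge 5 m with h5 | h5
    · have e4 : (d4 m : K2) = 0 := by unfold d4; rw [if_neg (by omega)]
      have e5 : (d5 m : K2) = 0 := by unfold d5; rw [if_neg (by omega)]
      unfold bpar
      rw [e4, e5, if_neg (by omega)]
      simp
    · have h45 : m = 4 ∨ m = 5 := by omega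
      rcases h45 with rfl | rfl
      · have e4 : (d4 4 : K2) = 1 := by unfold d4; rw [if_pos rfl]
        have e5 : (d5 4 : K2) = 0 := by unfold d5; rw [if_neg (by omega)]
        unfold bpar
        rw [e4, e5, if_neg (by omega)]
        field_simp
        linear_combination (1 + RatFunc.X) * two1
      · have e4 : (d4 5 : K2) = 0 := by unfold d4; rw [if_neg (by omega)]
        have e5 : (d5 5 : K2) = 1 := by unfold d5; rw [if_pos rfl]
        have ec : cpar 5 = 0 := by unfold cpar; rw [if_pos (by norm_num)]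
        unfold bpar
        rw [e4, e5, ec, if_pos rfl]
        field_simp
        linear_combination (2 + RatFunc.X) * two1
  rw [← key, map_add, map_add, ← h, map_add, map_pow]
  set u := algebraMap K2 L ((d4 m + d5 m) / (1 + RatFunc.X))
  linear_combination (q + algebraMap K2 L w) * u * two0

end MP7f
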