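import Pool.Agent.Lib.MP_7f581e_nt.Gen2

namespace MP7f

open Polynomial Equiv

/-- The polynomial of degree six. -/
noncomputable def F6 {R : Type*} [CommRing R] (v : R) : R[X] :=
  X ^ 6 + X ^ 4 + C (1 + v) * X + C v

theorem map_F6 {R S : Type*} [CommRing R] [CommRing S] (g : R →+* S) (v : R) :
    (F6 v).map g = F6 (g v) := by
  simp [F6]

theorem F6_monic {R : Type*} [CommRing R] [Nontrivial R] (v : R) :
    (F6 v).Monic ∧ (F6 v).natDegree = 6 := by
  constructor
  · unfold F6; monicity!
  · unfold F6; compute_degree!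

/-- The constant part of the pencil. -/
noncomputable def P6 : R1 := X ^ 6 + X ^ 4 + X

theorem P6_monic : P6.Monic := by unfold P6; monicity!

theorem P6_deg : P6.natDegree = 6 := by unfold P6; compute_degree!

theorem P6_one : P6.eval 1 = 1 := by
  unfold P6
  simp only [eval_add, eval_pow, eval_X, one_pow]
  decide

theorem fgen_P6 : fgen P6 = F6 RatFunc.X := by
  unfold fgen P6 F6
  simp only [Polynomial.map_add, Polynomial.map_pow, map_X, map_add, map_one]
  ring

theorem F6_derivative {R : Type*} [CommRing R] [CharP R 2] (v : R) :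
    derivative (F6 v) = C (1 + v) := by
  unfold F6
  simp only [derivative_add, derivative_X_pow, derivative_mul, derivative_C, derivative_X]
  have c6 : ((6 : ℕ) : R) = 0 := (CharP.cast_eq_zero_iff R 2 6).mpr (by norm_num)
  have c4 : ((4 : ℕ) : R) = 0 := (CharP.cast_eq_zero_iff R 2 4).mpr (by norm_num)
  rw [c6, c4]
  simp

theorem F6_separable {F : Type*} [Field F] [CharP F 2] (v : F) (hv1 : 1 + v ≠ 0) :
    (F6 v).Separable := by
  unfold Polynomial.Separable
  rw [F6_derivative]
  exact (isCoprime_one_right (x := F6 v)).of_isCoprime_of_dvd_right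
    ((isUnit_C.mpr (isUnit_iff_ne_zero.mpr hv1)).dvd)

section residue

theorem card_le_natDegree {k : Type*} [CommRing k] [IsDomain k] {n : ℕ} (z : Fin n → k)
    (hz : Function.Injective z) (q : k[X]) (hq : q ≠ 0) (B : Finset (Fin n))
    (hB : ∀ i ∈ B, q.eval (z i) = 0) : B.card ≤ q.natDegree := by
  classical
  rw [← Finset.card_image_of_injective B hz]
  apply card_le_degree_of_subset_roots
  intro x hx
  obtain ⟨i, hi, rfl⟩ := Finset.mem_image.mp hx
  exact (mem_roots hq).mpr (hB i hi)

variable {k : Type*} [CommRing k] [IsDomain k] [CharP k 2]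

theorem six_inj (w : k) (hw : 1 + w ≠ 0) (z : Fin 6 → k)
    (hz : F6 w = ∏ i, (X - C (z i))) : Function.Injective z := by
  intro i j hij
  by_contra hne
  have h1 : (X - C (z i)) ^ 2 ∣ F6 w := by
    rw [hz, ← Finset.mul_prod_erase Finset.univ _ (Finset.mem_univ i),
      ← Finset.mul_prod_erase (Finset.univ.erase i) _
        (Finset.mem_erase.mpr ⟨Ne.symm hne, Finset.mem_univ j⟩), ← hij, sq, ← mul_assoc]
    exact dvd_mul_right _ _
  obtain ⟨q, hq⟩ := h1
  have h2 := congrArg (eval (z i)) (F6_derivative w)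
  rw [hq] at h2
  simp only [derivative_mul, derivative_pow, eval_mul, eval_add, eval_pow, eval_X, eval_sub,
    eval_C, sub_self] at h2
  apply hw
  rw [← h2]
  simp

theorem six_res (w : k) (hw : w ^ 2 + w + 1 = 0) (z : Fin 6 → k)
    (hz : F6 w = ∏ i, (X - C (z i))) :
    Function.Injective z ∧ ∃ A : Finset (Fin 6), A.card = 2 ∧
      (∀ i ∈ A, z i ^ 64 ≠ z i) ∧ (∀ i, i ∉ A → z i ^ 64 = z i) := by
  classical
  have two0 : (2 : k) = 0 := CharTwo.two_eq_zero
  have hw0 : w ≠ 0 := by
    rintro rfl
    simp at hw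
  have hw1 : 1 + w ≠ 0 := by
    intro h
    apply hw0
    have : w ^ 2 = 0 := by linear_combination hw - h
    exact pow_eq_zero_iff (two_ne_zero) |>.mp this
  have hinj := six_inj w hw1 z hz
  have hroot : ∀ i, (z i ^ 2 + w * z i + w) * ((z i + w) * (z i ^ 3 + w ^ 2)) = 0 := by
    intro i
    have h1 := congrArg (eval (z i)) hz
    rw [eval_prod, Finset.prod_eq_zero (Finset.mem_univ i) (by simp)] at h1
    simp only [F6, eval_add, eval_mul, eval_pow, eval_X, eval_C] at h1
    set t := z i
    linear_combination h1 + (t ^ 4 + w * (w - 1) + t * (w + 1) * (w - 1)) * hw +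
      (-t ^ 4 + t ^ 2 * w ^ 3 + t ^ 3 * w ^ 2 + t ^ 5 * w) * two0
  refine ⟨hinj, Finset.univ.filter (fun i => z i ^ 2 + w * z i + w = 0), ?_, ?_, ?_⟩
  · set A := Finset.univ.filter (fun i => z i ^ 2 + w * z i + w = 0) with hA
    have d2 : (X ^ 2 + C w * X + C w : k[X]).natDegree = 2 := by compute_degree!
    have d4 : ((X + C w) * (X ^ 3 + C (w ^ 2)) : k[X]).natDegree = 4 := by
      rw [natDegree_mul (X_add_C_ne_zero w) (X_pow_add_C_ne_zero (by norm_num) _)]
      rw [natDegree_X_add_C, natDegree_X_pow_add_C]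
    have h1 : A.card ≤ 2 := by
      rw [← d2]
      apply card_le_natDegree z hinj
      · intro h0; rw [h0] at d2; simp at d2
      · intro i hi
        rw [hA, Finset.mem_filter] at hi
        simpa using hi.2
    have h2 : Aᶜ.card ≤ 4 := by
      rw [← d4]
      apply card_le_natDegree z hinj
      · intro h0; rw [h0] at d4; simp at d4
      · intro i hi
        have hne : z i ^ 2 + w * z i + w ≠ 0 := by
          intro h0
          rw [Finset.mem_compl] at hi
          exact hi (by rw [hA, Finset.mem_filter]; exact ⟨Finset.mem_univ i, h0⟩)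
        have := (mul_eq_zero.mp (hroot i)).resolve_left hne
        simpa using this
    have h3 := Finset.card_add_card_compl A
    rw [Fintype.card_fin] at h3
    omega
  · intro i hi
    have hi' := (Finset.mem_filter.mp hi).2
    obtain ⟨t, ht⟩ : ∃ t, t = z i := ⟨_, rfl⟩
    rw [← ht] at hi' ⊢
    have h4 : t ^ 4 = t + w := by
      linear_combination (t ^ 2 - w * t + w ^ 2 - w) * hi' +
        (-t * (w - 1) + 1 - (w - 1)) * hw + (-t + t * w ^ 2 - w - 1) * two0
    have hww : w ^ 4 = w := by linear_combination w * (w - 1) * hw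
    have h16 : t ^ 16 = t := by
      have e1 : t ^ 16 = ((t ^ 4) ^ 2) ^ 2 := by ring
      rw [e1, h4, CharTwo.add_sq, CharTwo.add_sq]
      have e2 : (t ^ 2) ^ 2 + (w ^ 2) ^ 2 = t ^ 4 + w ^ 4 := by ring
      rw [e2, h4, hww]
      linear_combination w * two0
    have h64 : t ^ 64 = t + w := by
      have e1 : t ^ 64 = (t ^ 16) ^ 4 := by ring
      rw [e1, h16, h4]
    rw [h64]
    intro h
    exact hw0 (by linear_combination h)
  · intro i hi
    have hne : z i ^ 2 + w * z i + w ≠ 0 := by
      intro h0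
      exact hi (Finset.mem_filter.mpr ⟨Finset.mem_univ i, h0⟩)
    have h1 := (mul_eq_zero.mp (hroot i)).resolve_left hne
    have hww : w ^ 3 = 1 := by linear_combination (w - 1) * hw
    obtain ⟨t, ht⟩ : ∃ t, t = z i := ⟨_, rfl⟩
    rw [← ht] at h1 ⊢
    rcases mul_eq_zero.mp h1 with h | h
    · have h2 : t = w := by linear_combination h - w * two0
      have e1 : w ^ 64 = (w ^ 3) ^ 21 * w := by ring
      rw [h2, e1, hww]; ring
    · have h2 : t ^ 3 = w ^ 2 := by linear_combination h - w ^ 2 * two0
      have e1 : t ^ 64 = (t ^ 3) ^ 21 * t := by ring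
      have e2 : (w ^ 2) ^ 21 = (w ^ 3) ^ 14 := by ring
      rw [e1, h2, e2, hww]; ring

end residue

end MP7f
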