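import Pool.Agent.Lib.MP_7f581e_nt.Six

namespace MP7f

open Polynomial Equiv

/-- The quadratic place. -/
noncomputable def q4 : R1 := X ^ 2 + X + 1

theorem q4_monic : q4.Monic := by unfold q4; monicity!

theorem q4_deg : q4.natDegree = 2 := by unfold q4; compute_degree!

theorem q4_irr : Irreducible q4 := by
  rw [q4_monic.irreducible_iff_roots_eq_zero_of_degree_le_three (by rw [q4_deg])
    (by rw [q4_deg]; norm_num)]
  rw [Multiset.eq_zero_iff_forall_notMem]
  intro a ha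
  have h1 := (mem_roots q4_monic.ne_zero).mp ha
  unfold q4 IsRoot at h1
  simp only [eval_add, eval_pow, eval_X, eval_one] at h1
  clear ha
  revert h1
  revert a
  decide

/-- The prime of the quadratic place. -/
noncomputable def pQ : Ideal R1 := Ideal.span {q4}

instance pQ_prime : pQ.IsPrime := by
  unfold pQ
  rw [Ideal.span_singleton_prime q4_monic.ne_zero]
  exact q4_irr.prime

theorem pQ_card : Nat.card (R1 ⧸ pQ) = 4 := by
  have h1 : Module.finrank (ZMod 2) (AdjoinRoot q4) = 2 := by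
    rw [(AdjoinRoot.powerBasis q4_monic.ne_zero).finrank, AdjoinRoot.powerBasis_dim, q4_deg]
  haveI : Module.Finite (ZMod 2) (AdjoinRoot q4) :=
    (AdjoinRoot.powerBasis q4_monic.ne_zero).finite
  have h2 : Nat.card (AdjoinRoot q4) = Nat.card (ZMod 2) ^ Module.finrank (ZMod 2) (AdjoinRoot q4) :=
    Module.natCard_eq_pow_finrank
  rw [h1] at h2
  have h3 : Nat.card (ZMod 2) = 2 := by simp
  rw [h3] at h2
  exact h2

instance pQ_finite : Finite (R1 ⧸ pQ) := by
  apply Nat.finite_of_card_ne_zero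
  rw [pQ_card]; norm_num

theorem map_residue6 {S : Type*} [CommRing S] (P : Ideal S) (v : S) (y : Fin 6 → S)
    (hy : F6 v = ∏ i, (X - C (y i))) :
    F6 (Ideal.Quotient.mk P v) = ∏ i, (X - C (Ideal.Quotient.mk P (y i))) := by
  have h := congrArg (fun p : S[X] => p.map (Ideal.Quotient.mk P)) hy
  simp only [Polynomial.map_prod, Polynomial.map_sub, map_X, map_C] at h
  rw [← h, map_F6]

section
variable {L : Type*} [Field L] [Algebra K2 L] [Algebra R1 L] [IsScalarTower R1 K2 L]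
  [FiniteDimensional K2 L] [IsGalois K2 L]

theorem exists_prime_overQ : ∃ P : Ideal (SS L), P.IsPrime ∧ P.LiesOver pQ := by
  obtain ⟨P⟩ := (inferInstance : Nonempty (pQ.primesOver (SS L)))
  exact ⟨P.1, P.2.1, P.2.2⟩

theorem exists_frob (P : Ideal (SS L)) [P.IsPrime] [P.LiesOver pQ] :
    ∃ σ : L ≃ₐ[K2] L, ∀ x : SS L, σ • x - x ^ 4 ∈ P := by
  haveI : Module.Finite (R1 ⧸ pQ) (SS L ⧸ P) := inferInstance
  haveI : Finite (SS L ⧸ P) := Module.finite_of_finite (R1 ⧸ pQ)
  obtain ⟨σ, hσ⟩ := IsArithFrobAt.exists_of_isInvariant R1 (L ≃ₐ[K2] L) P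
  refine ⟨σ, fun x => ?_⟩
  have h1 := hσ x
  have h2 : Nat.card (R1 ⧸ P.under R1) = 4 := by
    rw [← P.over_def pQ]; exact pQ_card
  rw [h2] at h1
  exact h1

theorem exists_integral6 {f : K2[X]} (hf : f = F6 RatFunc.X) (y : Fin 6 → L)
    (hy : f.map (algebraMap K2 L) = ∏ i, (X - C (y i))) :
    ∃ ys : Fin 6 → SS L, (∀ i, (ys i : L) = y i) ∧
      F6 (algebraMap R1 (SS L) X) = ∏ i, (X - C (ys i)) := by
  have h1 : f.map (algebraMap K2 L) = (F6 (X : R1)).map (algebraMap R1 L) := by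
    rw [hf, map_F6, map_F6, IsScalarTower.algebraMap_apply R1 K2 L, RatFunc.algebraMap_X]
  have hint : ∀ i, IsIntegral R1 (y i) := by
    intro i
    refine ⟨F6 X, (F6_monic _).1, ?_⟩
    rw [← eval_map, ← h1, hy, eval_prod]
    exact Finset.prod_eq_zero (Finset.mem_univ i) (by simp)
  refine ⟨fun i => ⟨y i, hint i⟩, fun i => rfl, ?_⟩
  have hinj : Function.Injective (algebraMap (SS L) L) := FaithfulSMul.algebraMap_injective _ _
  apply map_injective _ hinj
  rw [map_F6, ← IsScalarTower.algebraMap_apply, Polynomial.map_prod]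
  rw [h1, map_F6] at hy
  rw [hy]
  simp only [Polynomial.map_sub, map_X, map_C]
  rfl

theorem exists_swap {f : K2[X]} (hf : f = F6 RatFunc.X) (e : f.rootSet L ≃ Fin 6)
    (hy : f.map (algebraMap K2 L) = ∏ i, (X - C ((e.symm i : f.rootSet L) : L))) :
    ∃ g ∈ (rho e).range, g.IsSwap := by
  classical
  obtain ⟨ys, hys, hfac⟩ := exists_integral6 hf _ hy
  obtain ⟨P, hP, hPQ⟩ := exists_prime_overQ (L := L)
  obtain ⟨σ, hσ⟩ := exists_frob P
  obtain ⟨w, hw⟩ : ∃ w : SS L ⧸ P, w = Ideal.Quotient.mk P (algebraMap R1 (SS L) X) := ⟨_, rfl⟩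
  have hw0 : w ^ 2 + w + 1 = 0 := by
    have h1 : q4 ∈ pQ := Ideal.mem_span_singleton_self _
    rw [P.over_def pQ] at h1
    have h2 : algebraMap R1 (SS L) q4 ∈ P := h1
    rw [← Ideal.Quotient.eq_zero_iff_mem] at h2
    rw [hw, ← h2]
    unfold q4
    simp only [map_add, map_pow, map_one]
  have hz : F6 w = ∏ i, (X - C (Ideal.Quotient.mk P (ys i))) := by
    rw [hw]
    exact map_residue6 P _ ys hfac
  obtain ⟨hinj, A, hA, hA1, hA2⟩ := six_res w hw0 _ hz
  have hg : ∀ i, Ideal.Quotient.mk P (ys (rho e σ i)) = Ideal.Quotient.mk P (ys i) ^ 4 := by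
    intro i
    have h1 : σ • ys i = ys (rho e σ i) := by
      apply Subtype.ext
      rw [integralClosure.coe_smul, hys, hys, rho_spec]
      rfl
    rw [← h1, ← map_pow, Ideal.Quotient.eq]
    exact hσ (ys i)
  have hg3 : ∀ i, Ideal.Quotient.mk P (ys ((rho e σ ^ 3 : Perm (Fin 6)) i)) =
      Ideal.Quotient.mk P (ys i) ^ 64 := by
    intro i
    have h1 : (rho e σ ^ 3 : Perm (Fin 6)) i = rho e σ (rho e σ (rho e σ i)) := rfl
    rw [h1, hg, hg, hg]; ring
  refine ⟨rho e σ ^ 3, ⟨σ ^ 3, by rw [map_pow]⟩, ?_⟩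
  rw [← Perm.card_support_eq_two]
  refine Eq.trans ?_ hA
  congr 1
  ext i
  rw [Perm.mem_support]
  constructor
  · intro h
    by_contra hi
    apply h
    apply hinj
    exact (hg3 i).trans (hA2 i hi)
  · intro hi h
    apply hA1 i hi
    rw [← hg3, h]

end

end MP7f
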