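import Pool.Agent.Lib.MP_7f581e_nt.Six2

namespace MP7f

open Polynomial Equiv

section

variable {Ω : Type*} [Field Ω] [CharZero Ω] {v : Ω} {y : Fin 6 → Ω}

theorem root6 (h : F6 v = ∏ i, (X - C (y i))) (i : Fin 6) :
    y i ^ 6 + y i ^ 4 + (1 + v) * y i + v = 0 := by
  have h1 := congrArg (eval (y i)) h
  rw [eval_prod, Finset.prod_eq_zero (Finset.mem_univ i) (by simp)] at h1
  simpa [F6] using h1

theorem coeff6 (v : Ω) : (F6 v).coeff (6 - 0) = 1 ∧ (F6 v).coeff (6 - 1) = 0 ∧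
    (F6 v).coeff (6 - 2) = 1 ∧ (F6 v).coeff (6 - 3) = 0 ∧ (F6 v).coeff (6 - 4) = 0 ∧
    (F6 v).coeff (6 - 5) = 1 + v ∧ (F6 v).coeff (6 - 6) = v := by
  unfold F6
  refine ⟨?_, ?_, ?_, ?_, ?_, ?_, ?_⟩ <;>
    simp [coeff_X, coeff_one]

theorem ps6 (h : F6 v = ∏ i, (X - C (y i))) :
    ps y 1 = 0 ∧ ps y 2 = -2 ∧ ps y 3 = 0 ∧ ps y 4 = 2 ∧ ps y 5 = -5 * (1 + v) ∧
      ps y 6 = -2 - 6 * v ∧ ps y 8 = 2 + 8 * v ∧
      ps y 10 = -2 - 10 * v + 5 * (1 + v) ^ 2 := by
  obtain ⟨c0, c1, c2, c3, c4, c5, c6⟩ := coeff6 v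
  have n1 := newton y 1 (by omega)
  have n2 := newton y 2 (by omega)
  have n3 := newton y 3 (by omega)
  have n4 := newton y 4 (by omega)
  have n5 := newton y 5 (by omega)
  have n6 := newton y 6 (by omega)
  rw [← h] at n1 n2 n3 n4 n5 n6
  simp only [Finset.sum_range_succ, Finset.sum_range_zero, c0, c1, c2, c3, c4, c5, c6]
    at n1 n2 n3 n4 n5 n6
  norm_num at n1 n2 n3 n4 n5 n6
  have p1 : ps y 1 = 0 := by linear_combination n1
  have p2 : ps y 2 = -2 := by linear_combination n2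
  have p3 : ps y 3 = 0 := by linear_combination n3 - p1
  have p4 : ps y 4 = 2 := by linear_combination n4 - p2
  have p5 : ps y 5 = -5 * (1 + v) := by linear_combination n5 - p3
  have p6 : ps y 6 = -2 - 6 * v := by linear_combination n6 - p4 - (1 + v) * p1
  have r8 : ps y 8 = -(ps y 6 + (1 + v) * ps y 3 + v * ps y 2) := by
    unfold ps
    rw [Finset.mul_sum, Finset.mul_sum, ← Finset.sum_add_distrib, ← Finset.sum_add_distrib,
      ← Finset.sum_neg_distrib]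
    refine Finset.sum_congr rfl fun i _ => ?_
    linear_combination y i ^ 2 * root6 h i
  have r10 : ps y 10 = -(ps y 8 + (1 + v) * ps y 5 + v * ps y 4) := by
    unfold ps
    rw [Finset.mul_sum, Finset.mul_sum, ← Finset.sum_add_distrib, ← Finset.sum_add_distrib,
      ← Finset.sum_neg_distrib]
    refine Finset.sum_congr rfl fun i _ => ?_
    linear_combination y i ^ 4 * root6 h i
  have p8 : ps y 8 = 2 + 8 * v := by rw [r8, p6, p3, p2]; ring
  have p10 : ps y 10 = -2 - 10 * v + 5 * (1 + v) ^ 2 := by rw [r10, p8, p5, p4]; ring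
  exact ⟨p1, p2, p3, p4, p5, p6, p8, p10⟩

theorem prod6 (O : Subring Ω) (h : F6 v = ∏ i, (X - C (y i))) (hτ : 1 + v ≠ 0)
    (hvO : v ∈ O) (hyO : ∀ i, y i ∈ O) :
    ∃ r ∈ O, -vV y ^ 2 = 331 * (1 + v) ^ 6 + (4 + 36 * v) * (1 + v) ^ 4 + 8 * r := by
  have h1 : ∏ i, (derivative (F6 v)).eval (y i) = -vV y ^ 2 := by
    have h2 : ∀ i, (derivative (F6 v)).eval (y i) =
        ∏ j ∈ Finset.univ.erase i, (y i - y j) := by
      intro i; rw [h, eval_derivative_prod]
    rw [Finset.prod_congr rfl (fun i _ => h2 i), prod_sub_ne]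
    have h3 : ∑ i : Fin 6, (Finset.Ioi i).card = 15 := by decide
    rw [h3]
    ring
  have h2O : (2 : Ω) ∈ O := by exact_mod_cast natCast_mem O 2
  have h3O : (3 : Ω) ∈ O := by exact_mod_cast natCast_mem O 3
  have hder : ∀ i, (derivative (F6 v)).eval (y i) =
      (1 + v) + 2 * (3 * y i ^ 5 + 2 * y i ^ 3) := by
    intro i
    unfold F6
    simp only [derivative_add, derivative_X_pow, derivative_mul, derivative_C, derivative_X,
      eval_add, eval_mul, eval_pow, eval_X, eval_C, eval_zero, eval_one]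
    push_cast
    ring
  obtain ⟨_, _, _, r, hr, h4⟩ := prod_expand O Finset.univ
    (fun _ : Fin 6 => 1 + v) (fun i => 3 * y i ^ 5 + 2 * y i ^ 3)
    (fun _ => hτ) (fun _ => O.add_mem O.one_mem hvO)
    (fun i => O.add_mem (O.mul_mem h3O (O.pow_mem (hyO i) 5))
      (O.mul_mem h2O (O.pow_mem (hyO i) 3)))
  obtain ⟨p1, p2, p3, p4, p5, p6, p8, p10⟩ := ps6 h
  have s1 : ∑ i, (3 * y i ^ 5 + 2 * y i ^ 3) / (1 + v) = -15 := by
    rw [← Finset.sum_div]
    have : ∑ i, (3 * y i ^ 5 + 2 * y i ^ 3) = 3 * ps y 5 + 2 * ps y 3 := by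
      simp only [ps, Finset.sum_add_distrib, ← Finset.mul_sum]
    rw [this, p5, p3]
    field_simp
    ring
  have s2 : ∑ i, ((3 * y i ^ 5 + 2 * y i ^ 3) / (1 + v)) ^ 2 =
      (-2 - 18 * v + 45 * (1 + v) ^ 2) / (1 + v) ^ 2 := by
    have e1 : ∀ i, ((3 * y i ^ 5 + 2 * y i ^ 3) / (1 + v)) ^ 2 =
        (9 * y i ^ 10 + 12 * y i ^ 8 + 4 * y i ^ 6) / (1 + v) ^ 2 := by
      intro i; rw [div_pow]; congr 1; ring
    rw [Finset.sum_congr rfl (fun i _ => e1 i), ← Finset.sum_div]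
    have : ∑ i, (9 * y i ^ 10 + 12 * y i ^ 8 + 4 * y i ^ 6) =
        9 * ps y 10 + 12 * ps y 8 + 4 * ps y 6 := by
      simp only [ps, Finset.sum_add_distrib, ← Finset.mul_sum]
    rw [this, p10, p8, p6]
    congr 1
    ring
  refine ⟨r, hr, ?_⟩
  rw [← h1, Finset.prod_congr rfl (fun i _ => hder i), h4, s1, s2]
  have h6 : ∏ _i : Fin 6, (1 + v) = (1 + v) ^ 6 := by simp
  rw [h6]
  field_simp
  ring

end

theorem disc6 (y : Fin 6 → Om)
    (hy : (F6 X : A0[X]).map (algebraMap A0 Om) = ∏ i, (X - C (y i))) :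
    ∃ d r : A0, algebraMap A0 Om d = vV y ^ 2 ∧
      1 ^ 2 * d = ((1 + X) ^ 3) ^ 2 + 4 * ((1 + X) ^ 6 + (1 + X) ^ 5) + 8 * r := by
  set ι := algebraMap A0 Om with hι
  obtain ⟨p, hp1, -⟩ := transfer (R := Om) (S := Om) _ (symm_vP (n := 6)) (F6 (X : A0))
  obtain ⟨b, hb1, -⟩ := transfer (R := Om) (S := Om) _ (symm_vB (n := 6)) (F6 (X : A0))
  have P1 : ι p = vP y := by rw [hp1 ι y hy, eval_vP]
  have B1 : ι b = vB y := by rw [hb1 ι y hy, eval_vB]
  have hd : ι (4 * b + p ^ 2) = vV y ^ 2 := by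
    rw [map_add, map_mul, map_pow, map_ofNat, B1, P1, four_vB]; ring
  set O : Subring Om := (integralClosure A0 Om).toSubring with hO
  have hOmem : ∀ x : Om, x ∈ O ↔ IsIntegral A0 x := fun x => Iff.rfl
  have hyF : (F6 (ι X) : Om[X]) = ∏ i, (X - C (y i)) := by
    rw [← hy, map_F6]
  have hyO : ∀ i, y i ∈ O := by
    intro i
    rw [hOmem]
    refine ⟨F6 X, (F6_monic _).1, ?_⟩
    rw [← eval_map, hy, eval_prod, Finset.prod_eq_zero (Finset.mem_univ i) (by simp)]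
  have hvO : ι X ∈ O := isIntegral_algebraMap
  have hτ : 1 + ι X ≠ 0 := by
    rw [← map_one ι, ← map_add, Ne, map_eq_zero_iff ι algMap_inj]
    intro h
    have := congrArg (fun p : A0 => p.coeff 1) h
    simp [coeff_one] at this
  obtain ⟨r0, hr0, hmain⟩ := prod6 O hyF hτ hvO hyO
  rw [← hd] at hmain
  have hmain' : ι (-(4 * b + p ^ 2) - 331 * (1 + X) ^ 6 - (4 + 36 * X) * (1 + X) ^ 4) =
      8 * r0 := by
    simp only [map_sub, map_mul, map_pow, map_add, map_neg, map_one, map_ofNat] at hmain ⊢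
    linear_combination hmain
  obtain ⟨r1, hr1⟩ := exists_eighth _ r0 hr0 hmain'
  refine ⟨4 * b + p ^ 2, -r1 - 42 * (1 + X) ^ 6 - (1 + 5 * X) * (1 + X) ^ 4, hd, ?_⟩
  linear_combination -hr1

theorem exists_sign6 {L : Type*} [Field L] [Algebra K2 L] {f : K2[X]} (hf : f = F6 RatFunc.X)
    (y : Fin 6 → L) (hinj : Function.Injective y)
    (hy : f.map (algebraMap K2 L) = ∏ i, (X - C (y i))) :
    ∃ w : K2, vP y ≠ 0 ∧
      (vE y / vP y + algebraMap K2 L w) ^ 2 + (vE y / vP y + algebraMap K2 L w) =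
        algebraMap K2 L (1 + 1 / (1 + RatFunc.X)) := by
  have : CharP L 2 := charP_of_injective_algebraMap (algebraMap K2 L).injective 2
  have hmon := F6_monic (algebraMap A0 Om X)
  rw [← map_F6] at hmon
  obtain ⟨yt, hyt⟩ := exists_prod_fin _ hmon.1 hmon.2
  obtain ⟨d, r, hd, hcong⟩ := disc6 yt hyt
  set φ : A0 →+* L := (algebraMap K2 L).comp phiK with hφ
  have hφy : (F6 X : A0[X]).map φ = ∏ i, (X - C (y i)) := by
    rw [hφ, ← Polynomial.map_map, map_F6, phiK_X, ← hf, hy]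
  have hφker : ∀ a, φ a = 0 → (2 : A0) ∣ a := by
    intro a ha
    apply phiK_ker
    have : (algebraMap K2 L) (phiK a) = 0 := ha
    exact (map_eq_zero_iff _ (algebraMap K2 L).injective).mp this
  have h4 : ∀ a : A0, 4 * a = 0 → a = 0 := by
    intro a ha
    rcases mul_eq_zero.mp ha with h | h
    · exact absurd h (by norm_num)
    · exact h
  obtain ⟨η, hε, hP, hs⟩ := exists_sign_elt (F6 X) (algebraMap A0 Om)
    algMap_inj φ hφker h4 yt hyt y hφy hinj d _ _ _ r hd hcong (by simp)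
  refine ⟨phiK η / phiK ((1 + X) ^ 3), hP, ?_⟩
  have e1 : algebraMap K2 L (phiK η / phiK ((1 + X) ^ 3)) = φ η / φ ((1 + X) ^ 3) := by
    rw [map_div₀]; rfl
  rw [e1, hs]
  have e2 : ∀ a, φ a = algebraMap K2 L (phiK a) := fun a => rfl
  rw [e2, e2, ← map_pow, ← map_div₀]
  congr 1
  simp only [map_mul, map_add, map_pow, map_one, phiK_X]
  have h1 := one_add_X_ne
  field_simp

theorem main6 : ∃ (L : Type) (_ : Field L) (_ : Algebra K2 L), FiniteDimensional K2 L ∧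
      IsGalois K2 L ∧ Nonempty ((L ≃ₐ[K2] L) ≃* alternatingGroup (Fin 6)) := by
  have hsep : (fgen P6).Separable := by
    rw [fgen_P6]; exact F6_separable _ one_add_X_ne
  have hmd : (fgen P6).Monic ∧ (fgen P6).natDegree = 6 := by
    rw [fgen_P6]; exact F6_monic _
  haveI : IsGalois K2 (fgen P6).SplittingField := IsGalois.of_separable_splitting_field hsep
  refine realise (fgen P6) hmd.1 hsep hmd.2 ?_ (1 + 1 / (1 + RatFunc.X)) ?_ ?_
  · intro e hy
    obtain ⟨g, hg, hswap⟩ := exists_swap fgen_P6 e hy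
    have htop := Perm.subgroup_eq_top_of_isPreprimitive_of_isSwap_mem
      (gprimitive P6_monic P6_one P6_deg (by norm_num) e) g hswap hg
    rw [htop]
    exact le_top
  · exact Or.inr ⟨1, Or.inr rfl, rfl⟩
  · intro y hinj hy
    exact exists_sign6 fgen_P6 y hinj hy

end MP7f
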