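import Pool.Agent.Lib.MP_7f581e_nt.Phi

namespace MP7f

open Polynomial

section subst
variable {L : Type*} [Field L] [Algebra K2 L] [Algebra (ZMod 2) L] [IsScalarTower (ZMod 2) K2 L]

/-- Substitution of a transcendental element for the variable. -/
noncomputable def subst (t : L) (ht : Transcendental (ZMod 2) t) : K2 →+* L :=
  IsFractionRing.lift (A := R1) (K := K2) (g := (aeval t : R1 →ₐ[ZMod 2] L).toRingHom)
    (transcendental_iff_injective.mp ht)

theorem subst_poly (t : L) (ht : Transcendental (ZMod 2) t) (p : R1) :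
    subst t ht (algebraMap R1 K2 p) = aeval t p :=
  IsFractionRing.lift_algebraMap _ p

theorem subst_X (t : L) (ht : Transcendental (ZMod 2) t) : subst t ht RatFunc.X = t := by
  rw [← RatFunc.algebraMap_X, subst_poly, aeval_X]

theorem algebraMap_poly (p : R1) :
    algebraMap K2 L (algebraMap R1 K2 p) = aeval (algebraMap K2 L RatFunc.X) p := by
  rw [aeval_algebraMap_apply]
  congr 1
  rw [← RatFunc.algebraMap_X]
  exact (aeval_algebraMap_apply K2 (X : R1) p ▸ by simp)

theorem mem_subst_range (t : L) (ht : Transcendental (ZMod 2) t)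
    (hv : algebraMap K2 L RatFunc.X ∈ (subst t ht).fieldRange) (k : K2) :
    algebraMap K2 L k ∈ (subst t ht).fieldRange := by
  have hpoly : ∀ p : R1, algebraMap K2 L (algebraMap R1 K2 p) ∈ (subst t ht).fieldRange := by
    intro p
    obtain ⟨k0, hk0⟩ := hv
    rw [algebraMap_poly, ← hk0]
    refine ⟨aeval k0 p, ?_⟩
    have : (subst t ht) = ((subst t ht).toIntAlgHom : K2 →+* L) := rfl
    rw [aeval_def, hom_eval₂, aeval_def]
    congr 1
    exact Subsingleton.elim _ _
  induction k using RatFunc.induction_on with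
  | _ p q hq =>
    rw [map_div₀]
    exact div_mem (hpoly p) (hpoly q)

end subst

section root
variable {L : Type*} [Field L] [Algebra K2 L] [Algebra (ZMod 2) L] [IsScalarTower (ZMod 2) K2 L]

theorem root_rel {m : ℕ} {y : L} (hy : aeval y (f2 m) = 0) :
    (F0 m : L[X]).eval y = algebraMap K2 L RatFunc.X * (y + 1) := by
  have h := hy
  rw [f2, Fpol_eq, ← eval_map_algebraMap, Polynomial.map_add, map_F0, eval_add] at h
  simp only [Polynomial.map_mul, map_C, Polynomial.map_add, map_X, Polynomial.map_one, eval_mul,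
    eval_C, eval_add, eval_X, eval_one] at h
  haveI : CharP L 2 := charP_of_injective_algebraMap (algebraMap K2 L).injective 2
  have two0 : (2 : L) = 0 := CharTwo.two_eq_zero
  linear_combination h - algebraMap K2 L RatFunc.X * (y + 1) * two0

theorem F0_eval_one {R : Type*} [CommRing R] [CharP R 2] (m : ℕ) : (F0 m : R[X]).eval 1 = 1 := by
  simp only [F0, eval_add, eval_pow, eval_X, one_pow]
  have two0 : (2 : R) = 0 := CharTwo.two_eq_zero
  linear_combination 2 * two0

theorem root_ne_one {m : ℕ} {y : L} (hy : aeval y (f2 m) = 0) : y + 1 ≠ 0 := by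
  intro h
  haveI : CharP L 2 := charP_of_injective_algebraMap (algebraMap K2 L).injective 2
  have two0 : (2 : L) = 0 := CharTwo.two_eq_zero
  have h1 := root_rel hy
  have h2 : y = 1 := by linear_combination h - two0
  rw [h, mul_zero, h2, F0_eval_one] at h1
  exact one_ne_zero h1

theorem root_transcendental {m : ℕ} {y : L} (hy : aeval y (f2 m) = 0) :
    Transcendental (ZMod 2) y := by
  intro halg
  have h1 := root_rel hy
  have h2 := root_ne_one hy
  have h3 : algebraMap K2 L RatFunc.X = (F0 m : L[X]).eval y * (y + 1)⁻¹ := by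
    rw [h1]; field_simp
  have h4 : IsAlgebraic (ZMod 2) (algebraMap K2 L RatFunc.X) := by
    rw [h3]
    simp only [F0, eval_add, eval_pow, eval_X]
    exact (((((halg.pow _).add (halg.pow _)).add (halg.pow _)).add (halg.pow _)).add
      (halg.pow _)).mul (halg.add isAlgebraic_one).inv
  rw [isAlgebraic_algebraMap_iff (algebraMap K2 L).injective] at h4
  exact RatFunc.transcendental_X h4

/-- The constant field together with the root, as a field isomorphic to `K2`. -/
noncomputable def Tf {m : ℕ} {y : L} (hy : aeval y (f2 m) = 0) : IntermediateField K2 L :=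
  (subst y (root_transcendental hy)).fieldRange.toIntermediateField (by
    apply mem_subst_range
    have h1 := root_rel hy
    have h2 := root_ne_one hy
    have h3 : algebraMap K2 L RatFunc.X = (F0 m : L[X]).eval y / (y + 1) := by
      rw [h1]; field_simp
    rw [h3]
    have hyT : y ∈ (subst y (root_transcendental hy)).fieldRange := ⟨RatFunc.X, subst_X _ _⟩
    refine div_mem ?_ (add_mem hyT (one_mem _))
    simp only [F0, eval_add, eval_pow, eval_X]
    exact add_mem (add_mem (add_mem (add_mem (pow_mem hyT _) (pow_mem hyT _)) (pow_mem hyT _))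
      (pow_mem hyT _)) (pow_mem hyT _))

theorem mem_Tf {m : ℕ} {y : L} (hy : aeval y (f2 m) = 0) (x : L) :
    x ∈ Tf hy ↔ ∃ k : K2, subst y (root_transcendental hy) k = x := Iff.rfl

theorem y_mem_Tf {m : ℕ} {y : L} (hy : aeval y (f2 m) = 0) : y ∈ Tf hy :=
  (mem_Tf hy y).mpr ⟨RatFunc.X, subst_X _ _⟩

noncomputable def tf {m : ℕ} {y : L} (hy : aeval y (f2 m) = 0) : K2 ≃+* Tf hy :=
  RingEquiv.ofBijective
    ((subst y (root_transcendental hy)).codRestrict (Tf hy) (fun k => ⟨k, rfl⟩))
    ⟨fun a b h => (subst y (root_transcendental hy)).injective (congrArg Subtype.val h),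
      fun ⟨x, k, hk⟩ => ⟨k, Subtype.ext hk⟩⟩

theorem tf_coe {m : ℕ} {y : L} (hy : aeval y (f2 m) = 0) (k : K2) :
    ((tf hy k : Tf hy) : L) = subst y (root_transcendental hy) k := rfl

theorem cofactor_root {m : ℕ} {y z : L} (hy : aeval y (f2 m) = 0) (hz : aeval z (f2 m) = 0)
    (hzy : z ≠ y) :
    eval z (((Phi m).map (algebraMap R1 K2)).map (subst y (root_transcendental hy))) = 0 := by
  have h1 := root_rel hy
  have h2 := root_rel hz
  haveI : CharP L 2 := charP_of_injective_algebraMap (algebraMap K2 L).injective 2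
  have two0 : (2 : L) = 0 := CharTwo.two_eq_zero
  have hcomp : (subst y (root_transcendental hy)).comp (algebraMap R1 K2) =
      (aeval y : R1 →ₐ[ZMod 2] L).toRingHom := by
    ext1
    · exact Subsingleton.elim _ _
    · simp only [RingHom.comp_apply]
      exact subst_poly _ _ _
  rw [Polynomial.map_map, hcomp]
  have h3 := congrArg (fun p : R1[X] => eval z (p.map (aeval y : R1 →ₐ[ZMod 2] L).toRingHom))
    (Psi_eq m)
  simp only [Polynomial.map_mul, Polynomial.map_sub, Polynomial.map_X, map_C, Psi,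
    Polynomial.map_add, map_F0, Polynomial.map_one, eval_mul, eval_sub, eval_add, eval_X, eval_C,
    eval_one, h2] at h3
  have h4 : (aeval y : R1 →ₐ[ZMod 2] L).toRingHom X = y := aeval_X y
  have h5 : (aeval y : R1 →ₐ[ZMod 2] L).toRingHom (X + 1) = y + 1 := by
    rw [map_add, h4, map_one]
  have h6 : (aeval y : R1 →ₐ[ZMod 2] L).toRingHom (F0 (R := ZMod 2) m) =
      algebraMap K2 L RatFunc.X * (y + 1) := by
    rw [← h1]
    simp only [F0, map_add, map_pow, h4, eval_add, eval_pow, eval_X]
  rw [h4, h5, h6] at h3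
  have h7 : (z - y) * eval z ((Phi m).map (aeval y : R1 →ₐ[ZMod 2] L).toRingHom) = 0 := by
    rw [h3]
    linear_combination algebraMap K2 L RatFunc.X * (y + 1) * (z + 1) * two0
  exact (mul_eq_zero.mp h7).resolve_left (sub_ne_zero.mpr hzy)

theorem exists_aut [Normal K2 L] {m : ℕ} (hm : 4 ≤ m) {y z z' : L} (hy : aeval y (f2 m) = 0)
    (hz : aeval z (f2 m) = 0) (hz' : aeval z' (f2 m) = 0) (hzy : z ≠ y) (hzy' : z' ≠ y) :
    ∃ σ : L ≃ₐ[K2] L, σ y = y ∧ σ z = z' := by
  haveI : Normal (Tf hy) L := Normal.tower_top_of_normal K2 (Tf hy) L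
  have hirr : Irreducible (((Phi m).map (algebraMap R1 K2)).map (tf hy : K2 →+* Tf hy)) :=
    (MulEquiv.irreducible_iff (mapEquiv (tf hy))).mpr (Phi_irreducible_map hm)
  have key : ∀ w : L, aeval w (f2 m) = 0 → w ≠ y →
      aeval w (((Phi m).map (algebraMap R1 K2)).map (tf hy : K2 →+* Tf hy)) = 0 := by
    intro w hw hwy
    have h1 := cofactor_root hy hw hwy
    rw [← eval_map_algebraMap, Polynomial.map_map (tf hy : K2 →+* Tf hy)]
    exact h1
  have h1 : minpoly (Tf hy) z = minpoly (Tf hy) z' := by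
    rw [← minpoly.eq_of_irreducible hirr (key z hz hzy),
      ← minpoly.eq_of_irreducible hirr (key z' hz' hzy')]
  obtain ⟨σ, hσ⟩ := (Normal.minpoly_eq_iff_mem_orbit L).mp h1.symm
  refine ⟨σ.restrictScalars K2, ?_, hσ⟩
  exact σ.commutes ⟨y, y_mem_Tf hy⟩

end root

section perm

theorem two_trans_of {G α : Type*} [Group G] [MulAction G α]
    (h3 : ∀ a b : α, ∃ c : α, c ≠ a ∧ c ≠ b)
    (H : ∀ y z z' : α, z ≠ y → z' ≠ y → ∃ g : G, g • y = y ∧ g • z = z') :
    MulAction.IsMultiplyPretransitive G α 2 := by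
  rw [MulAction.is_two_pretransitive_iff]
  intro a b c d hab hcd
  obtain ⟨r, hra, hrc⟩ := h3 a c
  obtain ⟨g, -, hg⟩ := H r a c hra.symm hrc.symm
  obtain ⟨h, hh, hh'⟩ := H c (g • b) d (by
    rw [← hg]; intro h; exact hab (smul_left_cancel g h).symm) hcd.symm
  refine ⟨h * g, ?_, ?_⟩
  · rw [mul_smul, hg, hh]
  · rw [mul_smul, hh']

end perm

end MP7f
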